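import Pool.Agent.H60.WM.Main

/-! The inequality for trigonometric polynomials, asymptotic form. -/

set_option autoImplicit false

open Complex MeasureTheory Finset Filter Topology

namespace Pool.Agent.H60.WM

lemma ev_exp {A η c K : ℝ} (hη : 0 < η) (hc : 0 < c) :
    ∀ᶠ T : ℝ in atTop, T ^ A * K * Real.exp (-(c * T ^ η)) ≤ 1 := by
  have h1 : Tendsto (fun x : ℝ => x ^ (A / η) * Real.exp (-c * x)) atTop (𝓝 0) :=
    tendsto_rpow_mul_exp_neg_mul_atTop_nhds_zero _ _ hc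
  have h2 : Tendsto (fun T : ℝ => (T ^ η) ^ (A / η) * Real.exp (-c * T ^ η)) atTop (𝓝 0) :=
    h1.comp (tendsto_rpow_atTop hη)
  have h3 := h2.const_mul K
  rw [mul_zero] at h3
  filter_upwards [h3.eventually (gt_mem_nhds zero_lt_one), eventually_ge_atTop (0 : ℝ)] with T hT hT0
  rw [← Real.rpow_mul hT0] at hT
  have : η * (A / η) = A := by field_simp
  rw [this] at hT
  have e : -(c * T ^ η) = -c * T ^ η := by ring
  rw [e]
  linarith

lemma ev_const {η K : ℝ} (hη : 0 < η) : ∀ᶠ T : ℝ in atTop, K ≤ T ^ η :=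
  (tendsto_rpow_atTop hη).eventually_ge_atTop K

lemma ev_log {η K A : ℝ} (hη : 0 < η) : ∀ᶠ T : ℝ in atTop, (A * Real.log T + 2) * K + 4 ≤ T ^ η := by
  have h1 : Tendsto (fun T : ℝ => Real.log T / T ^ η) atTop (𝓝 0) :=
    (isLittleO_log_rpow_atTop hη).tendsto_div_nhds_zero
  have h2 : Tendsto (fun T : ℝ => (T ^ η)⁻¹) atTop (𝓝 0) := (tendsto_rpow_atTop hη).inv_tendsto_atTop
  have h3 : Tendsto (fun T : ℝ => (A * K) * (Real.log T / T ^ η) + (2 * K + 4) * (T ^ η)⁻¹) atTop (𝓝 0) := by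
    simpa using (h1.const_mul (A * K)).add (h2.const_mul (2 * K + 4))
  filter_upwards [h3.eventually (gt_mem_nhds zero_lt_one), eventually_gt_atTop (0 : ℝ)] with T hT hT0
  have hp : 0 < T ^ η := Real.rpow_pos_of_pos hT0 _
  have e : (A * K) * (Real.log T / T ^ η) + (2 * K + 4) * (T ^ η)⁻¹ =
      ((A * Real.log T + 2) * K + 4) / T ^ η := by field_simp; ring
  rw [e, div_lt_one hp] at hT
  exact hT.le

variable {ι : Type*}

theorem tp_main {m : ℕ} (μ : Fin m → Measure ℂ) (w : Fin m → ℂ → ℂ) {R : ℝ} (hR0 : 0 ≤ R)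
    (hμ : ∀ j, Good (μ j) (w j) R) {A η : ℝ} (hη : 0 < η) :
    ∀ᶠ T : ℝ in atTop, ∀ (S : Finset ι) (c : ι → ℂ) (lam : ι → ℝ) (a b H : ℝ), 2 ≤ a → a ≤ b →
      b - a ≤ A * Real.log T → (∀ k ∈ S, a ≤ lam k ∧ lam k ≤ b) → nb S c ≤ T ^ A →
      (∀ ξ : ℝ, a - 1 ≤ ξ → ξ ≤ b + 1 → T ^ (-(η / 2)) ≤ ∑ j, ‖tr (μ j) (w j) ξ‖ ^ 2) → 0 ≤ H →
      (∀ j, ∀ x : ℝ, |x| ≤ T ^ (2 * η) → ‖tp S (fun k => c k * tr (μ j) (w j) (lam k)) lam x‖ ≤ H) →
      ‖∑ k ∈ S, c k‖ ≤ T ^ η * (1 + H) := by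
  set MM := ∑ j, tm (μ j) (w j) ^ 2 with hMM
  have hMM0 : 0 ≤ MM := Finset.sum_nonneg fun j _ => by positivity
  obtain ⟨r, hr⟩ := exists_nat_ge (2 * A / η)
  have hr' : 2 * A ≤ η * r := by rw [div_le_iff₀ hη] at hr; linarith
  filter_upwards [ev_const (η := 2 * η) (K := R ^ 2) (by linarith), ev_const (η := 2 * η) (K := R) (by linarith), ev_const (η := η / 2) (K := 162 * R ^ 2 * MM) (by linarith),
    ev_const (η := η) (K := 2) hη, ev_exp (A := 2 * A) (K := 1) (η := 2 * η) (c := 1 / 4) (by linarith) (by norm_num),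
    ev_exp (A := 2 * A) (K := MM) (η := 2 * η) (c := 1 / 4 ^ r) (by linarith) (by positivity),
    ev_log (η := η / 2) (A := A) (K := 2 ^ r * √Real.pi * (4 * m + 9)) (by linarith),
    eventually_ge_atTop (1 : ℝ)] with T h1 h1' h2 h3 h4 h5 h6 hT1
  intro S c lam a b H ha hab hba hlam hnb hlow hH htp
  have hT0 : 0 < T := by linarith
  set B := nb S c with hB
  have hB0 : 0 ≤ B := nb_nonneg S c
  have hBT : B ^ 2 ≤ T ^ (2 * A) := by
    have := pow_le_pow_left₀ hB0 hnb 2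
    rw [← Real.rpow_natCast (T ^ A) 2, ← Real.rpow_mul hT0.le] at this
    have e : A * ((2 : ℕ) : ℝ) = 2 * A := by push_cast; ring
    rwa [e] at this
  set α := T ^ (-(2 * η)) with hα
  have hα0 : 0 < α := Real.rpow_pos_of_pos hT0 _
  have hαinv : α⁻¹ = T ^ (2 * η) := by rw [hα, Real.rpow_neg hT0.le, inv_inv]
  set δ := T ^ (-(η / 4)) with hδ
  have hδ0 : 0 < δ := Real.rpow_pos_of_pos hT0 _
  have hδ2 : δ ^ 2 = T ^ (-(η / 2)) := by
    rw [hδ, ← Real.rpow_natCast, ← Real.rpow_mul hT0.le]; congr 1; push_cast; ring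
  have hδinv : 1 / δ ^ 2 = T ^ (η / 2) := by
    rw [hδ2, Real.rpow_neg hT0.le, one_div, inv_inv]
  have hc1 : α * R ^ 2 ≤ 1 := by
    have : α * R ^ 2 ≤ α * α⁻¹ := by rw [hαinv]; exact mul_le_mul_of_nonneg_left h1 hα0.le
    rwa [mul_inv_cancel₀ hα0.ne'] at this
  have hc1' : α * R ≤ 1 := by
    have : α * R ≤ α * α⁻¹ := by rw [hαinv]; exact mul_le_mul_of_nonneg_left h1' hα0.le
    rwa [mul_inv_cancel₀ hα0.ne'] at this
  have hTη : 0 < T ^ η := Real.rpow_pos_of_pos hT0 _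
  set θ := T ^ (-η) with hθ
  have hθ0 : 0 < θ := Real.rpow_pos_of_pos hT0 _
  have hc2 : (162 * R ^ 2 * MM / δ ^ 2) * α ≤ θ := by
    have e1 : (162 * R ^ 2 * MM / δ ^ 2) * α = (162 * R ^ 2 * MM) * (T ^ (η / 2) * α) := by
      rw [← hδinv]; ring
    rw [e1]
    have e2 : θ = T ^ (η / 2) * (T ^ (η / 2) * α) := by
      rw [hθ, hα, ← Real.rpow_add hT0, ← Real.rpow_add hT0]; congr 1; ring
    rw [e2]
    exact mul_le_mul_of_nonneg_right h2 (by positivity)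
  have hc3 : θ ≤ 1 / 2 := by
    rw [hθ, Real.rpow_neg hT0.le, one_div]
    exact inv_anti₀ (by norm_num) h3
  have hmain := tp_bound S c lam ha hab hlam hα0 hR0 hc1 hc1' μ w hμ hδ0 (by rw [hδ2]; exact hlow) hc2 hc3 r
    (X := T ^ (2 * η)) (H := H) (by positivity) htp
  rw [← hB, ← hMM] at hmain
  have e3 : B ^ 2 * Real.exp (-(1 / (4 * α))) ≤ 1 := by
    have : 1 / (4 * α) = 1 / 4 * T ^ (2 * η) := by rw [← hαinv]; field_simp
    rw [this]
    calc _ ≤ T ^ (2 * A) * Real.exp (-(1 / 4 * T ^ (2 * η))) := by gcongr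
      _ = T ^ (2 * A) * 1 * Real.exp (-(1 / 4 * T ^ (2 * η))) := by ring
      _ ≤ 1 := h4
  have e4 : B ^ 2 * MM * Real.exp (-(α / 4 ^ r * (T ^ (2 * η)) ^ 2)) ≤ 1 := by
    have : α / 4 ^ r * (T ^ (2 * η)) ^ 2 = 1 / 4 ^ r * T ^ (2 * η) := by
      have : α * T ^ (2 * η) = 1 := by rw [← hαinv]; exact mul_inv_cancel₀ hα0.ne'
      calc _ = (α * T ^ (2 * η)) * T ^ (2 * η) / 4 ^ r := by ring
        _ = _ := by rw [this]; ring
    rw [this]
    calc _ ≤ T ^ (2 * A) * MM * Real.exp (-(1 / 4 ^ r * T ^ (2 * η))) := by gcongr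
      _ ≤ 1 := h5
  have e5 : θ ^ r * B ^ 2 ≤ 1 := by
    calc θ ^ r * B ^ 2 ≤ θ ^ r * T ^ (2 * A) := by gcongr
      _ = T ^ (2 * A - η * r) := by
        rw [hθ, ← Real.rpow_natCast, ← Real.rpow_mul hT0.le, ← Real.rpow_add hT0]; congr 1; ring
      _ ≤ T ^ (0 : ℝ) := Real.rpow_le_rpow_of_exponent_le hT1 (by linarith)
      _ = 1 := Real.rpow_zero _
  have e6 : √(Real.pi / α) = √Real.pi * T ^ η := by
    have : Real.pi / α = Real.pi * (T ^ η) ^ 2 := by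
      rw [div_eq_mul_inv, hαinv, ← Real.rpow_natCast, ← Real.rpow_mul hT0.le]; congr 2; push_cast; ring
    rw [this, Real.sqrt_mul Real.pi_pos.le, Real.sqrt_sq hTη.le]
  have hTh : 1 ≤ T ^ (η / 2) := Real.one_le_rpow hT1 (by linarith)
  have hlogn : 0 ≤ Real.log T := Real.log_nonneg hT1
  have hfin : ‖∑ k ∈ S, c k‖ ^ 2 ≤ (T ^ η * (1 + H)) ^ 2 := by
    refine hmain.trans ?_
    have f1 : 2 * (2 * (B ^ 2 * Real.exp (-(1 / (4 * α)))) + 2 / δ ^ 2 * (m * H ^ 2 +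
        B ^ 2 * MM * Real.exp (-(α / 4 ^ r * (T ^ (2 * η)) ^ 2)))) + θ ^ r * B ^ 2 ≤
        T ^ (η / 2) * (4 * m + 9) * (1 + H) ^ 2 := by
      have g1 : 2 / δ ^ 2 = 2 * T ^ (η / 2) := by rw [← hδinv]; ring
      rw [g1]
      have g2 : 2 * (2 * (B ^ 2 * Real.exp (-(1 / (4 * α)))) + 2 * T ^ (η / 2) * (m * H ^ 2 +
        B ^ 2 * MM * Real.exp (-(α / 4 ^ r * (T ^ (2 * η)) ^ 2)))) + θ ^ r * B ^ 2 ≤
          2 * (2 * 1 + 2 * T ^ (η / 2) * (m * H ^ 2 + 1)) + 1 := by gcongr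
      refine g2.trans ?_
      have g3 : 0 ≤ (m : ℝ) := Nat.cast_nonneg _
      have g4 : (m : ℝ) * H ^ 2 + 1 ≤ (m + 1) * (1 + H) ^ 2 := by
        have e : ((m : ℝ) + 1) * (1 + H) ^ 2 - (m * H ^ 2 + 1) = m + 2 * (m * H) + 2 * H + H ^ 2 := by ring
        have e' : 0 ≤ (m : ℝ) + 2 * (m * H) + 2 * H + H ^ 2 := by positivity
        linarith
      have g5 : (1 : ℝ) ≤ (1 + H) ^ 2 := one_le_pow₀ (by linarith)
      have g6 : T ^ (η / 2) * (m * H ^ 2 + 1) ≤ T ^ (η / 2) * ((m + 1) * (1 + H) ^ 2) := by gcongr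
      have g7 : 1 ≤ T ^ (η / 2) * (1 + H) ^ 2 := one_le_mul_of_one_le_of_one_le hTh g5
      calc _ = 5 + 4 * (T ^ (η / 2) * (m * H ^ 2 + 1)) := by ring
        _ ≤ 5 * (T ^ (η / 2) * (1 + H) ^ 2) + 4 * (T ^ (η / 2) * ((m + 1) * (1 + H) ^ 2)) := by linarith
        _ = _ := by ring
    have f2 : 4 * B ^ 2 * Real.exp (-(1 / (4 * α))) ≤ 4 := by linarith
    have f3 : (0 : ℝ) ≤ (4 * m + 9) := by positivity
    have f4 : b - a + 2 ≤ A * Real.log T + 2 := by linarith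
    have f5 : 0 ≤ b - a + 2 := by linarith
    have f7 : 0 ≤ A * Real.log T + 2 := by linarith
    have f6 : (1 : ℝ) ≤ (1 + H) ^ 2 := one_le_pow₀ (by linarith)
    calc _ ≤ (A * Real.log T + 2) * (2 ^ r * (√Real.pi * T ^ η) * (T ^ (η / 2) * (4 * m + 9) * (1 + H) ^ 2)) + 4 := by
          rw [e6]
          gcongr
      _ = ((A * Real.log T + 2) * (2 ^ r * √Real.pi * (4 * m + 9))) * (T ^ η * T ^ (η / 2) * (1 + H) ^ 2) + 4 := by ring
      _ ≤ ((A * Real.log T + 2) * (2 ^ r * √Real.pi * (4 * m + 9)) + 4) * (T ^ η * T ^ (η / 2) * (1 + H) ^ 2) := by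
          have g1 : 1 ≤ T ^ η * T ^ (η / 2) * (1 + H) ^ 2 := by
            have g2 : 1 ≤ T ^ η := by linarith
            exact one_le_mul_of_one_le_of_one_le (one_le_mul_of_one_le_of_one_le g2 hTh) f6
          linarith
      _ ≤ T ^ (η / 2) * (T ^ η * T ^ (η / 2) * (1 + H) ^ 2) := by gcongr
      _ = (T ^ η * (1 + H)) ^ 2 := by
          have : T ^ (η / 2) * T ^ (η / 2) = T ^ η := by rw [← Real.rpow_add hT0]; congr 1; ring
          calc _ = (T ^ (η / 2) * T ^ (η / 2)) * T ^ η * (1 + H) ^ 2 := by ring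
            _ = _ := by rw [this]; ring
  exact (pow_le_pow_iff_left₀ (norm_nonneg _) (by positivity) two_ne_zero).1 hfin

end Pool.Agent.H60.WM
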