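import Pool.Agent.H60.WM.Final

/-! Vertical and horizontal means. -/

set_option autoImplicit false

open Complex MeasureTheory Finset Filter Topology FourierTransform
open Pool.Agent.R747.TL

namespace Pool.Agent.H60.WM

/-- one measure -/
lemma criterion_one {μ : Measure ℂ} {w : ℂ → ℂ} {R : ℝ} (hR : 0 ≤ R) (hμ : Good μ w R)
    (hS : ∀ ε : ℝ, 0 < ε → ∃ Λ : ℝ, ∀ ξ : ℝ, Λ ≤ ξ → Real.exp (-(ε * ξ)) ≤ ‖tr μ w ξ‖)
    {κ : ℝ} (hκ : 0 ≤ κ) :
    Exponent κ ↔ ∀ ε : ℝ, 0 < ε → ∃ C t0 : ℝ, ∀ t : ℝ, t0 ≤ t →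
      ‖∫ z, w z * riemannZeta (1 / 2 + (t : ℂ) * I + z) ∂μ‖ ≤ C * t ^ (κ + ε) := by
  have h := criterion (m := 1) (μ := fun _ => μ) (w := fun _ => w) hR (fun _ => hμ) (by
    intro ε hε
    obtain ⟨Λ, hΛ⟩ := hS ε hε
    exact ⟨Λ, fun ξ hξ => by simpa using hΛ ξ hξ⟩) Polynomial.X (by simp) hκ
  rw [h]
  constructor
  · intro h1 ε hε
    obtain ⟨C, t0, h2⟩ := h1 0 ε hε
    refine ⟨C, t0, fun t ht => ?_⟩
    have := h2 t ht
    unfold wm at this
    simpa using this
  · intro h1 _ ε hε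
    obtain ⟨C, t0, h2⟩ := h1 ε hε
    refine ⟨C, t0, fun t ht => ?_⟩
    have := h2 t ht
    unfold wm
    simpa using this

/-- exponentials beat powers -/
lemma exp_small {ε c : ℝ} (hε : 0 < ε) (hc : 0 < c) : ∀ᶠ ξ : ℝ in atTop, Real.exp (-(ε * ξ)) ≤ c / ξ := by
  have h1 : Tendsto (fun x : ℝ => x ^ (1 : ℝ) * Real.exp (-ε * x)) atTop (𝓝 0) :=
    tendsto_rpow_mul_exp_neg_mul_atTop_nhds_zero _ _ hε
  filter_upwards [h1.eventually (gt_mem_nhds hc), eventually_gt_atTop (0 : ℝ)] with x hx hx0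
  rw [Real.rpow_one] at hx
  rw [le_div_iff₀ hx0]
  have : -(ε * x) = -ε * x := by ring
  rw [this]; linarith

/-- the transform of a `C¹` weight on an interval -/
lemma slow_vert {a b : ℝ} (hab : a < b) {f : ℝ → ℂ} (hf : ContDiff ℝ 1 f) (hne : ‖f a‖ ≠ ‖f b‖)
    {ε : ℝ} (hε : 0 < ε) : ∃ Λ : ℝ, ∀ ξ : ℝ, Λ ≤ ξ → Real.exp (-(ε * ξ)) ≤
      ‖∫ u in a..b, f u * cexp (-(I * ξ * u))‖ := by
  have hf' : Continuous (deriv f) := hf.continuous_deriv le_rfl
  have hfd : ∀ u, HasDerivAt f (deriv f u) u := fun u => (hf.differentiable one_ne_zero u).hasDerivAt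
  set d := |‖f a‖ - ‖f b‖| with hd
  have hd0 : 0 < d := abs_pos.2 (sub_ne_zero.2 hne)
  -- Riemann-Lebesgue
  have hRL : Tendsto (fun ξ : ℝ => ∫ u in a..b, deriv f u * cexp (-(I * ξ * u))) atTop (𝓝 0) := by
    have h1 := (Real.tendsto_integral_exp_smul_cocompact
      ((Set.Ioc a b).indicator (deriv f))).comp (f := fun ξ : ℝ => ξ / (2 * Real.pi)) (x := atTop) (by
        have : Tendsto (fun ξ : ℝ => ξ / (2 * Real.pi)) atTop atTop :=
          tendsto_id.atTop_div_const (by positivity)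
        exact this.mono_right atTop_le_cocompact)
    refine h1.congr fun ξ => ?_
    simp only [Function.comp]
    rw [intervalIntegral.integral_of_le hab.le, ← integral_indicator measurableSet_Ioc]
    refine integral_congr_ae (Filter.Eventually.of_forall fun v => ?_)
    simp only
    by_cases hv : v ∈ Set.Ioc a b
    · rw [Set.indicator_of_mem hv, Set.indicator_of_mem hv, Circle.smul_def, Real.fourierChar_apply,
        smul_eq_mul, mul_comm]
      congr 2
      push_cast
      have : (Real.pi : ℂ) ≠ 0 := by exact_mod_cast Real.pi_pos.ne'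
      field_simp
    · rw [Set.indicator_of_notMem hv, Set.indicator_of_notMem hv, smul_zero]
  have hby : ∀ ξ : ℝ, 0 < ξ → (ξ : ℝ) * ‖∫ u in a..b, f u * cexp (-(I * ξ * u))‖ ≥
      d - ‖∫ u in a..b, deriv f u * cexp (-(I * ξ * u))‖ := by
    intro ξ hξ
    have hv : ∀ u : ℝ, HasDerivAt (fun u : ℝ => cexp (-(I * ξ * u))) (-(I * ξ) * cexp (-(I * ξ * u))) u := by
      intro u
      have h1 : HasDerivAt (fun u : ℝ => -(I * ξ * (u : ℂ))) (-(I * ξ * 1)) u :=
        ((Complex.ofRealCLM.hasDerivAt (x := u)).const_mul (I * ξ)).neg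
      have h2 := h1.cexp
      convert h2 using 1; ring
    have hp := intervalIntegral.integral_mul_deriv_eq_deriv_mul (a := a) (b := b)
      (u := f) (v := fun u : ℝ => cexp (-(I * ξ * u))) (u' := deriv f)
      (v' := fun u : ℝ => -(I * ξ) * cexp (-(I * ξ * u)))
      (fun u _ => hfd u) (fun u _ => hv u) (hf'.intervalIntegrable _ _)
      (Continuous.intervalIntegrable (by fun_prop) _ _)
    have e1 : ∫ u in a..b, f u * (-(I * ξ) * cexp (-(I * ξ * u))) =
        -(I * ξ) * ∫ u in a..b, f u * cexp (-(I * ξ * u)) := by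
      rw [← intervalIntegral.integral_const_mul]
      refine intervalIntegral.integral_congr fun u _ => ?_
      ring
    rw [e1] at hp
    have e2 : ξ * ‖∫ u in a..b, f u * cexp (-(I * ξ * u))‖ =
        ‖-(I * ξ) * ∫ u in a..b, f u * cexp (-(I * ξ * u))‖ := by
      rw [norm_mul, norm_neg, norm_mul, Complex.norm_I, one_mul, norm_real, Real.norm_eq_abs, abs_of_pos hξ]
    rw [e2, hp]
    have n1 : ∀ u : ℝ, ‖cexp (-(I * ξ * u))‖ = 1 := fun u => norm_char ξ u
    have h3 : d ≤ ‖f b * cexp (-(I * ξ * b)) - f a * cexp (-(I * ξ * a))‖ := by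
      have := abs_norm_sub_norm_le (f b * cexp (-(I * ξ * b))) (f a * cexp (-(I * ξ * a)))
      rw [norm_mul, norm_mul, n1, n1, mul_one, mul_one, abs_sub_comm] at this
      exact this
    have h4 := norm_sub_norm_le (f b * cexp (-(I * ξ * b)) - f a * cexp (-(I * ξ * a)))
      (∫ u in a..b, deriv f u * cexp (-(I * ξ * u)))
    linarith
  have hev : ∀ᶠ ξ : ℝ in atTop, Real.exp (-(ε * ξ)) ≤ ‖∫ u in a..b, f u * cexp (-(I * ξ * u))‖ := by
    have h5 : ∀ᶠ ξ : ℝ in atTop, ‖∫ u in a..b, deriv f u * cexp (-(I * ξ * u))‖ < d / 2 := by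
      have := (tendsto_zero_iff_norm_tendsto_zero.1 hRL).eventually (gt_mem_nhds (half_pos hd0))
      exact this
    filter_upwards [h5, exp_small hε (half_pos hd0), eventually_gt_atTop (0 : ℝ)] with ξ h6 h7 h8
    refine h7.trans ?_
    rw [div_le_iff₀ h8]
    have := hby ξ h8
    linarith
  exact eventually_atTop.1 hev

/-- weighted means over a vertical interval -/
theorem vertical {a b : ℝ} (hab : a < b) {f : ℝ → ℂ} (hf : ContDiff ℝ 1 f) (hne : ‖f a‖ ≠ ‖f b‖)
    {κ : ℝ} (hκ : 0 ≤ κ) :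
    Exponent κ ↔ ∀ ε : ℝ, 0 < ε → ∃ C t0 : ℝ, ∀ t : ℝ, t0 ≤ t →
      ‖∫ u in a..b, f u * zl (t + u)‖ ≤ C * t ^ (κ + ε) := by
  set μ : Measure ℂ := (volume.restrict (Set.Ioc a b)).map (fun u : ℝ => (u : ℂ) * I) with hμ
  set w : ℂ → ℂ := fun z => f z.im with hw
  set R := max |a| |b| with hR
  have hR0 : 0 ≤ R := (abs_nonneg a).trans (le_max_left _ _)
  have hmeas : Measurable (fun u : ℝ => (u : ℂ) * I) := by fun_prop
  have hwc : Continuous w := hf.continuous.comp Complex.continuous_im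
  have hfin : IsFiniteMeasure (volume.restrict (Set.Ioc a b)) := by
    constructor
    rw [Measure.restrict_apply_univ, Real.volume_Ioc]
    exact ENNReal.ofReal_lt_top
  have hint : ∀ g : ℂ → ℂ, Measurable g → ∫ z, w z * g z ∂μ = ∫ u in a..b, f u * g ((u : ℂ) * I) := by
    intro g hg
    have hsm : AEStronglyMeasurable (fun z => w z * g z) (Measure.map (fun u : ℝ => (u : ℂ) * I)
        (volume.restrict (Set.Ioc a b))) := (hwc.measurable.mul hg).aestronglyMeasurable
    rw [hμ, integral_map hmeas.aemeasurable hsm, intervalIntegral.integral_of_le hab.le]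
    refine integral_congr_ae (Filter.Eventually.of_forall fun u => ?_)
    simp only [hw]
    congr 2
    simp
  have hgood : Good μ w R := by
    refine ⟨Measure.isFiniteMeasure_map _ _, ?_, ?_⟩
    · rw [hμ, integrable_map_measure hwc.aestronglyMeasurable hmeas.aemeasurable]
      have : (w ∘ fun u : ℝ => (u : ℂ) * I) = f := by
        funext u; simp [hw]
      rw [this]
      exact (hf.continuous.integrableOn_Icc (a := a) (b := b)).mono_set Set.Ioc_subset_Icc_self
    · have hms : MeasurableSet {z : ℂ | 0 ≤ z.re ∧ ‖z‖ ≤ R} := (KR_compact R).isClosed.measurableSet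
      rw [hμ, ae_map_iff hmeas.aemeasurable hms]
      filter_upwards [ae_restrict_mem measurableSet_Ioc] with u hu
      constructor
      · simp
      · rw [norm_mul, Complex.norm_I, mul_one, norm_real, Real.norm_eq_abs]
        exact abs_le_max_abs_abs hu.1.le hu.2
  have hzm : ∀ t : ℝ, Measurable (fun z : ℂ => riemannZeta (1 / 2 + (t : ℂ) * I + z)) := by
    intro t
    have h1 : Measurable riemannZeta := by
      apply measurable_of_continuousOn_compl_singleton 1
      intro s hs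
      exact (differentiableAt_riemannZeta hs).continuousAt.continuousWithinAt
    exact h1.comp (by fun_prop)
  rw [criterion_one hR0 hgood (by
    intro ε hε
    obtain ⟨Λ, hΛ⟩ := slow_vert hab hf hne hε
    refine ⟨Λ, fun ξ hξ => (hΛ ξ hξ).trans (le_of_eq ?_)⟩
    unfold tr
    rw [hint _ (by fun_prop)]
    congr 1
    refine intervalIntegral.integral_congr fun u _ => ?_
    congr 2
    ring) hκ]
  have e : ∀ t : ℝ, ∫ z, w z * riemannZeta (1 / 2 + (t : ℂ) * I + z) ∂μ = ∫ u in a..b, f u * zl (t + u) := by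
    intro t
    rw [hint _ (hzm t)]
    refine intervalIntegral.integral_congr fun u _ => ?_
    unfold zl
    congr 2
    push_cast; ring
  simp_rw [e]

/-- means over horizontal segments -/
theorem horizontal {μ : Measure ℝ} [IsFiniteMeasure μ] {X : ℝ} (hX : ∀ᵐ x ∂μ, 0 ≤ x ∧ x ≤ X)
    (h0 : ∀ δ : ℝ, 0 < δ → μ (Set.Iic δ) ≠ 0) {κ : ℝ} (hκ : 0 ≤ κ) :
    Exponent κ ↔ ∀ ε : ℝ, 0 < ε → ∃ C t0 : ℝ, ∀ t : ℝ, t0 ≤ t →
      ‖∫ x, riemannZeta ((1 / 2 + x : ℝ) + (t : ℂ) * I) ∂μ‖ ≤ C * t ^ (κ + ε) := by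
  set ν : Measure ℂ := μ.map (fun x : ℝ => (x : ℂ)) with hν
  set R := max X 0 with hR
  have hR0 : 0 ≤ R := le_max_right _ _
  have hmeas : Measurable (fun x : ℝ => (x : ℂ)) := by fun_prop
  have hgood : Good ν (fun _ => 1) R := by
    refine ⟨Measure.isFiniteMeasure_map _ _, ?_, ?_⟩
    · have : IsFiniteMeasure ν := Measure.isFiniteMeasure_map _ _
      exact integrable_const 1
    · have hms : MeasurableSet {z : ℂ | 0 ≤ z.re ∧ ‖z‖ ≤ R} := (KR_compact R).isClosed.measurableSet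
      rw [hν, ae_map_iff hmeas.aemeasurable hms]
      filter_upwards [hX] with x hx
      refine ⟨by simpa using hx.1, ?_⟩
      rw [norm_real, Real.norm_eq_abs, abs_of_nonneg hx.1]
      exact hx.2.trans (le_max_left _ _)
  have hint : ∀ g : ℂ → ℂ, Measurable g → ∫ z, (1 : ℂ) * g z ∂ν = ∫ x, g (x : ℂ) ∂μ := by
    intro g hg
    have hsm : AEStronglyMeasurable (fun z => (1 : ℂ) * g z) (Measure.map (fun x : ℝ => (x : ℂ)) μ) :=
      (measurable_const.mul hg).aestronglyMeasurable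
    rw [hν, integral_map hmeas.aemeasurable hsm]
    simp
  have hzm : ∀ t : ℝ, Measurable (fun z : ℂ => riemannZeta (1 / 2 + (t : ℂ) * I + z)) := by
    intro t
    have h1 : Measurable riemannZeta := by
      apply measurable_of_continuousOn_compl_singleton 1
      intro s hs
      exact (differentiableAt_riemannZeta hs).continuousAt.continuousWithinAt
    exact h1.comp (by fun_prop)
  rw [criterion_one hR0 hgood (by
    intro ε hε
    have hδ : 0 < ε / 2 := by positivity
    set c := (μ (Set.Iic (ε / 2))).toReal with hc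
    have hc0 : 0 < c := ENNReal.toReal_pos (h0 _ hδ) (measure_ne_top _ _)
    have hev : ∀ᶠ ξ : ℝ in atTop, Real.exp (-(ε / 2 * ξ)) ≤ c := by
      have h1 : Tendsto (fun ξ : ℝ => Real.exp (-(ε / 2 * ξ))) atTop (𝓝 0) :=
        Real.tendsto_exp_neg_atTop_nhds_zero.comp (tendsto_id.const_mul_atTop hδ)
      exact h1.eventually_le_const hc0
    obtain ⟨Λ, hΛ⟩ := eventually_atTop.1 (hev.and (eventually_ge_atTop (0 : ℝ)))
    refine ⟨Λ, fun ξ hξ => ?_⟩
    obtain ⟨h1, h2⟩ := hΛ ξ hξ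
    unfold tr
    rw [hint _ (by fun_prop)]
    have e1 : ∫ x : ℝ, cexp (-((ξ : ℂ) * (x : ℂ))) ∂μ = ((∫ x : ℝ, Real.exp (-(ξ * x)) ∂μ : ℝ) : ℂ) := by
      rw [← integral_complex_ofReal]
      refine integral_congr_ae (Filter.Eventually.of_forall fun x => ?_)
      simp only
      push_cast
      rfl
    have hnn : 0 ≤ ∫ x : ℝ, Real.exp (-(ξ * x)) ∂μ := integral_nonneg fun x => (Real.exp_pos _).le
    rw [e1, norm_real, Real.norm_eq_abs, abs_of_nonneg hnn]
    have hi : Integrable (fun x : ℝ => Real.exp (-(ξ * x))) μ := by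
      refine (integrable_const (1 : ℝ)).mono' (by fun_prop) ?_
      filter_upwards [hX] with x hx
      rw [Real.norm_eq_abs, abs_of_pos (Real.exp_pos _), Real.exp_le_one_iff]
      nlinarith [hx.1]
    calc Real.exp (-(ε * ξ)) = Real.exp (-(ε / 2 * ξ)) * Real.exp (-(ε / 2 * ξ)) := by
          rw [← Real.exp_add]; congr 1; ring
      _ ≤ c * Real.exp (-(ε / 2 * ξ)) := mul_le_mul_of_nonneg_right h1 (Real.exp_pos _).le
      _ = ∫ x in Set.Iic (ε / 2), Real.exp (-(ε / 2 * ξ)) ∂μ := by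
          rw [setIntegral_const, smul_eq_mul, hc, Measure.real]
      _ ≤ ∫ x in Set.Iic (ε / 2), Real.exp (-(ξ * x)) ∂μ := by
          refine setIntegral_mono_on (integrable_const _).integrableOn hi.integrableOn measurableSet_Iic
            fun x hx => ?_
          apply Real.exp_le_exp.2
          have : x ≤ ε / 2 := hx
          nlinarith
      _ ≤ ∫ x : ℝ, Real.exp (-(ξ * x)) ∂μ :=
          setIntegral_le_integral hi (Filter.Eventually.of_forall fun x => (Real.exp_pos _).le)) hκ]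
  have e : ∀ t : ℝ, ∫ z, (1 : ℂ) * riemannZeta (1 / 2 + (t : ℂ) * I + z) ∂ν =
      ∫ x, riemannZeta ((1 / 2 + x : ℝ) + (t : ℂ) * I) ∂μ := by
    intro t
    rw [hint _ (hzm t)]
    refine integral_congr_ae (Filter.Eventually.of_forall fun x => ?_)
    simp only
    congr 1
    push_cast; ring
  simp_rw [e]

end Pool.Agent.H60.WM
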