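import Pool.Agent.H60.WM.Local

/-! The criterion. -/

set_option autoImplicit false

open Complex MeasureTheory Finset Filter Topology
open Pool.Agent.R747.TL Pool.Agent.TH804.SS

namespace Pool.Agent.H60.WM

/-- bound for large heights -/
def EE (a : ℝ) : Prop := ∃ T0 : ℝ, ∀ t : ℝ, T0 ≤ t → ‖zl t‖ ≤ t ^ a

/-- bound for the means -/
def MeanExp (μ : Measure ℂ) (w : ℂ → ℂ) (P : Polynomial ℂ) (β : ℝ) : Prop :=
  ∀ ε : ℝ, 0 < ε → ∃ C t0 : ℝ, ∀ t : ℝ, t0 ≤ t → ‖wm μ w P t‖ ≤ C * t ^ (β + ε)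

lemma EE.mono {a b : ℝ} (h : EE a) (hab : a ≤ b) : EE b := by
  obtain ⟨T0, h0⟩ := h
  refine ⟨max T0 1, fun t ht => (h0 t ((le_max_left _ _).trans ht)).trans ?_⟩
  exact Real.rpow_le_rpow_of_exponent_le ((le_max_right _ _).trans ht) hab

lemma EE_two : EE 2 := by
  refine ⟨18, fun t ht => (zl_growth t).trans ?_⟩
  rw [abs_of_pos (by linarith)]
  have : t ^ (2 : ℝ) = t ^ 2 := by norm_cast
  rw [this]; nlinarith

variable {m : ℕ} {μ : Fin m → Measure ℂ} {w : Fin m → ℂ → ℂ} {R : ℝ}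

lemma improve (hR : 0 ≤ R) (hμ : ∀ j, Good (μ j) (w j) R) (hS : Slow μ w) (P : Polynomial ℂ)
    (hP : 0 < P.natDegree) {κ ε a : ℝ} (hκ : 0 ≤ κ) (hε : 0 < ε) (hε1 : ε ≤ 1) (ha : κ + ε ≤ a)
    (hE : EE a) (hM : ∀ j, MeanExp (μ j) (w j) P (P.natDegree * κ)) :
    EE (max (κ + ε) ((1 - 1 / (2 * P.natDegree)) * a)) := by
  set k := P.natDegree with hk
  have hk1 : (1 : ℝ) ≤ k := by exact_mod_cast hP
  have ha0 : 0 ≤ a := by linarith
  obtain ⟨η, hη⟩ : ∃ η : ℝ, η = ε / (16 * (k + 2)) := ⟨_, rfl⟩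
  have hη0 : 0 < η := by rw [hη]; positivity
  have hη1 : η ≤ 1 / 4 := by
    rw [hη, div_le_iff₀ (by positivity)]; nlinarith
  have hηk : (k + 2) * η = ε / 16 := by rw [hη]; field_simp
  obtain ⟨T0', h0'⟩ := hE
  obtain ⟨CR, T0, hCR, h0⟩ := right_bound ha0 h0'
  choose C t0 hC using fun j => hM j (ε / 16) (by linarith)
  set CC := ∑ j, |C j| with hCC
  have hCC0 : 0 ≤ CC := Finset.sum_nonneg fun _ _ => abs_nonneg _
  have hCj : ∀ j, C j ≤ CC := fun j => (le_abs_self _).trans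
    (Finset.single_le_sum (f := fun j => |C j|) (fun i _ => abs_nonneg _) (Finset.mem_univ j))
  set tt := ∑ j, |t0 j| with htt
  have htj : ∀ j, t0 j ≤ tt := fun j => (le_abs_self _).trans
    (Finset.single_le_sum (f := fun j => |t0 j|) (fun i _ => abs_nonneg _) (Finset.mem_univ j))
  set b := max (κ + ε) ((1 - 1 / (2 * k)) * a) with hb
  have hb1 : κ + ε ≤ b := le_max_left _ _
  have hb2 : (1 - 1 / (2 * k)) * a ≤ b := le_max_right _ _
  have hkb1 : k * κ + ε ≤ k * b := by nlinarith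
  have hkb2 : (k - 1) * a + ε / 2 ≤ k * b := by
    have h1 : (k : ℝ) * ((1 - 1 / (2 * k)) * a) = (k - 1 / 2) * a := by field_simp
    have h2 : (k : ℝ) * ((1 - 1 / (2 * k)) * a) ≤ k * b := mul_le_mul_of_nonneg_left hb2 (by linarith)
    rw [h1] at h2
    nlinarith
  have hwin : ∀ᶠ T : ℝ in atTop, T ^ (2 * η) + R ≤ T / 2 := by
    have h1 : ∀ᶠ T : ℝ in atTop, 4 ≤ T ^ (1 / 2 : ℝ) := ev_const (by norm_num)
    filter_upwards [h1, eventually_ge_atTop (4 * R), eventually_ge_atTop (1 : ℝ)] with T h2 h3 h4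
    have h5 : T ^ (2 * η) ≤ T ^ (1 / 2 : ℝ) := Real.rpow_le_rpow_of_exponent_le h4 (by linarith)
    have h6 : T ^ (1 / 2 : ℝ) * T ^ (1 / 2 : ℝ) = T := by
      rw [← Real.rpow_add (by linarith)]; norm_num
    nlinarith
  have hev := (local_ineq hR hμ hS P hP hη0 hη1).and (hwin.and ((eventually_ge_atTop (2 * T0)).and
    ((eventually_ge_atTop (1 : ℝ)).and ((eventually_ge_atTop (2 * tt)).and
    ((ev_const (η := ε / 4) (K := 3 * (1 + CC * 3 ^ (k * κ + ε / 16)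
      + CR ^ (k - 1) * 3 ^ ((k - 1) * a))) (by linarith)))))))
  obtain ⟨T1, hT1⟩ := eventually_atTop.1 hev
  refine ⟨T1, fun T hT => ?_⟩
  obtain ⟨h1, h2, h3, h4, h4', h5⟩ := hT1 T hT
  have hTp : 0 < T := by linarith
  have hexp0 : 0 ≤ k * κ + ε / 16 := by positivity
  set H := CC * (3 * T) ^ (k * κ + ε / 16) + CR ^ (k - 1) * (3 * T) ^ ((k - 1) * a) with hH
  have hH0 : 0 ≤ H := by positivity
  have h6 := h1 H hH0 (by
    intro j u hu
    have hu2 : |u| ≤ T / 2 := by linarith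
    have hu' := abs_le.1 hu2
    have e1 := hC j (T + u) (by linarith [htj j])
    calc ‖wm (μ j) (w j) P (T + u)‖ ≤ C j * (T + u) ^ (k * κ + ε / 16) := e1
      _ ≤ CC * (3 * T) ^ (k * κ + ε / 16) := by
          have e3 : 0 ≤ (T + u) ^ (k * κ + ε / 16) := by apply Real.rpow_nonneg; linarith
          calc _ ≤ CC * (T + u) ^ (k * κ + ε / 16) := mul_le_mul_of_nonneg_right (hCj j) e3
            _ ≤ _ := by
              refine mul_le_mul_of_nonneg_left ?_ hCC0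
              exact Real.rpow_le_rpow (by linarith) (by linarith) hexp0
      _ ≤ H := by
          rw [hH]
          have : 0 ≤ CR ^ (k - 1) * (3 * T) ^ ((k - 1) * a) := by positivity
          linarith) (by
    intro s hs1 hs2
    have hu2 : |s.im - T| ≤ T / 2 := hs2.trans h2
    have hu' := abs_le.1 hu2
    have es : s = (s.re : ℂ) + (s.im : ℂ) * I := (Complex.re_add_im s).symm
    have e1 := h0 s.im (by linarith) s.re hs1
    rw [← es] at e1
    calc ‖riemannZeta s‖ ^ (k - 1) ≤ (CR * s.im ^ a) ^ (k - 1) := pow_le_pow_left₀ (norm_nonneg _) e1 _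
      _ ≤ (CR * (3 * T) ^ a) ^ (k - 1) := by
          have h8 : 0 ≤ s.im ^ a := by apply Real.rpow_nonneg; linarith
          refine pow_le_pow_left₀ (by positivity) ?_ _
          refine mul_le_mul_of_nonneg_left ?_ (by linarith)
          exact Real.rpow_le_rpow (by linarith) (by linarith) ha0
      _ = CR ^ (k - 1) * (3 * T) ^ ((k - 1) * a) := by
          rw [mul_pow, ← Real.rpow_natCast ((3 * T) ^ a), ← Real.rpow_mul (by positivity), Nat.cast_sub hP]
          congr 2; push_cast; ring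
      _ ≤ H := by
          rw [hH]
          have : 0 ≤ CC * (3 * T) ^ (k * κ + ε / 16) := by positivity
          linarith)
  rw [hηk] at h6
  have hbnn : 0 ≤ b := by linarith
  have hT1' : 1 ≤ T := h4
  have g0 : T ^ (k * b) = T ^ (ε / 4) * T ^ (k * b - ε / 4) := by
    rw [← Real.rpow_add hTp]; congr 1; ring
  have g1 : T ^ (ε / 16) * 1 ≤ T ^ (k * b - ε / 4) := by
    rw [mul_one]; exact Real.rpow_le_rpow_of_exponent_le h4 (by nlinarith)
  have g2 : T ^ (ε / 16) * (CC * (3 * T) ^ (k * κ + ε / 16)) ≤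
      CC * 3 ^ (k * κ + ε / 16) * T ^ (k * b - ε / 4) := by
    rw [Real.mul_rpow (by norm_num) hTp.le]
    have : T ^ (ε / 16) * T ^ (k * κ + ε / 16) ≤ T ^ (k * b - ε / 4) := by
      rw [← Real.rpow_add hTp]
      exact Real.rpow_le_rpow_of_exponent_le h4 (by linarith)
    calc _ = CC * 3 ^ (k * κ + ε / 16) * (T ^ (ε / 16) * T ^ (k * κ + ε / 16)) := by ring
      _ ≤ _ := mul_le_mul_of_nonneg_left this (by positivity)
  have g3 : T ^ (ε / 16) * (CR ^ (k - 1) * (3 * T) ^ ((k - 1) * a)) ≤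
      CR ^ (k - 1) * 3 ^ ((k - 1) * a) * T ^ (k * b - ε / 4) := by
    rw [Real.mul_rpow (by norm_num) hTp.le]
    have : T ^ (ε / 16) * T ^ ((k - 1) * a) ≤ T ^ (k * b - ε / 4) := by
      rw [← Real.rpow_add hTp]
      exact Real.rpow_le_rpow_of_exponent_le h4 (by linarith)
    calc _ = CR ^ (k - 1) * 3 ^ ((k - 1) * a) * (T ^ (ε / 16) * T ^ ((k - 1) * a)) := by ring
      _ ≤ _ := mul_le_mul_of_nonneg_left this (by positivity)
  have h7 : ‖zl T‖ ^ k ≤ T ^ (k * b) := by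
    refine h6.trans ?_
    rw [hH]
    have hpos : 0 ≤ T ^ (k * b - ε / 4) := by positivity
    calc T ^ (ε / 16) * (1 + (CC * (3 * T) ^ (k * κ + ε / 16) + CR ^ (k - 1) * (3 * T) ^ ((k - 1) * a)))
        = T ^ (ε / 16) * 1 + T ^ (ε / 16) * (CC * (3 * T) ^ (k * κ + ε / 16)) +
          T ^ (ε / 16) * (CR ^ (k - 1) * (3 * T) ^ ((k - 1) * a)) := by ring
      _ ≤ T ^ (k * b - ε / 4) + CC * 3 ^ (k * κ + ε / 16) * T ^ (k * b - ε / 4) +
          CR ^ (k - 1) * 3 ^ ((k - 1) * a) * T ^ (k * b - ε / 4) := by linarith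
      _ = (1 + CC * 3 ^ (k * κ + ε / 16) + CR ^ (k - 1) * 3 ^ ((k - 1) * a)) * T ^ (k * b - ε / 4) := by ring
      _ ≤ T ^ (ε / 4) * T ^ (k * b - ε / 4) := by
          refine mul_le_mul_of_nonneg_right ?_ hpos
          have h8 : (0 : ℝ) ≤ 1 + CC * 3 ^ (k * κ + ε / 16) + CR ^ (k - 1) * 3 ^ ((k - 1) * a) := by positivity
          linarith
      _ = _ := g0.symm
  have h8 : T ^ (k * b) = (T ^ b) ^ k := by
    rw [← Real.rpow_natCast, ← Real.rpow_mul hTp.le]; congr 1; ring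
  rw [h8] at h7
  exact (pow_le_pow_iff_left₀ (norm_nonneg _) (by positivity) (by omega)).1 h7

theorem means_to_exp (hR : 0 ≤ R) (hμ : ∀ j, Good (μ j) (w j) R) (hS : Slow μ w) (P : Polynomial ℂ)
    (hP : 0 < P.natDegree) {κ : ℝ} (hκ : 0 ≤ κ) (hM : ∀ j, MeanExp (μ j) (w j) P (P.natDegree * κ)) :
    Exponent κ := by
  apply exponent_of_large hκ
  intro ε' hε'
  obtain ⟨ε, hε⟩ : ∃ ε : ℝ, ε = min ε' 1 := ⟨_, rfl⟩
  have hε0 : 0 < ε := by rw [hε]; positivity
  have hε1 : ε ≤ 1 := by rw [hε]; exact min_le_right _ _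
  have hk1 : (1 : ℝ) ≤ P.natDegree := by exact_mod_cast hP
  set q := 1 - 1 / (2 * (P.natDegree : ℝ)) with hq
  have hq0 : 0 ≤ q := by
    rw [hq, sub_nonneg, div_le_one (by positivity)]; linarith
  have hq1 : q < 1 := by
    rw [hq]
    have : 0 < 1 / (2 * (P.natDegree : ℝ)) := by positivity
    linarith
  have hEn : ∀ n : ℕ, EE (max (κ + ε) (q ^ n * 2)) := by
    intro n
    induction n with
    | zero => exact EE_two.mono (by rw [pow_zero, one_mul]; exact le_max_right _ _)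
    | succ n ih =>
      have h1 := improve hR hμ hS P hP hκ hε0 hε1 (le_max_left _ _) ih hM
      refine h1.mono ?_
      refine max_le (le_max_left _ _) ?_
      rw [← hq, mul_max_of_nonneg _ _ hq0]
      refine max_le ?_ ?_
      · refine le_trans ?_ (le_max_left _ _)
        nlinarith
      · refine le_trans (le_of_eq ?_) (le_max_right _ _)
        rw [pow_succ]; ring
  have hlim : Tendsto (fun n : ℕ => q ^ n * 2) atTop (𝓝 (0 * 2)) :=
    (tendsto_pow_atTop_nhds_zero_of_lt_one hq0 hq1).mul_const 2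
  rw [zero_mul] at hlim
  obtain ⟨n, hn⟩ := (hlim.eventually (gt_mem_nhds (by linarith : 0 < κ + ε))).exists
  have h1 := hEn n
  rw [max_eq_left hn.le] at h1
  obtain ⟨T0, hT0⟩ := h1.mono (b := κ + ε') (by rw [hε]; linarith [min_le_left ε' 1])
  exact ⟨1, T0, fun t ht => by rw [one_mul]; exact hT0 t ht⟩

theorem exp_to_means (hR : 0 ≤ R) (hμ : ∀ j, Good (μ j) (w j) R) (P : Polynomial ℂ)
    (hP : 0 < P.natDegree) {κ : ℝ} (hκ : 0 ≤ κ) (hE : Exponent κ) (j : Fin m) :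
    MeanExp (μ j) (w j) P (P.natDegree * κ) := by
  intro ε hε
  set k := P.natDegree with hk
  have hk1 : (1 : ℝ) ≤ k := by exact_mod_cast hP
  obtain ⟨C, hC⟩ := hE (ε / (2 * k)) (by positivity)
  have hC0 : 0 ≤ C := by
    have := (norm_nonneg _).trans (hC 0)
    simpa using this
  have hexp : 0 ≤ κ + ε / k := by positivity
  -- a bound on the line
  have hEE : EE (κ + ε / k) := by
    have hev := (ev_const (η := ε / (2 * k)) (K := C * 2 ^ (κ + ε / (2 * k))) (by positivity)).and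
      (eventually_ge_atTop (1 : ℝ))
    obtain ⟨T0, hT0⟩ := eventually_atTop.1 hev
    refine ⟨T0, fun t ht => ?_⟩
    obtain ⟨h1, h2⟩ := hT0 t ht
    have htp : 0 < t := by linarith
    have h3 : (1 + |t|) ^ (κ + ε / (2 * k)) ≤ 2 ^ (κ + ε / (2 * k)) * t ^ (κ + ε / (2 * k)) := by
      rw [← Real.mul_rpow (by norm_num) htp.le]
      apply Real.rpow_le_rpow (by positivity) _ (by positivity)
      rw [abs_of_pos htp]; linarith
    calc ‖zl t‖ ≤ C * (1 + |t|) ^ (κ + ε / (2 * k)) := hC t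
      _ ≤ C * (2 ^ (κ + ε / (2 * k)) * t ^ (κ + ε / (2 * k))) := mul_le_mul_of_nonneg_left h3 hC0
      _ = C * 2 ^ (κ + ε / (2 * k)) * t ^ (κ + ε / (2 * k)) := by ring
      _ ≤ t ^ (ε / (2 * k)) * t ^ (κ + ε / (2 * k)) := mul_le_mul_of_nonneg_right h1 (by positivity)
      _ = t ^ (κ + ε / k) := by
        rw [← Real.rpow_add htp]; congr 1; field_simp; ring
  obtain ⟨T0, h0⟩ := hEE
  obtain ⟨CR, T1, hCR, h1⟩ := right_bound hexp h0
  set D := ∑ i ∈ Finset.range (k + 1), ‖P.coeff i‖ with hD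
  have hD0 : 0 ≤ D := Finset.sum_nonneg fun _ _ => norm_nonneg _
  refine ⟨tm (μ j) (w j) * (D * (CR * 2 ^ (κ + ε / k)) ^ k), max (2 * T1) (2 * R + 1), fun t ht => ?_⟩
  have ht1 : 2 * T1 ≤ t := (le_max_left _ _).trans ht
  have ht2 : 2 * R + 1 ≤ t := (le_max_right _ _).trans ht
  have htp : 0 < t := by linarith
  have hpt : ∀ z : ℂ, 0 ≤ z.re → ‖z‖ ≤ R → ‖P.eval (riemannZeta (1 / 2 + (t : ℂ) * I + z))‖ ≤
      D * (CR * 2 ^ (κ + ε / k)) ^ k * t ^ (k * κ + ε) := by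
    intro z hz1 hz2
    set s : ℂ := 1 / 2 + (t : ℂ) * I + z with hs
    have hsre : s.re = 1 / 2 + z.re := by rw [hs]; simp
    have hsim : s.im = t + z.im := by rw [hs]; simp
    have hzim := abs_le.1 (Complex.abs_im_le_norm z)
    have es : s = (s.re : ℂ) + (s.im : ℂ) * I := (Complex.re_add_im s).symm
    have e1 := h1 s.im (by rw [hsim]; linarith) s.re (by rw [hsre]; linarith)
    rw [← es] at e1
    have e2 : s.im ^ (κ + ε / k) ≤ 2 ^ (κ + ε / k) * t ^ (κ + ε / k) := by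
      rw [← Real.mul_rpow (by norm_num) htp.le]
      apply Real.rpow_le_rpow (by rw [hsim]; linarith) (by rw [hsim]; linarith) hexp
    set Z := CR * 2 ^ (κ + ε / k) * t ^ (κ + ε / k) with hZ
    have e3 : ‖riemannZeta s‖ ≤ Z := by
      calc _ ≤ CR * s.im ^ (κ + ε / k) := e1
        _ ≤ CR * (2 ^ (κ + ε / k) * t ^ (κ + ε / k)) := mul_le_mul_of_nonneg_left e2 (by linarith)
        _ = Z := by rw [hZ]; ring
    have hZ1 : 1 ≤ Z := by
      have e4 : 1 ≤ (2 : ℝ) ^ (κ + ε / k) := Real.one_le_rpow (by norm_num) hexp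
      have e5 : 1 ≤ t ^ (κ + ε / k) := Real.one_le_rpow (by linarith) hexp
      exact one_le_mul_of_one_le_of_one_le (one_le_mul_of_one_le_of_one_le hCR e4) e5
    have e4 : ‖P.eval (riemannZeta s)‖ ≤ D * Z ^ k := by
      rw [Polynomial.eval_eq_sum_range, hD, Finset.sum_mul]
      refine (norm_sum_le _ _).trans (Finset.sum_le_sum fun i hi => ?_)
      rw [Finset.mem_range] at hi
      rw [norm_mul, norm_pow]
      refine mul_le_mul_of_nonneg_left ?_ (norm_nonneg _)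
      calc ‖riemannZeta s‖ ^ i ≤ Z ^ i := pow_le_pow_left₀ (norm_nonneg _) e3 i
        _ ≤ Z ^ k := pow_le_pow_right₀ hZ1 (by omega)
    refine e4.trans (le_of_eq ?_)
    rw [hZ, mul_pow, ← Real.rpow_natCast (t ^ (κ + ε / k)), ← Real.rpow_mul htp.le, ← mul_assoc]
    congr 2
    field_simp
  unfold wm
  have h2 : ‖∫ z, w j z * P.eval (riemannZeta (1 / 2 + (t : ℂ) * I + z)) ∂(μ j)‖ ≤
      ∫ z, ‖w j z‖ * (D * (CR * 2 ^ (κ + ε / k)) ^ k * t ^ (k * κ + ε)) ∂(μ j) := by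
    refine norm_integral_le_of_norm_le ((hμ j).int.norm.mul_const _) ?_
    filter_upwards [(hμ j).supp] with z hz
    rw [norm_mul]
    exact mul_le_mul_of_nonneg_left (hpt z hz.1 hz.2) (norm_nonneg _)
  refine h2.trans (le_of_eq ?_)
  rw [integral_mul_const]
  unfold tm
  ring

theorem criterion (hR : 0 ≤ R) (hμ : ∀ j, Good (μ j) (w j) R) (hS : Slow μ w) (P : Polynomial ℂ)
    (hP : 0 < P.natDegree) {κ : ℝ} (hκ : 0 ≤ κ) :
    Exponent κ ↔ ∀ j, MeanExp (μ j) (w j) P (P.natDegree * κ) :=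
  ⟨fun h j => exp_to_means hR hμ P hP hκ h j, means_to_exp hR hμ hS P hP hκ⟩

/-- the local inequality for zeta itself -/
theorem local_zeta (hR : 0 ≤ R) (hμ : ∀ j, Good (μ j) (w j) R) (hS : Slow μ w) {ε : ℝ} (hε : 0 < ε) :
    ∃ T0 : ℝ, ∀ T : ℝ, T0 ≤ T → ∃ u : ℝ, |u| ≤ T ^ ε ∧
      ‖zl T‖ ≤ T ^ ε * (1 + ∑ j, ‖∫ z, w j z * riemannZeta (1 / 2 + ((T + u : ℝ) : ℂ) * I + z) ∂(μ j)‖) := by
  obtain ⟨η, hη⟩ : ∃ η : ℝ, η = min (ε / 8) (1 / 4) := ⟨_, rfl⟩
  have hη0 : 0 < η := by rw [hη]; positivity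
  have hη1 : η ≤ 1 / 4 := by rw [hη]; exact min_le_right _ _
  have hη2 : η ≤ ε / 8 := by rw [hη]; exact min_le_left _ _
  have hev := (local_ineq hR hμ hS Polynomial.X (by simp) hη0 hη1).and ((eventually_ge_atTop (1 : ℝ)).and
    (ev_const (η := ε / 2) (K := 3) (by linarith)))
  obtain ⟨T1, hT1⟩ := eventually_atTop.1 hev
  refine ⟨T1, fun T hT => ?_⟩
  obtain ⟨h1, h2, h3⟩ := hT1 T hT
  have hTp : 0 < T := by linarith
  by_contra hcon
  push Not at hcon
  have h0 := hcon 0 (by rw [abs_zero]; positivity)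
  have hTε : 0 < T ^ ε := by positivity
  have hTε1 : 1 ≤ T ^ ε := Real.one_le_rpow h2 hε.le
  set Z := ‖zl T‖ with hZ
  have hZT : T ^ ε < Z := by
    refine lt_of_le_of_lt ?_ h0
    have : 0 ≤ ∑ j, ‖∫ z, w j z * riemannZeta (1 / 2 + ((T + 0 : ℝ) : ℂ) * I + z) ∂(μ j)‖ :=
      Finset.sum_nonneg fun _ _ => norm_nonneg _
    nlinarith
  set H := Z / T ^ ε with hH
  have hH1 : 1 < H := by rw [hH, one_lt_div hTε]; exact hZT
  have h4 := h1 H (by linarith) (by
    intro j u hu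
    have hu2 : |u| ≤ T ^ ε := hu.trans (Real.rpow_le_rpow_of_exponent_le h2 (by linarith))
    have h5 := hcon u hu2
    have h6 : ‖wm (μ j) (w j) Polynomial.X (T + u)‖ ≤
        ∑ j, ‖∫ z, w j z * riemannZeta (1 / 2 + ((T + u : ℝ) : ℂ) * I + z) ∂(μ j)‖ := by
      unfold wm
      simp only [Polynomial.eval_X]
      exact Finset.single_le_sum (f := fun j => ‖∫ z, w j z * riemannZeta (1 / 2 + ((T + u : ℝ) : ℂ) * I + z) ∂(μ j)‖)
        (fun _ _ => norm_nonneg _) (Finset.mem_univ j)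
    refine h6.trans ?_
    rw [hH, le_div_iff₀ hTε]
    nlinarith) (by
    intro s _ _
    simp
    exact hH1.le)
  rw [Polynomial.natDegree_X, pow_one] at h4
  have h5 : T ^ (((1 : ℕ) + 2 : ℝ) * η) * (1 + H) ≤ T ^ (ε / 2) * (2 * H) := by
    have : T ^ (((1 : ℕ) + 2 : ℝ) * η) ≤ T ^ (ε / 2) :=
      Real.rpow_le_rpow_of_exponent_le h2 (by push_cast; linarith)
    exact mul_le_mul this (by linarith) (by linarith) (by positivity)
  have h6 : T ^ (ε / 2) * T ^ (ε / 2) = T ^ ε := by rw [← Real.rpow_add hTp]; congr 1; ring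
  have h7 : Z ≤ T ^ (ε / 2) * (2 * H) := h4.trans h5
  have h8 : T ^ (ε / 2) * (2 * H) = 2 * Z / T ^ (ε / 2) := by
    rw [hH, ← h6]
    have : T ^ (ε / 2) ≠ 0 := by positivity
    field_simp
  rw [h8, le_div_iff₀ (by positivity)] at h7
  have hZ0 : 0 < Z := by linarith
  nlinarith

end Pool.Agent.H60.WM
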