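import Mathlib

/-! Plancherel's identity for finite sums of Gaussians. -/

set_option autoImplicit false

open Complex MeasureTheory Finset

namespace Pool.Agent.H60.WM

variable {ι : Type*}

/-- `∑ c_k exp (- i z_k x - α x ^ 2)` -/
noncomputable def gs (S : Finset ι) (c z : ι → ℂ) (α : ℝ) (x : ℝ) : ℂ :=
  ∑ k ∈ S, c k * cexp (-(I * z k * x) - α * (x : ℂ) ^ 2)

/-- `∑ c_k exp (- (z_k - ξ) ^ 2 / (4 α))` -/
noncomputable def gt (S : Finset ι) (c z : ι → ℂ) (α : ℝ) (ξ : ℝ) : ℂ :=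
  ∑ k ∈ S, c k * cexp (-(z k - ξ) ^ 2 / (4 * α))

lemma gs_cont (S : Finset ι) (c z : ι → ℂ) (α : ℝ) : Continuous (gs S c z α) := by
  unfold gs; fun_prop

lemma gt_cont (S : Finset ι) (c z : ι → ℂ) (α : ℝ) : Continuous (gt S c z α) := by
  unfold gt; fun_prop

lemma term1 {α : ℝ} (hα : 0 < α) (z w : ℂ) :
    Integrable (fun x : ℝ => cexp (-(I * z * x) - α * (x : ℂ) ^ 2) *
      (starRingEnd ℂ) (cexp (-(I * w * x) - α * (x : ℂ) ^ 2))) ∧
    ∫ x : ℝ, cexp (-(I * z * x) - α * (x : ℂ) ^ 2) *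
      (starRingEnd ℂ) (cexp (-(I * w * x) - α * (x : ℂ) ^ 2)) =
      ((Real.pi / (2 * α) : ℝ) : ℂ) ^ (1 / 2 : ℂ) * cexp (-(z - (starRingEnd ℂ) w) ^ 2 / (8 * α)) := by
  have hb : (-(2 * α : ℂ)).re < 0 := by simp; exact hα
  have e : (fun x : ℝ => cexp (-(I * z * x) - α * (x : ℂ) ^ 2) *
      (starRingEnd ℂ) (cexp (-(I * w * x) - α * (x : ℂ) ^ 2))) =
      fun x : ℝ => cexp (-(2 * α : ℂ) * (x : ℂ) ^ 2 + (-(I * (z - (starRingEnd ℂ) w))) * x + 0) := by
    funext x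
    rw [← Complex.exp_conj, ← Complex.exp_add]
    congr 1
    simp only [map_sub, map_neg, map_mul, map_pow, conj_I, conj_ofReal]
    ring
  constructor
  · rw [e]; exact integrable_cexp_quadratic' hb _ _
  · rw [e, integral_cexp_quadratic hb]
    have h1 : (α : ℂ) ≠ 0 := by exact_mod_cast hα.ne'
    congr 1
    · congr 1
      push_cast
      simp
    · congr 1
      have : (-(I * (z - (starRingEnd ℂ) w))) ^ 2 = -(z - (starRingEnd ℂ) w) ^ 2 := by
        rw [neg_sq, mul_pow, I_sq]; ring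
      rw [this]
      field_simp
      ring

lemma term2 {α : ℝ} (hα : 0 < α) (z w : ℂ) :
    Integrable (fun x : ℝ => cexp (-(z - x) ^ 2 / (4 * α)) *
      (starRingEnd ℂ) (cexp (-(w - x) ^ 2 / (4 * α)))) ∧
    ∫ x : ℝ, cexp (-(z - x) ^ 2 / (4 * α)) * (starRingEnd ℂ) (cexp (-(w - x) ^ 2 / (4 * α))) =
      ((2 * Real.pi * α : ℝ) : ℂ) ^ (1 / 2 : ℂ) * cexp (-(z - (starRingEnd ℂ) w) ^ 2 / (8 * α)) := by
  have h1 : (α : ℂ) ≠ 0 := by exact_mod_cast hα.ne'
  have hb : (-(1 / (2 * α) : ℂ)).re < 0 := by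
    have : (-(1 / (2 * α) : ℂ)) = ((-(1 / (2 * α)) : ℝ) : ℂ) := by push_cast; ring
    rw [this, ofReal_re]
    have : 0 < 1 / (2 * α) := by positivity
    linarith
  have e : (fun x : ℝ => cexp (-(z - x) ^ 2 / (4 * α)) *
      (starRingEnd ℂ) (cexp (-(w - x) ^ 2 / (4 * α)))) =
      fun x : ℝ => cexp (-(1 / (2 * α) : ℂ) * (x : ℂ) ^ 2 + ((z + (starRingEnd ℂ) w) / (2 * α)) * x +
        (-(z ^ 2 + (starRingEnd ℂ) w ^ 2) / (4 * α))) := by
    funext x
    rw [← Complex.exp_conj, ← Complex.exp_add]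
    congr 1
    simp only [map_sub, map_neg, map_mul, map_pow, conj_ofReal, map_div₀, map_ofNat]
    field_simp
    ring
  constructor
  · rw [e]; exact integrable_cexp_quadratic' hb _ _
  · rw [e, integral_cexp_quadratic hb]
    congr 1
    · congr 1
      push_cast
      field_simp
    · congr 1
      field_simp
      ring

lemma norm_sq_sum (S : Finset ι) (f : ι → ℂ) :
    ((‖∑ k ∈ S, f k‖ ^ 2 : ℝ) : ℂ) = ∑ k ∈ S, ∑ l ∈ S, f k * (starRingEnd ℂ) (f l) := by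
  rw [ofReal_pow, ← Complex.mul_conj', map_sum, Finset.sum_mul_sum]

lemma gs_sq (S : Finset ι) (c z : ι → ℂ) {α : ℝ} (hα : 0 < α) :
    Integrable (fun x : ℝ => ‖gs S c z α x‖ ^ 2) ∧
    ((∫ x : ℝ, ‖gs S c z α x‖ ^ 2 : ℝ) : ℂ) = ∑ k ∈ S, ∑ l ∈ S, c k * (starRingEnd ℂ) (c l) *
      (((Real.pi / (2 * α) : ℝ) : ℂ) ^ (1 / 2 : ℂ) * cexp (-(z k - (starRingEnd ℂ) (z l)) ^ 2 / (8 * α))) := by
  have e : (fun x : ℝ => ((‖gs S c z α x‖ ^ 2 : ℝ) : ℂ)) = fun x : ℝ => ∑ k ∈ S, ∑ l ∈ S,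
      c k * (starRingEnd ℂ) (c l) * (cexp (-(I * z k * x) - α * (x : ℂ) ^ 2) *
      (starRingEnd ℂ) (cexp (-(I * z l * x) - α * (x : ℂ) ^ 2))) := by
    funext x
    unfold gs
    rw [norm_sq_sum]
    refine Finset.sum_congr rfl fun k _ => Finset.sum_congr rfl fun l _ => ?_
    rw [map_mul]; ring
  have hi : ∀ k l : ι, Integrable (fun x : ℝ => c k * (starRingEnd ℂ) (c l) *
      (cexp (-(I * z k * x) - α * (x : ℂ) ^ 2) *
      (starRingEnd ℂ) (cexp (-(I * z l * x) - α * (x : ℂ) ^ 2)))) := fun k l =>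
    (term1 hα (z k) (z l)).1.const_mul _
  constructor
  · have h : Integrable (fun x : ℝ => ((‖gs S c z α x‖ ^ 2 : ℝ) : ℂ)) := by
      rw [e]
      exact integrable_finsetSum _ fun k _ => integrable_finsetSum _ fun l _ => hi k l
    have := h.re
    simp only [RCLike.re_to_complex, Complex.ofReal_re] at this
    exact this
  · rw [← integral_complex_ofReal, e, integral_finsetSum _ fun k _ => integrable_finsetSum _ fun l _ => hi k l]
    refine Finset.sum_congr rfl fun k _ => ?_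
    rw [integral_finsetSum _ fun l _ => hi k l]
    refine Finset.sum_congr rfl fun l _ => ?_
    rw [integral_const_mul, (term1 hα (z k) (z l)).2]

lemma gt_sq (S : Finset ι) (c z : ι → ℂ) {α : ℝ} (hα : 0 < α) :
    Integrable (fun x : ℝ => ‖gt S c z α x‖ ^ 2) ∧
    ((∫ x : ℝ, ‖gt S c z α x‖ ^ 2 : ℝ) : ℂ) = ∑ k ∈ S, ∑ l ∈ S, c k * (starRingEnd ℂ) (c l) *
      (((2 * Real.pi * α : ℝ) : ℂ) ^ (1 / 2 : ℂ) * cexp (-(z k - (starRingEnd ℂ) (z l)) ^ 2 / (8 * α))) := by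
  have e : (fun x : ℝ => ((‖gt S c z α x‖ ^ 2 : ℝ) : ℂ)) = fun x : ℝ => ∑ k ∈ S, ∑ l ∈ S,
      c k * (starRingEnd ℂ) (c l) * (cexp (-(z k - x) ^ 2 / (4 * α)) *
      (starRingEnd ℂ) (cexp (-(z l - x) ^ 2 / (4 * α)))) := by
    funext x
    unfold gt
    rw [norm_sq_sum]
    refine Finset.sum_congr rfl fun k _ => Finset.sum_congr rfl fun l _ => ?_
    rw [map_mul]; ring
  have hi : ∀ k l : ι, Integrable (fun x : ℝ => c k * (starRingEnd ℂ) (c l) *
      (cexp (-(z k - x) ^ 2 / (4 * α)) * (starRingEnd ℂ) (cexp (-(z l - x) ^ 2 / (4 * α))))) := fun k l =>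
    (term2 hα (z k) (z l)).1.const_mul _
  constructor
  · have h : Integrable (fun x : ℝ => ((‖gt S c z α x‖ ^ 2 : ℝ) : ℂ)) := by
      rw [e]
      exact integrable_finsetSum _ fun k _ => integrable_finsetSum _ fun l _ => hi k l
    have := h.re
    simp only [RCLike.re_to_complex, Complex.ofReal_re] at this
    exact this
  · rw [← integral_complex_ofReal, e, integral_finsetSum _ fun k _ => integrable_finsetSum _ fun l _ => hi k l]
    refine Finset.sum_congr rfl fun k _ => ?_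
    rw [integral_finsetSum _ fun l _ => hi k l]
    refine Finset.sum_congr rfl fun l _ => ?_
    rw [integral_const_mul, (term2 hα (z k) (z l)).2]

/-- **Plancherel's identity** for finite sums of Gaussians -/
theorem planch (S : Finset ι) (c z : ι → ℂ) {α : ℝ} (hα : 0 < α) :
    ∫ ξ : ℝ, ‖gt S c z α ξ‖ ^ 2 = 2 * α * ∫ x : ℝ, ‖gs S c z α x‖ ^ 2 := by
  have h1 := (gs_sq S c z hα).2
  have h2 := (gt_sq S c z hα).2
  have h3 : ((2 * Real.pi * α : ℝ) : ℂ) ^ (1 / 2 : ℂ) =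
      2 * α * (((Real.pi / (2 * α) : ℝ) : ℂ) ^ (1 / 2 : ℂ)) := by
    have e1 : ((1 / 2 : ℂ)) = ((1 / 2 : ℝ) : ℂ) := by push_cast; ring
    rw [e1, ← ofReal_cpow (by positivity), ← ofReal_cpow (by positivity), ← Real.sqrt_eq_rpow,
      ← Real.sqrt_eq_rpow]
    have : √(2 * Real.pi * α) = 2 * α * √(Real.pi / (2 * α)) := by
      rw [Real.sqrt_eq_iff_mul_self_eq (by positivity) (by positivity)]
      symm
      have : √(Real.pi / (2 * α)) * √(Real.pi / (2 * α)) = Real.pi / (2 * α) :=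
        Real.mul_self_sqrt (by positivity)
      calc 2 * α * √(Real.pi / (2 * α)) * (2 * α * √(Real.pi / (2 * α)))
          = 4 * α ^ 2 * (√(Real.pi / (2 * α)) * √(Real.pi / (2 * α))) := by ring
        _ = 2 * Real.pi * α := by rw [this]; field_simp; ring
    rw [this]; push_cast; ring
  have : ((∫ ξ : ℝ, ‖gt S c z α ξ‖ ^ 2 : ℝ) : ℂ) = ((2 * α * ∫ x : ℝ, ‖gs S c z α x‖ ^ 2 : ℝ) : ℂ) := by
    rw [ofReal_mul, h1, h2, Finset.mul_sum]
    refine Finset.sum_congr rfl fun k _ => ?_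
    rw [Finset.mul_sum]
    refine Finset.sum_congr rfl fun l _ => ?_
    rw [h3]; push_cast; ring
  exact_mod_cast this

/-- the value at zero -/
theorem gt_zero (S : Finset ι) (c z : ι → ℂ) {α : ℝ} (hα : 0 < α) :
    Integrable (gt S c z α) ∧
    ∫ ξ : ℝ, gt S c z α ξ = ((4 * Real.pi * α : ℝ) : ℂ) ^ (1 / 2 : ℂ) * ∑ k ∈ S, c k := by
  have h1 : (α : ℂ) ≠ 0 := by exact_mod_cast hα.ne'
  have hb : (-(1 / (4 * α) : ℂ)).re < 0 := by
    have : (-(1 / (4 * α) : ℂ)) = ((-(1 / (4 * α)) : ℝ) : ℂ) := by push_cast; ring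
    rw [this, ofReal_re]
    have : 0 < 1 / (4 * α) := by positivity
    linarith
  have e : ∀ k : ι, (fun x : ℝ => cexp (-(z k - x) ^ 2 / (4 * α))) =
      fun x : ℝ => cexp (-(1 / (4 * α) : ℂ) * (x : ℂ) ^ 2 + (z k / (2 * α)) * x +
        (-(z k ^ 2) / (4 * α))) := by
    intro k
    funext x
    congr 1
    field_simp
    ring
  have hi : ∀ k : ι, Integrable (fun x : ℝ => cexp (-(z k - x) ^ 2 / (4 * α))) := by
    intro k; rw [e k]; exact integrable_cexp_quadratic' hb _ _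
  constructor
  · unfold gt
    exact integrable_finsetSum _ fun k _ => (hi k).const_mul _
  · unfold gt
    rw [integral_finsetSum _ fun k _ => (hi k).const_mul _, Finset.mul_sum]
    refine Finset.sum_congr rfl fun k _ => ?_
    rw [integral_const_mul, e k, integral_cexp_quadratic hb]
    have : -(z k ^ 2) / (4 * (α : ℂ)) - (z k / (2 * α)) ^ 2 / (4 * (-(1 / (4 * α)))) = 0 := by
      field_simp
      ring
    rw [this, Complex.exp_zero]
    have : (Real.pi / -(-(1 / (4 * α))) : ℂ) = ((4 * Real.pi * α : ℝ) : ℂ) := by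
      push_cast
      field_simp
    rw [this]; ring

end Pool.Agent.H60.WM
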