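import Pool.Agent.H60.WM.Step

/-! The iteration. -/

set_option autoImplicit false

open Complex MeasureTheory Finset

namespace Pool.Agent.H60.WM

variable {ι : Type*}

lemma tr_meas {μ : Measure ℂ} {w : ℂ → ℂ} {R : ℝ} (h : Good μ w R) (ν : Measure ℝ) [SFinite ν] :
    AEStronglyMeasurable (tr μ w) ν := by
  have := h.fin
  have h1 : AEStronglyMeasurable (fun p : ℝ × ℂ => w p.2 * cexp (-((p.1 : ℂ) * p.2))) (ν.prod μ) :=
    (h.int.aestronglyMeasurable.comp_snd).mul (Continuous.aestronglyMeasurable (by fun_prop))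
  exact h1.integral_prod_right'

theorem step (S : Finset ι) (c : ι → ℂ) (lam : ι → ℝ) {a b : ℝ} (ha : 2 ≤ a)
    (hlam : ∀ k ∈ S, a ≤ lam k ∧ lam k ≤ b)
    {α R : ℝ} (hα : 0 < α) (hR : α * R ^ 2 ≤ 1) (hR' : α * R ≤ 1) {m : ℕ} (μ : Fin m → Measure ℂ)
    (w : Fin m → ℂ → ℂ) (hμ : ∀ j, Good (μ j) (w j) R) {δ : ℝ} (hδ : 0 < δ)
    (hlow : ∀ ξ : ℝ, a - 1 ≤ ξ → ξ ≤ b + 1 → δ ^ 2 ≤ ∑ j, ‖tr (μ j) (w j) ξ‖ ^ 2) :
    NN S c lam α ≤ tiny (nb S c) α +
      2 / δ ^ 2 * (∑ j, NN S (fun k => c k * tr (μ j) (w j) (lam k)) lam α) +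
      (162 * R ^ 2 * (∑ j, tm (μ j) (w j) ^ 2) / δ ^ 2) * α * (NN S c lam (α / 4) + tiny (nb S c) (α / 4)) := by
  set J := Set.Icc (a - 1) (b + 1) with hJ
  have hJm : MeasurableSet J := measurableSet_Icc
  have hpt : ∀ ξ : ℝ, ‖gt S c (fun k => (lam k : ℂ)) α ξ‖ ^ 2 ≤
      J.indicator (fun ξ => 1 / δ ^ 2 * (∑ j, ‖tr (μ j) (w j) ξ * gt S c (fun k => (lam k : ℂ)) α ξ‖ ^ 2)) ξ +
      Real.exp (-(1 / (4 * α))) * nb S c * ∑ k ∈ S, ‖c k‖ * Real.exp (-(lam k - ξ) ^ 2 / (4 * α)) := by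
    intro ξ
    have hnn : 0 ≤ ∑ k ∈ S, ‖c k‖ * Real.exp (-(lam k - ξ) ^ 2 / (4 * α)) :=
      Finset.sum_nonneg fun k _ => by positivity
    have hnb := nb_nonneg S c
    by_cases hξ : ξ ∈ J
    · rw [Set.indicator_of_mem hξ]
      have h1 := hlow ξ hξ.1 hξ.2
      have h2 : ∑ j, ‖tr (μ j) (w j) ξ * gt S c (fun k => (lam k : ℂ)) α ξ‖ ^ 2 =
          (∑ j, ‖tr (μ j) (w j) ξ‖ ^ 2) * ‖gt S c (fun k => (lam k : ℂ)) α ξ‖ ^ 2 := by
        rw [Finset.sum_mul]
        refine Finset.sum_congr rfl fun j _ => ?_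
        rw [norm_mul, mul_pow]
      rw [h2]
      have h3 : 1 / δ ^ 2 * (δ ^ 2 * ‖gt S c (fun k => (lam k : ℂ)) α ξ‖ ^ 2) =
          ‖gt S c (fun k => (lam k : ℂ)) α ξ‖ ^ 2 := by field_simp
      have h4 : 1 / δ ^ 2 * (δ ^ 2 * ‖gt S c (fun k => (lam k : ℂ)) α ξ‖ ^ 2) ≤
          1 / δ ^ 2 * ((∑ j, ‖tr (μ j) (w j) ξ‖ ^ 2) * ‖gt S c (fun k => (lam k : ℂ)) α ξ‖ ^ 2) := by
        gcongr
      have h5 : 0 ≤ Real.exp (-(1 / (4 * α))) * nb S c *
          ∑ k ∈ S, ‖c k‖ * Real.exp (-(lam k - ξ) ^ 2 / (4 * α)) := by positivity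
      linarith
    · rw [Set.indicator_of_notMem hξ, zero_add]
      have h1 : ∀ k ∈ S, 1 ≤ (lam k - ξ) ^ 2 := by
        intro k hk
        have h2 := hlam k hk
        rw [hJ, Set.mem_Icc, not_and_or, not_le, not_le] at hξ
        rcases hξ with h | h
        · nlinarith [h2.1]
        · nlinarith [h2.2]
      have h2 : ‖gt S c (fun k => (lam k : ℂ)) α ξ‖ ^ 2 ≤ dom S c lam α ξ ^ 2 :=
        pow_le_pow_left₀ (norm_nonneg _) (gt_le_dom S c lam α ξ) 2
      have h3 := dom_sq_le S c lam (α := α) ξ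
      have h4 : ∑ k ∈ S, ‖c k‖ * Real.exp (-(lam k - ξ) ^ 2 / (4 * α)) ^ 2 ≤
          Real.exp (-(1 / (4 * α))) * ∑ k ∈ S, ‖c k‖ * Real.exp (-(lam k - ξ) ^ 2 / (4 * α)) := by
        rw [Finset.mul_sum]
        refine Finset.sum_le_sum fun k hk => ?_
        have h5 : Real.exp (-(lam k - ξ) ^ 2 / (4 * α)) ≤ Real.exp (-(1 / (4 * α))) := by
          apply Real.exp_le_exp.2
          rw [neg_div]
          apply neg_le_neg
          exact div_le_div_of_nonneg_right (h1 k hk) (by positivity)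
        have h6 := Real.exp_pos (-(lam k - ξ) ^ 2 / (4 * α))
        calc ‖c k‖ * Real.exp (-(lam k - ξ) ^ 2 / (4 * α)) ^ 2
            = ‖c k‖ * (Real.exp (-(lam k - ξ) ^ 2 / (4 * α)) * Real.exp (-(lam k - ξ) ^ 2 / (4 * α))) := by
              rw [sq]
          _ ≤ ‖c k‖ * (Real.exp (-(1 / (4 * α))) * Real.exp (-(lam k - ξ) ^ 2 / (4 * α))) := by gcongr
          _ = _ := by ring
      have h5 : (∑ k ∈ S, ‖c k‖) * ∑ k ∈ S, ‖c k‖ * Real.exp (-(lam k - ξ) ^ 2 / (4 * α)) ^ 2 ≤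
          Real.exp (-(1 / (4 * α))) * nb S c * ∑ k ∈ S, ‖c k‖ * Real.exp (-(lam k - ξ) ^ 2 / (4 * α)) := by
        have := mul_le_mul_of_nonneg_left h4 hnb
        unfold nb at this ⊢
        linarith
      linarith
  have hint0 := (gt_sq S c (fun k => (lam k : ℂ)) hα).1
  have hint1 : ∀ j, IntegrableOn (fun ξ : ℝ => ‖tr (μ j) (w j) ξ * gt S c (fun k => (lam k : ℂ)) α ξ‖ ^ 2) J := by
    intro j
    refine (hint0.integrableOn.const_mul (tm (μ j) (w j) ^ 2)).mono' ?_ ?_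
    · exact (((tr_meas (hμ j) _).mul (gt_cont S c _ α).aestronglyMeasurable).norm.pow 2)
    · filter_upwards [ae_restrict_mem hJm] with ξ hξ
      rw [Real.norm_eq_abs, abs_of_nonneg (by positivity), norm_mul, mul_pow]
      exact mul_le_mul_of_nonneg_right (pow_le_pow_left₀ (norm_nonneg _)
        (tr_norm (hμ j) (by linarith [hξ.1])) 2) (by positivity)
  have hint1' : IntegrableOn (fun ξ => 1 / δ ^ 2 * (∑ j, ‖tr (μ j) (w j) ξ *
      gt S c (fun k => (lam k : ℂ)) α ξ‖ ^ 2)) J :=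
    (integrable_finsetSum _ fun j _ => hint1 j).const_mul (1 / δ ^ 2)
  have hint2 : Integrable (fun ξ : ℝ => ∑ k ∈ S, ‖c k‖ * Real.exp (-(lam k - ξ) ^ 2 / (4 * α))) :=
    integrable_finsetSum _ fun k _ => (gauss_int hα).1.const_mul _
  have hI := integral_mono_of_nonneg (Filter.Eventually.of_forall fun ξ => by positivity)
    (((integrable_indicator_iff hJm).2 hint1').add
      (hint2.const_mul (Real.exp (-(1 / (4 * α))) * nb S c))) (Filter.Eventually.of_forall hpt)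
  simp only [Pi.add_apply] at hI
  have hA : ∫ ξ : ℝ, (J.indicator (fun ξ => 1 / δ ^ 2 * (∑ j, ‖tr (μ j) (w j) ξ * gt S c (fun k => (lam k : ℂ)) α ξ‖ ^ 2)) ξ +
      Real.exp (-(1 / (4 * α))) * nb S c * ∑ k ∈ S, ‖c k‖ * Real.exp (-(lam k - ξ) ^ 2 / (4 * α))) =
      1 / δ ^ 2 * (∑ j, ∫ ξ in J, ‖tr (μ j) (w j) ξ * gt S c (fun k => (lam k : ℂ)) α ξ‖ ^ 2) +
      Real.exp (-(1 / (4 * α))) * nb S c * (nb S c * √(Real.pi * (4 * α))) := by
    rw [integral_add ((integrable_indicator_iff hJm).2 hint1') (hint2.const_mul _),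
      integral_indicator hJm, integral_const_mul, integral_const_mul, integral_finsetSum, integral_finsetSum]
    · congr 2
      unfold nb
      rw [Finset.sum_mul]
      refine Finset.sum_congr rfl fun k _ => ?_
      rw [integral_const_mul, (gauss_int hα).2]
    · exact fun k _ => (gauss_int hα).1.const_mul _
    · exact fun j _ => hint1 j
  rw [hA, planch S c _ hα] at hI
  have hB : ∑ j, ∫ ξ in J, ‖tr (μ j) (w j) ξ * gt S c (fun k => (lam k : ℂ)) α ξ‖ ^ 2 ≤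
      4 * α * (∑ j, NN S (fun k => c k * tr (μ j) (w j) (lam k)) lam α) +
      4 * α * ((∑ j, tm (μ j) (w j) ^ 2) * (81 * α * R ^ 2 * (NN S c lam (α / 4) + tiny (nb S c) (α / 4)))) := by
    rw [Finset.mul_sum, Finset.sum_mul, Finset.mul_sum, ← Finset.sum_add_distrib]
    exact Finset.sum_le_sum fun j _ => comm S c lam hα hR hR' (by linarith)
      (fun k hk => by linarith [(hlam k hk).1]) (hμ j)
  have hC := mul_le_mul_of_nonneg_left hB (by positivity : 0 ≤ 1 / δ ^ 2)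
  have hD : 2 * α * NN S c lam α ≤ 1 / δ ^ 2 * (4 * α * (∑ j, NN S (fun k => c k * tr (μ j) (w j) (lam k)) lam α) +
      4 * α * ((∑ j, tm (μ j) (w j) ^ 2) * (81 * α * R ^ 2 * (NN S c lam (α / 4) + tiny (nb S c) (α / 4))))) +
      Real.exp (-(1 / (4 * α))) * nb S c * (nb S c * √(Real.pi * (4 * α))) := by
    have : 2 * α * NN S c lam α = 2 * α * ∫ x : ℝ, ‖gs S c (fun k => (lam k : ℂ)) α x‖ ^ 2 := rfl
    rw [this]
    linarith
  have hE : NN S c lam α ≤ (1 / δ ^ 2 * (4 * α * (∑ j, NN S (fun k => c k * tr (μ j) (w j) (lam k)) lam α) +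
      4 * α * ((∑ j, tm (μ j) (w j) ^ 2) * (81 * α * R ^ 2 * (NN S c lam (α / 4) + tiny (nb S c) (α / 4))))) +
      Real.exp (-(1 / (4 * α))) * nb S c * (nb S c * √(Real.pi * (4 * α)))) / (2 * α) := by
    rw [le_div_iff₀ (by positivity)]; linarith
  refine hE.trans (le_of_eq ?_)
  have : tiny (nb S c) α = nb S c ^ 2 * (√(Real.pi * (4 * α)) / (2 * α)) * Real.exp (-(1 / (4 * α))) := rfl
  rw [this]
  field_simp
  ring

/-- value at zero -/
theorem value (S : Finset ι) (c : ι → ℂ) (lam : ι → ℝ) {a b : ℝ} (hab : a ≤ b)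
    (hlam : ∀ k ∈ S, a ≤ lam k ∧ lam k ≤ b) {α : ℝ} (hα : 0 < α) :
    ‖∑ k ∈ S, c k‖ ^ 2 ≤ (b - a + 2) * NN S c lam α + 4 * nb S c ^ 2 * Real.exp (-(1 / (4 * α))) := by
  set Z := ‖∑ k ∈ S, c k‖ with hZ
  have hint0 := (gt_sq S c (fun k => (lam k : ℂ)) hα).1
  have h8 := fun k : ι => gauss_int (a := lam k) (α := 2 * α) (by positivity)
  have hint2 : Integrable (fun ξ : ℝ => ∑ k ∈ S, ‖c k‖ * Real.exp (-(lam k - ξ) ^ 2 / (4 * (2 * α)))) :=
    integrable_finsetSum _ fun k _ => (h8 k).1.const_mul _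
  have hpt : ∀ s : ℝ, 0 < s → ∀ ξ : ℝ, ‖gt S c (fun k => (lam k : ℂ)) α ξ‖ ≤
      ((Set.Icc (a - 1) (b + 1)).indicator (fun _ => s / 2) ξ + 1 / (2 * s) * ‖gt S c (fun k => (lam k : ℂ)) α ξ‖ ^ 2) +
      Real.exp (-(1 / (8 * α))) * ∑ k ∈ S, ‖c k‖ * Real.exp (-(lam k - ξ) ^ 2 / (4 * (2 * α))) := by
    intro s hs ξ
    have hnn : 0 ≤ Real.exp (-(1 / (8 * α))) * ∑ k ∈ S, ‖c k‖ * Real.exp (-(lam k - ξ) ^ 2 / (4 * (2 * α))) := by
      have : 0 ≤ ∑ k ∈ S, ‖c k‖ * Real.exp (-(lam k - ξ) ^ 2 / (4 * (2 * α))) :=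
        Finset.sum_nonneg fun k _ => by positivity
      positivity
    by_cases hξ : ξ ∈ Set.Icc (a - 1) (b + 1)
    · rw [Set.indicator_of_mem hξ]
      set q := ‖gt S c (fun k => (lam k : ℂ)) α ξ‖
      have : s / 2 + 1 / (2 * s) * q ^ 2 - q = (s - q) ^ 2 / (2 * s) := by field_simp; ring
      have h2 : 0 ≤ (s - q) ^ 2 / (2 * s) := by positivity
      linarith
    · rw [Set.indicator_of_notMem hξ]
      have h1 : ∀ k ∈ S, 1 ≤ (lam k - ξ) ^ 2 := by
        intro k hk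
        have h2 := hlam k hk
        rw [Set.mem_Icc, not_and_or, not_le, not_le] at hξ
        rcases hξ with h | h
        · nlinarith [h2.1]
        · nlinarith [h2.2]
      have h2 : dom S c lam α ξ ≤ Real.exp (-(1 / (8 * α))) *
          ∑ k ∈ S, ‖c k‖ * Real.exp (-(lam k - ξ) ^ 2 / (4 * (2 * α))) := by
        unfold dom
        rw [Finset.mul_sum]
        refine Finset.sum_le_sum fun k hk => ?_
        have h3 : Real.exp (-(lam k - ξ) ^ 2 / (4 * α)) ≤ Real.exp (-(1 / (8 * α))) *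
            Real.exp (-(lam k - ξ) ^ 2 / (4 * (2 * α))) := by
          rw [← Real.exp_add]
          apply Real.exp_le_exp.2
          have h4 : -(lam k - ξ) ^ 2 / (4 * α) = -(lam k - ξ) ^ 2 / (8 * α) + -(lam k - ξ) ^ 2 / (4 * (2 * α)) := by
            field_simp; ring
          rw [h4]
          have h5 : -(lam k - ξ) ^ 2 / (8 * α) ≤ -(1 / (8 * α)) := by
            rw [neg_div]
            apply neg_le_neg
            exact div_le_div_of_nonneg_right (h1 k hk) (by positivity)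
          linarith
        calc _ ≤ ‖c k‖ * (Real.exp (-(1 / (8 * α))) * Real.exp (-(lam k - ξ) ^ 2 / (4 * (2 * α)))) :=
              mul_le_mul_of_nonneg_left h3 (norm_nonneg _)
          _ = _ := by ring
      have h3 := gt_le_dom S c lam α ξ
      have h4 : 0 ≤ 1 / (2 * s) * ‖gt S c (fun k => (lam k : ℂ)) α ξ‖ ^ 2 := by positivity
      linarith
  have hind : ∀ s : ℝ, Integrable ((Set.Icc (a - 1) (b + 1)).indicator (fun _ : ℝ => s / 2)) := by
    intro s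
    rw [integrable_indicator_iff measurableSet_Icc]
    exact integrableOn_const (by simp [Real.volume_Icc])
  have hmain : ∀ s : ℝ, 0 < s → √(4 * Real.pi * α) * Z ≤ s * (b - a + 2) / 2 + (2 * α * NN S c lam α) / (2 * s) +
      Real.exp (-(1 / (8 * α))) * (nb S c * √(8 * Real.pi * α)) := by
    intro s hs
    have h1 := (gt_zero S c (fun k => (lam k : ℂ)) hα)
    have h2 : √(4 * Real.pi * α) * Z = ‖∫ ξ : ℝ, gt S c (fun k => (lam k : ℂ)) α ξ‖ := by
      rw [h1.2, norm_mul]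
      congr 1
      have e1 : ((1 / 2 : ℂ)) = ((1 / 2 : ℝ) : ℂ) := by push_cast; ring
      rw [e1, ← ofReal_cpow (by positivity), ← Real.sqrt_eq_rpow, norm_real, Real.norm_eq_abs,
        abs_of_nonneg (Real.sqrt_nonneg _)]
    rw [h2]
    refine (norm_integral_le_of_norm_le (((hind s).add (hint0.const_mul (1 / (2 * s)))).add
      (hint2.const_mul _)) (Filter.Eventually.of_forall (hpt s hs))).trans (le_of_eq ?_)
    simp only [Pi.add_apply]
    have h3 : Integrable (fun ξ : ℝ => (Set.Icc (a - 1) (b + 1)).indicator (fun _ => s / 2) ξ +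
        1 / (2 * s) * ‖gt S c (fun k => (lam k : ℂ)) α ξ‖ ^ 2) := (hind s).add (hint0.const_mul (1 / (2 * s)))
    rw [integral_add h3 (hint2.const_mul _), integral_add (hind s) (hint0.const_mul _), integral_const_mul,
      integral_const_mul, integral_indicator measurableSet_Icc, planch S c _ hα, integral_finsetSum]
    · have h4 : ∫ ξ in Set.Icc (a - 1) (b + 1), s / 2 = s * (b - a + 2) / 2 := by
        rw [setIntegral_const, Measure.real, Real.volume_Icc, ENNReal.toReal_ofReal (by linarith), smul_eq_mul]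
        ring
      have h5 : ∑ k ∈ S, ∫ ξ : ℝ, ‖c k‖ * Real.exp (-(lam k - ξ) ^ 2 / (4 * (2 * α))) = nb S c * √(8 * Real.pi * α) := by
        unfold nb
        rw [Finset.sum_mul]
        refine Finset.sum_congr rfl fun k _ => ?_
        rw [integral_const_mul, (h8 k).2]
        congr 2; ring
      rw [h4, h5]
      unfold NN
      ring
    · exact fun k _ => (h8 k).1.const_mul _
  set X := √(4 * Real.pi * α) * Z - Real.exp (-(1 / (8 * α))) * (nb S c * √(8 * Real.pi * α)) with hX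
  have hZ0 : 0 ≤ Z := norm_nonneg _
  have hN0 := NN_nonneg S c lam α
  have hB0 := nb_nonneg S c
  have hsq4 : √(4 * Real.pi * α) ^ 2 = 4 * Real.pi * α := Real.sq_sqrt (by positivity)
  have hsq8 : √(8 * Real.pi * α) ^ 2 = 8 * Real.pi * α := Real.sq_sqrt (by positivity)
  have hexp2 : Real.exp (-(1 / (8 * α))) ^ 2 = Real.exp (-(1 / (4 * α))) := by
    rw [← Real.exp_nat_mul]; congr 1; push_cast; field_simp; ring
  have hXle : X ≤ max X 0 := le_max_left _ _
  have hX2 : (max X 0) ^ 2 ≤ (b - a + 2) * (2 * α * NN S c lam α) := by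
    apply cs_aux (le_max_right _ _) (by linarith)
    intro s hs
    refine max_le ?_ ?_
    · have := hmain s hs; linarith
    · have : 0 ≤ b - a + 2 := by linarith
      positivity
  have h1 : √(4 * Real.pi * α) * Z ≤ max X 0 + Real.exp (-(1 / (8 * α))) * (nb S c * √(8 * Real.pi * α)) := by
    linarith
  have h2 : (√(4 * Real.pi * α) * Z) ^ 2 ≤
      2 * (max X 0) ^ 2 + 2 * (Real.exp (-(1 / (8 * α))) * (nb S c * √(8 * Real.pi * α))) ^ 2 := by
    have h3 := pow_le_pow_left₀ (by positivity) h1 2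
    nlinarith [sq_nonneg (max X 0 - Real.exp (-(1 / (8 * α))) * (nb S c * √(8 * Real.pi * α)))]
  have h3 : (Real.exp (-(1 / (8 * α))) * (nb S c * √(8 * Real.pi * α))) ^ 2 =
      Real.exp (-(1 / (4 * α))) * nb S c ^ 2 * (8 * Real.pi * α) := by
    rw [mul_pow, mul_pow, hexp2, hsq8]; ring
  have h4 : (√(4 * Real.pi * α) * Z) ^ 2 = 4 * Real.pi * α * Z ^ 2 := by rw [mul_pow, hsq4]
  rw [h3, h4] at h2
  have h5 : 4 * Real.pi * α * Z ^ 2 ≤ 4 * α * ((b - a + 2) * NN S c lam α) +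
      4 * Real.pi * α * (4 * nb S c ^ 2 * Real.exp (-(1 / (4 * α)))) := by nlinarith
  have h6 : 4 * α * ((b - a + 2) * NN S c lam α) ≤ 4 * Real.pi * α * ((b - a + 2) * NN S c lam α) := by
    have h7 : 0 ≤ (b - a + 2) * NN S c lam α := mul_nonneg (by linarith) hN0
    have h8 : 1 ≤ Real.pi := by linarith [Real.pi_gt_three]
    have : 4 * α * 1 ≤ 4 * α * Real.pi := mul_le_mul_of_nonneg_left h8 (by positivity)
    nlinarith
  have h9 : 4 * Real.pi * α * Z ^ 2 ≤ 4 * Real.pi * α * ((b - a + 2) * NN S c lam α + 4 * nb S c ^ 2 * Real.exp (-(1 / (4 * α)))) := by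
    linarith
  exact le_of_mul_le_mul_left h9 (by positivity)

lemma iter_aux {N : ℕ → ℝ} {E θ : ℝ} (hE : 0 ≤ E) (hθ0 : 0 ≤ θ) (hθ : θ ≤ 1 / 2) :
    ∀ r : ℕ, (∀ i < r, N i ≤ E + θ * N (i + 1)) → N 0 ≤ E * (2 - 2 * θ ^ r) + θ ^ r * N r := by
  intro r
  induction r with
  | zero =>
    intro _
    simp
  | succ r ih =>
    intro h
    have h2 := ih fun i hi => h i (by omega)
    have h3 := h r (by omega)
    have hp : 0 ≤ θ ^ r := by positivity
    have h4 : θ ^ r * N r ≤ θ ^ r * (E + θ * N (r + 1)) := mul_le_mul_of_nonneg_left h3 hp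
    have h5 : θ ^ (r + 1) = θ ^ r * θ := pow_succ _ _
    have h6 : θ ^ r * θ ≤ θ ^ r * (1 / 2) := mul_le_mul_of_nonneg_left hθ hp
    have h7 := mul_le_mul_of_nonneg_left h6 hE
    rw [h5]
    nlinarith

end Pool.Agent.H60.WM
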