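import Pool.Agent.H60.WM.Gauss

/-! The basic inequality. -/

set_option autoImplicit false

open Complex MeasureTheory Finset

namespace Pool.Agent.H60.WM

variable {ι : Type*}

/-- trigonometric polynomial, at a complex point -/
noncomputable def tp (S : Finset ι) (c : ι → ℂ) (lam : ι → ℝ) (x : ℂ) : ℂ :=
  ∑ k ∈ S, c k * cexp (-(I * lam k * x))

/-- Laplace transform of the measure `w dμ` on the complex plane -/
noncomputable def tr (μ : Measure ℂ) (w : ℂ → ℂ) (ξ : ℝ) : ℂ := ∫ z, w z * cexp (-(ξ * z)) ∂μ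

/-- weighted cauchy schwarz, elementary form -/
lemma cs_aux {X A B : ℝ} (hX : 0 ≤ X) (hA : 0 ≤ A)
    (h : ∀ s : ℝ, 0 < s → X ≤ s * A / 2 + B / (2 * s)) : X ^ 2 ≤ A * B := by
  rcases hX.eq_or_lt with h0 | h0
  · rw [← h0]
    have hB : 0 ≤ B := by
      by_contra hB
      push Not at hB
      rcases hA.eq_or_lt with hA0 | hA0
      · have := h 1 one_pos
        rw [← hA0] at this; linarith
      · have hs : 0 < -B / (2 * A) + 0 := by
          have : 0 < -B / (2 * A) := div_pos (by linarith) (by linarith)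
          linarith
        obtain ⟨s, hs0, hs1⟩ : ∃ s : ℝ, 0 < s ∧ s ^ 2 * A < -B := by
          refine ⟨min 1 (-B / (2 * A)), lt_min one_pos (by linarith), ?_⟩
          have h1 : min 1 (-B / (2 * A)) ≤ 1 := min_le_left _ _
          have h2 : min 1 (-B / (2 * A)) ≤ -B / (2 * A) := min_le_right _ _
          have h3 : 0 < min 1 (-B / (2 * A)) := lt_min one_pos (by linarith)
          calc (min 1 (-B / (2 * A))) ^ 2 * A ≤ (1 * (-B / (2 * A))) * A := by
                refine mul_le_mul_of_nonneg_right ?_ hA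
                rw [sq]; exact mul_le_mul h1 h2 h3.le zero_le_one
            _ = -B / 2 := by field_simp
            _ < -B := by linarith
        have h4 := h s hs0
        have h5 : s * A / 2 + B / (2 * s) < 0 := by
          have : s * A / 2 + B / (2 * s) = (s ^ 2 * A + B) / (2 * s) := by field_simp
          rw [this]
          exact div_neg_of_neg_of_pos (by linarith) (by linarith)
        linarith
    rw [zero_pow two_ne_zero]
    exact mul_nonneg hA hB
  · rcases hA.eq_or_lt with hA0 | hA0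
    · exfalso
      rw [← hA0] at h
      have h1 := h (max 1 (B / X)) (lt_max_of_lt_left one_pos)
      have h2 : 0 < max 1 (B / X) := lt_max_of_lt_left one_pos
      have h3 : B / X ≤ max 1 (B / X) := le_max_right _ _
      have h4 : B ≤ max 1 (B / X) * X := by rwa [div_le_iff₀ h0] at h3
      have h5 : B / (2 * max 1 (B / X)) ≤ X / 2 := by
        rw [div_le_iff₀ (by linarith)]; nlinarith
      linarith
    · have h1 := h (X / A) (by positivity)
      have h2 : X / A * A / 2 = X / 2 := by field_simp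
      have h3 : B / (2 * (X / A)) = A * B / (2 * X) := by field_simp
      rw [h2, h3] at h1
      have h4 : X / 2 ≤ A * B / (2 * X) := by linarith
      rw [le_div_iff₀ (by linarith)] at h4
      nlinarith

/-- Cauchy-Schwarz with the weight `‖w‖` -/
lemma cs_int {α : Type*} [MeasurableSpace α] (μ : Measure α) {w Q : α → ℂ} (hw : Integrable w μ)
    (hQ : Integrable (fun v => ‖w v‖ * ‖Q v‖ ^ 2) μ) :
    ‖∫ v, w v * Q v ∂μ‖ ^ 2 ≤ (∫ v, ‖w v‖ ∂μ) * ∫ v, ‖w v‖ * ‖Q v‖ ^ 2 ∂μ := by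
  apply cs_aux (norm_nonneg _) (integral_nonneg fun _ => norm_nonneg _)
  intro s hs
  calc ‖∫ v, w v * Q v ∂μ‖ ≤ ∫ v, (s / 2 * ‖w v‖ + 1 / (2 * s) * (‖w v‖ * ‖Q v‖ ^ 2)) ∂μ := by
        refine norm_integral_le_of_norm_le ((hw.norm.const_mul _).add (hQ.const_mul _)) ?_
        refine Filter.Eventually.of_forall fun v => ?_
        rw [norm_mul]
        have h1 : ‖Q v‖ ≤ s / 2 + 1 / (2 * s) * ‖Q v‖ ^ 2 := by
          have : s / 2 + 1 / (2 * s) * ‖Q v‖ ^ 2 - ‖Q v‖ = (s - ‖Q v‖) ^ 2 / (2 * s) := by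
            field_simp; ring
          have h2 : 0 ≤ (s - ‖Q v‖) ^ 2 / (2 * s) := by positivity
          linarith
        calc ‖w v‖ * ‖Q v‖ ≤ ‖w v‖ * (s / 2 + 1 / (2 * s) * ‖Q v‖ ^ 2) :=
              mul_le_mul_of_nonneg_left h1 (norm_nonneg _)
          _ = _ := by ring
    _ = s * (∫ v, ‖w v‖ ∂μ) / 2 + (∫ v, ‖w v‖ * ‖Q v‖ ^ 2 ∂μ) / (2 * s) := by
        rw [integral_add (hw.norm.const_mul _) (hQ.const_mul _), integral_const_mul, integral_const_mul]
        ring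

/-- difference of Gaussians; `x = X - u` -/
lemma gauss_diff {α X : ℝ} {v : ℂ} (hα : 0 ≤ α) (hv : α * ‖v‖ ^ 2 ≤ 1) :
    ‖cexp (-(α * ((X - v.re : ℝ) : ℂ) ^ 2)) - cexp (-(α * (((X - v.re : ℝ) : ℂ) + v) ^ 2))‖ ^ 2 ≤
      81 * α * ‖v‖ ^ 2 * Real.exp (-(α * X ^ 2 / 2)) := by
  set n := ‖v‖ with hn
  have hn0 : 0 ≤ n := norm_nonneg _
  have hre : v.re ^ 2 ≤ n ^ 2 := by
    rw [← sq_abs v.re]; exact pow_le_pow_left₀ (abs_nonneg _) (Complex.abs_re_le_norm v) 2
  have him : v.im ^ 2 ≤ n ^ 2 := by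
    rw [← sq_abs v.im]; exact pow_le_pow_left₀ (abs_nonneg _) (Complex.abs_im_le_norm v) 2
  set A : ℂ := (α * ((X - v.re : ℝ) : ℂ) ^ 2) with hA
  set B : ℂ := (α * (((X - v.re : ℝ) : ℂ) + v) ^ 2) with hB
  have hAre : A.re = α * (X - v.re) ^ 2 := by
    have : A = ((α * (X - v.re) ^ 2 : ℝ) : ℂ) := by rw [hA]; push_cast; ring
    rw [this, ofReal_re]
  have hxv : (((X - v.re : ℝ) : ℂ) + v) = (X : ℂ) + (v.im : ℂ) * I := by
    apply Complex.ext <;> simp
  have hBre : B.re = α * (X ^ 2 - v.im ^ 2) := by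
    rw [hB, hxv]
    have : (α : ℂ) * ((X : ℂ) + (v.im : ℂ) * I) ^ 2 = ((α * (X ^ 2 - v.im ^ 2) : ℝ) : ℂ) +
        ((α * (2 * X * v.im) : ℝ) : ℂ) * I := by
      push_cast
      linear_combination ((α : ℂ) * (v.im : ℂ) ^ 2) * I_sq
    rw [this, add_re, ofReal_re, mul_re, I_re, ofReal_im, I_im]; ring
  have hAm : α * X ^ 2 / 2 - 1 ≤ A.re := by
    rw [hAre]
    nlinarith [mul_nonneg hα (sq_nonneg (X - 2 * v.re)), mul_le_mul_of_nonneg_left hre hα]
  have hBm : α * X ^ 2 / 2 - 1 ≤ B.re := by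
    rw [hBre]
    nlinarith [mul_nonneg hα (sq_nonneg X), mul_le_mul_of_nonneg_left him hα]
  have hdiff : ‖B - A‖ ^ 2 ≤ α * n ^ 2 * (8 * (α * X ^ 2) + 2) := by
    have e1 : B - A = α * (v * (2 * X - (starRingEnd ℂ) v)) := by
      have h1 : (v.re : ℂ) + v.im * I = v := Complex.re_add_im v
      have h2 : (starRingEnd ℂ) v = (v.re : ℂ) - v.im * I := by
        apply Complex.ext <;> simp
      rw [hA, hB, hxv, h2]
      have h3 : (v : ℂ) = (v.re : ℂ) + v.im * I := h1.symm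
      push_cast
      calc (α : ℂ) * ((X : ℂ) + v.im * I) ^ 2 - α * ((X : ℂ) - v.re) ^ 2
          = α * (((v.re : ℂ) + v.im * I) * (2 * X - ((v.re : ℂ) - v.im * I))) := by ring
        _ = _ := by rw [h1]
    rw [e1, norm_mul, norm_mul, norm_real, Real.norm_eq_abs, abs_of_nonneg hα, ← hn]
    have e2 : ‖2 * (X : ℂ) - (starRingEnd ℂ) v‖ ≤ 2 * |X| + n := by
      refine (norm_sub_le _ _).trans (add_le_add ?_ ?_)
      · rw [norm_mul, norm_real, Real.norm_eq_abs]; norm_num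
      · rw [Complex.norm_conj]
    have e3 : (2 * |X| + n) ^ 2 ≤ 8 * X ^ 2 + 2 * n ^ 2 := by
      nlinarith [sq_nonneg (2 * |X| - n), sq_abs X]
    have e4 : ‖2 * (X : ℂ) - (starRingEnd ℂ) v‖ ^ 2 ≤ 8 * X ^ 2 + 2 * n ^ 2 :=
      (pow_le_pow_left₀ (norm_nonneg _) e2 2).trans e3
    calc (α * (n * ‖2 * (X : ℂ) - (starRingEnd ℂ) v‖)) ^ 2
        = α * n ^ 2 * (α * ‖2 * (X : ℂ) - (starRingEnd ℂ) v‖ ^ 2) := by ring
      _ ≤ α * n ^ 2 * (α * (8 * X ^ 2 + 2 * n ^ 2)) := by gcongr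
      _ ≤ α * n ^ 2 * (8 * (α * X ^ 2) + 2) := by
        refine mul_le_mul_of_nonneg_left ?_ (by positivity)
        linarith
  have key : ‖cexp (-A) - cexp (-B)‖ ≤ Real.exp (1 - α * X ^ 2 / 2) * ‖B - A‖ := by
    have hconv : Convex ℝ {s : ℂ | α * X ^ 2 / 2 - 1 ≤ s.re} := convex_halfSpace_re_ge _
    have h := hconv.norm_image_sub_le_of_norm_hasDerivWithin_le (𝕜 := ℂ) (f := fun s : ℂ => cexp (-s))
      (f' := fun s => -cexp (-s)) (C := Real.exp (1 - α * X ^ 2 / 2)) (x := A) (y := B)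
      (fun s _ => by
        have h1 : HasDerivAt (fun s : ℂ => cexp (-s)) (cexp (-s) * (-1)) s :=
          ((hasDerivAt_id s).neg).cexp
        have h2 : cexp (-s) * (-1) = -cexp (-s) := by ring
        rw [h2] at h1
        exact h1.hasDerivWithinAt)
      (fun s hs => by
        rw [norm_neg, Complex.norm_exp]
        apply Real.exp_le_exp.2
        have : α * X ^ 2 / 2 - 1 ≤ s.re := hs
        rw [neg_re]; linarith) hAm hBm
    rw [norm_sub_rev]
    exact h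
  have h2 : ‖cexp (-A) - cexp (-B)‖ ^ 2 ≤ Real.exp (1 - α * X ^ 2 / 2) ^ 2 * ‖B - A‖ ^ 2 := by
    rw [← mul_pow]
    exact pow_le_pow_left₀ (norm_nonneg _) key 2
  refine h2.trans ?_
  have h3 : Real.exp (1 - α * X ^ 2 / 2) ^ 2 = Real.exp 1 ^ 2 * (Real.exp (-(α * X ^ 2 / 2)) *
      Real.exp (-(α * X ^ 2 / 2))) := by
    rw [← Real.exp_add, ← Real.exp_nat_mul, ← Real.exp_nat_mul, ← Real.exp_add]
    congr 1; push_cast; ring
  have h4 : Real.exp 1 ^ 2 ≤ 9 := by
    have := Real.exp_one_lt_d9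
    have h5 : Real.exp 1 ≤ 3 := by linarith
    have h6 := Real.exp_pos 1
    nlinarith
  have h7 : (8 * (α * X ^ 2) + 2) * Real.exp (-(α * X ^ 2 / 2)) ≤ 9 := by
    have h8 : 8 * (α * X ^ 2) + 2 ≤ 9 * Real.exp (α * X ^ 2 / 2) := by
      set q := α * X ^ 2 / 2 with hq
      have hq0 : 0 ≤ q := by positivity
      have e1 : α * X ^ 2 = 2 * q := by rw [hq]; ring
      rw [e1]
      have h9 : 1 + q + q ^ 2 / 2 ≤ Real.exp q := Real.quadratic_le_exp_of_nonneg hq0
      nlinarith [sq_nonneg (q - 7 / 9)]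
    rw [Real.exp_neg, ← div_eq_mul_inv, div_le_iff₀ (Real.exp_pos _)]
    exact h8
  calc Real.exp (1 - α * X ^ 2 / 2) ^ 2 * ‖B - A‖ ^ 2
      ≤ (9 * (Real.exp (-(α * X ^ 2 / 2)) *
      Real.exp (-(α * X ^ 2 / 2)))) * (α * n ^ 2 * (8 * (α * X ^ 2) + 2)) := by
        rw [h3]
        refine mul_le_mul (mul_le_mul_of_nonneg_right h4 (by positivity)) hdiff (by positivity) (by positivity)
    _ = 9 * (α * n ^ 2) * ((8 * (α * X ^ 2) + 2) * Real.exp (-(α * X ^ 2 / 2))) *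
        Real.exp (-(α * X ^ 2 / 2)) := by ring
    _ ≤ 9 * (α * n ^ 2) * 9 * Real.exp (-(α * X ^ 2 / 2)) := by gcongr
    _ = _ := by ring

end Pool.Agent.H60.WM
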