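import Pool.Agent.H60.WM.Zeta

/-! The local inequality. -/

set_option autoImplicit false

open Complex MeasureTheory Finset Filter Topology
open Pool.Agent.R747.TL Pool.Agent.TH804.SS

namespace Pool.Agent.H60.WM

/-- weighted mean of `P(ζ)` -/
noncomputable def wm (μ : Measure ℂ) (w : ℂ → ℂ) (P : Polynomial ℂ) (t : ℝ) : ℂ :=
  ∫ z, w z * P.eval (riemannZeta (1 / 2 + (t : ℂ) * I + z)) ∂μ

/-- the Fourier transforms have no common exponentially small values at large frequencies -/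
def Slow {m : ℕ} (μ : Fin m → Measure ℂ) (w : Fin m → ℂ → ℂ) : Prop :=
  ∀ ε : ℝ, 0 < ε → ∃ Λ : ℝ, ∀ ξ : ℝ, Λ ≤ ξ → Real.exp (-(ε * ξ)) ≤ ∑ j, ‖tr (μ j) (w j) ξ‖

lemma slow_bound {m : ℕ} {μ : Fin m → Measure ℂ} {w : Fin m → ℂ → ℂ} (hS : Slow μ w) {k : ℕ} (hk : 0 < k)
    {η : ℝ} (hη : 0 < η) : ∀ᶠ T : ℝ in atTop, ∀ ξ : ℝ, η * Real.log T - 1 ≤ ξ →
      ξ ≤ 2 * k * Real.log T + 1 → T ^ (-(η / 2)) ≤ ∑ j, ‖tr (μ j) (w j) ξ‖ ^ 2 := by
  have hk0 : (0 : ℝ) < k := by exact_mod_cast hk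
  obtain ⟨ε, hε⟩ : ∃ ε : ℝ, ε = η / (16 * k) := ⟨_, rfl⟩
  have hε0 : 0 < ε := by rw [hε]; positivity
  obtain ⟨Λ, hΛ⟩ := hS ε hε0
  have hm : 0 < (m : ℝ) := by
    rcases Nat.eq_zero_or_pos m with h | h
    · exfalso
      subst h
      have := hΛ Λ le_rfl
      simp at this
      linarith [Real.exp_pos (-(ε * Λ))]
    · exact_mod_cast h
  have hlog : ∀ᶠ T : ℝ in atTop, (Λ + 1) / η ≤ Real.log T := Real.tendsto_log_atTop.eventually_ge_atTop _
  filter_upwards [hlog, ev_const (η := η / 4) (K := m * Real.exp (2 * ε)) (by linarith),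
    eventually_gt_atTop (0 : ℝ)] with T h1 h2 hT0 ξ h3 h4
  have h5 : Λ ≤ ξ := by
    rw [div_le_iff₀ hη] at h1
    linarith
  have h6 := hΛ ξ h5
  have h7 : Real.exp (-(ε * (2 * k * Real.log T + 1))) ≤ ∑ j, ‖tr (μ j) (w j) ξ‖ := by
    refine le_trans (Real.exp_le_exp.2 ?_) h6
    apply neg_le_neg
    exact mul_le_mul_of_nonneg_left h4 hε0.le
  have h8 : (∑ j, ‖tr (μ j) (w j) ξ‖) ^ 2 ≤ m * ∑ j, ‖tr (μ j) (w j) ξ‖ ^ 2 := by
    have := sq_sum_le_card_mul_sum_sq (s := (Finset.univ : Finset (Fin m))) (f := fun j => ‖tr (μ j) (w j) ξ‖)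
    simpa using this
  have h9 : Real.exp (-(ε * (2 * k * Real.log T + 1))) ^ 2 ≤ m * ∑ j, ‖tr (μ j) (w j) ξ‖ ^ 2 :=
    (pow_le_pow_left₀ (Real.exp_pos _).le h7 2).trans h8
  have h10 : Real.exp (-(ε * (2 * k * Real.log T + 1))) ^ 2 = Real.exp (-(2 * ε)) * T ^ (-(η / 4)) := by
    rw [← Real.exp_nat_mul, Real.rpow_def_of_pos hT0, ← Real.exp_add]
    congr 1
    push_cast
    rw [hε]; field_simp; ring
  rw [h10] at h9
  have h11 : T ^ (-(η / 2)) = T ^ (-(η / 4)) * T ^ (-(η / 4)) := by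
    rw [← Real.rpow_add hT0]; congr 1; ring
  have h12 : T ^ (-(η / 4)) * (m * Real.exp (2 * ε)) ≤ 1 := by
    have : T ^ (-(η / 4)) * T ^ (η / 4) = 1 := by rw [← Real.rpow_add hT0]; simp
    rw [← this]
    exact mul_le_mul_of_nonneg_left h2 (Real.rpow_nonneg hT0.le _)
  have h13 : T ^ (-(η / 4)) * m ≤ Real.exp (-(2 * ε)) := by
    have e := Real.exp_pos (2 * ε)
    rw [Real.exp_neg, ← one_div, le_div_iff₀ e]
    linarith
  have h14 : 0 ≤ T ^ (-(η / 4)) := Real.rpow_nonneg hT0.le _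
  rw [h11]
  have h15 : m * (T ^ (-(η / 4)) * T ^ (-(η / 4))) ≤ m * ∑ j, ‖tr (μ j) (w j) ξ‖ ^ 2 := by
    refine le_trans ?_ h9
    calc (m : ℝ) * (T ^ (-(η / 4)) * T ^ (-(η / 4))) = (T ^ (-(η / 4)) * m) * T ^ (-(η / 4)) := by ring
      _ ≤ _ := mul_le_mul_of_nonneg_right h13 h14
  exact le_of_mul_le_mul_left h15 hm

lemma pow_aux (k : ℕ) {x : ℝ} (hx : 0 ≤ x) : (x + 11) ^ k ≤ 12 ^ k * (1 + x ^ k) := by
  rcases le_total x 1 with h | h
  · calc (x + 11) ^ k ≤ 12 ^ k := pow_le_pow_left₀ (by linarith) (by linarith) k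
      _ ≤ 12 ^ k * (1 + x ^ k) := by
        have h1 : (0 : ℝ) ≤ 12 ^ k := by positivity
        have h2 : 0 ≤ x ^ k := by positivity
        nlinarith
  · calc (x + 11) ^ k ≤ (12 * x) ^ k := pow_le_pow_left₀ (by linarith) (by linarith) k
      _ = 12 ^ k * x ^ k := mul_pow _ _ _
      _ ≤ _ := by
        have h1 : (0 : ℝ) ≤ 12 ^ k := by positivity
        nlinarith

lemma pow_diff (k : ℕ) {z u : ℂ} (h : ‖z - u‖ ≤ 10) :
    ‖z ^ (k + 1) - u ^ (k + 1)‖ ≤ 10 * (k + 1) * 12 ^ k * (1 + ‖z‖ ^ k) := by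
  rw [← Commute.mul_geom_sum₂ (Commute.all z u)] 
  rw [norm_mul]
  have h1 : ‖∑ i ∈ Finset.range (k + 1), z ^ i * u ^ (k + 1 - 1 - i)‖ ≤ (k + 1) * (‖z‖ + 11) ^ k := by
    refine (norm_sum_le _ _).trans ?_
    calc _ ≤ ∑ i ∈ Finset.range (k + 1), (‖z‖ + 11) ^ k := by
          refine Finset.sum_le_sum fun i hi => ?_
          rw [Finset.mem_range] at hi
          rw [norm_mul, norm_pow, norm_pow]
          have hu : ‖u‖ ≤ ‖z‖ + 11 := by
            calc ‖u‖ = ‖z - (z - u)‖ := by congr 1; ring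
              _ ≤ ‖z‖ + ‖z - u‖ := norm_sub_le _ _
              _ ≤ _ := by linarith
          calc ‖z‖ ^ i * ‖u‖ ^ (k + 1 - 1 - i) ≤ (‖z‖ + 11) ^ i * (‖z‖ + 11) ^ (k + 1 - 1 - i) := by
                gcongr; linarith
            _ = (‖z‖ + 11) ^ k := by rw [← pow_add]; congr 1; omega
      _ = _ := by rw [Finset.sum_const, Finset.card_range, nsmul_eq_mul]; push_cast; ring
  calc ‖z - u‖ * _ ≤ 10 * ((k + 1) * (‖z‖ + 11) ^ k) := by gcongr
    _ ≤ 10 * ((k + 1) * (12 ^ k * (1 + ‖z‖ ^ k))) := by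
      gcongr
      exact pow_aux k (norm_nonneg _)
    _ = _ := by ring

lemma poly_close (P : Polynomial ℂ) (hP : 0 < P.natDegree) : ∃ C : ℝ, 0 ≤ C ∧ ∀ z u : ℂ, ‖z - u‖ ≤ 10 →
    ‖P.eval z - P.leadingCoeff * u ^ P.natDegree‖ ≤ C * (1 + ‖z‖ ^ (P.natDegree - 1)) := by
  obtain ⟨k, hk⟩ : ∃ k, P.natDegree = k + 1 := ⟨P.natDegree - 1, by omega⟩
  refine ⟨(∑ i ∈ Finset.range (k + 1), ‖P.coeff i‖) * 12 ^ k + ‖P.leadingCoeff‖ * (10 * (k + 1) * 12 ^ k), ?_, ?_⟩
  · have : 0 ≤ ∑ i ∈ Finset.range (k + 1), ‖P.coeff i‖ := Finset.sum_nonneg fun _ _ => norm_nonneg _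
    positivity
  intro z u h
  rw [hk, Nat.add_sub_cancel]
  have e : P.eval z = (∑ i ∈ Finset.range (k + 1), P.coeff i * z ^ i) + P.leadingCoeff * z ^ (k + 1) := by
    rw [Polynomial.eval_eq_sum_range, hk, Finset.sum_range_succ (n := k + 1)]
    congr 2
    rw [Polynomial.leadingCoeff, hk]
  rw [e]
  have h1 : ‖∑ i ∈ Finset.range (k + 1), P.coeff i * z ^ i‖ ≤
      (∑ i ∈ Finset.range (k + 1), ‖P.coeff i‖) * 12 ^ k * (1 + ‖z‖ ^ k) := by
    rw [mul_assoc, Finset.sum_mul]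
    refine (norm_sum_le _ _).trans (Finset.sum_le_sum fun i hi => ?_)
    rw [Finset.mem_range] at hi
    rw [norm_mul, norm_pow]
    refine mul_le_mul_of_nonneg_left ?_ (norm_nonneg _)
    calc ‖z‖ ^ i ≤ (‖z‖ + 11) ^ i := pow_le_pow_left₀ (norm_nonneg _) (by linarith) i
      _ ≤ (‖z‖ + 11) ^ k := pow_le_pow_right₀ (by linarith [norm_nonneg z]) (by omega)
      _ ≤ _ := pow_aux k (norm_nonneg _)
  have h2 := pow_diff k h
  calc _ = ‖(∑ i ∈ Finset.range (k + 1), P.coeff i * z ^ i) + P.leadingCoeff * (z ^ (k + 1) - u ^ (k + 1))‖ := by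
        congr 1; ring
    _ ≤ (∑ i ∈ Finset.range (k + 1), ‖P.coeff i‖) * 12 ^ k * (1 + ‖z‖ ^ k) +
        ‖P.leadingCoeff‖ * (10 * (k + 1) * 12 ^ k * (1 + ‖z‖ ^ k)) := by
        refine (norm_add_le _ _).trans (add_le_add h1 ?_)
        rw [norm_mul]
        exact mul_le_mul_of_nonneg_left h2 (norm_nonneg _)
    _ = _ := by ring

/-- the support region -/
def KR (R : ℝ) : Set ℂ := {z : ℂ | 0 ≤ z.re ∧ ‖z‖ ≤ R}

lemma KR_compact (R : ℝ) : IsCompact (KR R) := by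
  have h1 : KR R = {z : ℂ | 0 ≤ z.re} ∩ Metric.closedBall 0 R := by
    ext z; simp [KR]
  rw [h1]
  exact (isCompact_closedBall 0 R).inter_left (isClosed_le continuous_const Complex.continuous_re)

lemma Good.int_cont {μ : Measure ℂ} {w : ℂ → ℂ} {R : ℝ} (h : Good μ w R) {f : ℂ → ℂ}
    (hf : ContinuousOn f (KR R)) : Integrable (fun u => w u * f u) μ := by
  obtain ⟨C, hC⟩ := (KR_compact R).exists_bound_of_continuousOn hf
  refine h.int_mul ?_ fun z h1 h2 => hC z ⟨h1, h2⟩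
  have hm : MeasurableSet (KR R) := (KR_compact R).isClosed.measurableSet
  have h1 : AEStronglyMeasurable f (μ.restrict (KR R)) := hf.aestronglyMeasurable hm
  have h2 : ∀ᵐ z ∂μ, z ∈ KR R := h.supp
  rwa [Measure.restrict_eq_self_of_ae_mem h2] at h1

lemma tp_cont {ι : Type*} (S : Finset ι) (c : ι → ℂ) (lam : ι → ℝ) : Continuous (tp S c lam) := by
  unfold tp; fun_prop

lemma mean_tp {ι : Type*} (S : Finset ι) (c : ι → ℂ) (lam : ι → ℝ) {μ : Measure ℂ} {w : ℂ → ℂ} {R : ℝ}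
    (h : Good μ w R) (hl : ∀ k ∈ S, 0 ≤ lam k) (x : ℝ) :
    tp S (fun k => c k * tr μ w (lam k)) lam x = ∫ z, w z * tp S c lam (x + -(I * z)) ∂μ := by
  unfold tp
  simp_rw [Finset.mul_sum]
  have e : ∀ (z : ℂ) (k : ι), w z * (c k * cexp (-(I * lam k * ((x : ℂ) + -(I * z))))) =
      (w z * cexp (-(lam k * z))) * (c k * cexp (-(I * lam k * x))) := by
    intro z k
    have : cexp (-(I * lam k * ((x : ℂ) + -(I * z)))) = cexp (-(lam k * z)) * cexp (-(I * lam k * x)) := by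
      rw [← Complex.exp_add]; congr 1
      linear_combination ((lam k : ℂ) * z) * I_sq
    rw [this]; ring
  simp_rw [e]
  rw [integral_finsetSum _ fun k hk => (h.int_char (hl k hk)).mul_const _]
  refine Finset.sum_congr rfl fun k _ => ?_
  rw [integral_mul_const]
  unfold tr
  ring

lemma zeta_contOn {t R : ℝ} (ht : R < t) : ContinuousOn (fun z : ℂ => riemannZeta (1 / 2 + (t : ℂ) * I + z)) (KR R) := by
  intro z hz
  apply ContinuousAt.continuousWithinAt
  have h1 : 0 < (1 / 2 + (t : ℂ) * I + z).im := by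
    have := Complex.abs_im_le_norm z
    have h2 := neg_abs_le z.im
    simp
    linarith [hz.2]
  exact ContinuousAt.comp (f := fun z : ℂ => 1 / 2 + (t : ℂ) * I + z) (zdiff h1).continuousAt (by fun_prop)

theorem local_ineq {m : ℕ} {μ : Fin m → Measure ℂ} {w : Fin m → ℂ → ℂ} {R : ℝ} (hR : 0 ≤ R)
    (hμ : ∀ j, Good (μ j) (w j) R) (hS : Slow μ w) (P : Polynomial ℂ) (hP : 0 < P.natDegree)
    {η : ℝ} (hη : 0 < η) (hη1 : η ≤ 1 / 4) :
    ∀ᶠ T : ℝ in atTop, ∀ H : ℝ, 0 ≤ H →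
      (∀ j, ∀ u : ℝ, |u| ≤ T ^ (2 * η) → ‖wm (μ j) (w j) P (T + u)‖ ≤ H) →
      (∀ s : ℂ, 1 / 2 ≤ s.re → |s.im - T| ≤ T ^ (2 * η) + R → ‖riemannZeta s‖ ^ (P.natDegree - 1) ≤ H) →
      ‖zl T‖ ^ P.natDegree ≤ T ^ ((P.natDegree + 2) * η) * (1 + H) := by
  obtain ⟨C, hC0, hC⟩ := poly_close P hP
  obtain ⟨C2, hC20, hC2⟩ := poly_close (Polynomial.X ^ P.natDegree) (by simpa using hP)
  set k := P.natDegree with hk
  set l := ‖P.leadingCoeff‖ with hl
  have hPne : P ≠ 0 := by rintro rfl; simp at hk; omega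
  have hl0 : 0 < l := norm_pos_iff.2 (Polynomial.leadingCoeff_ne_zero.2 hPne)
  set M := ∑ j, tm (μ j) (w j) with hM
  have hM0 : 0 ≤ M := Finset.sum_nonneg fun j _ => tm_nonneg _ _
  have hMj : ∀ j, tm (μ j) (w j) ≤ M := fun j =>
    Finset.single_le_sum (fun i _ => tm_nonneg (μ i) (w i)) (Finset.mem_univ j)
  have hk1 : (1 : ℝ) ≤ k := by exact_mod_cast hP
  have hwin : ∀ᶠ T : ℝ in atTop, T ^ (2 * η) + R ≤ T / 2 := by
    have h1 : ∀ᶠ T : ℝ in atTop, 4 ≤ T ^ (1 / 2 : ℝ) := ev_const (by norm_num)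
    filter_upwards [h1, eventually_ge_atTop (4 * R), eventually_ge_atTop (1 : ℝ)] with T h2 h3 h4
    have h5 : T ^ (2 * η) ≤ T ^ (1 / 2 : ℝ) := Real.rpow_le_rpow_of_exponent_le h4 (by linarith)
    have h6 : T ^ (1 / 2 : ℝ) * T ^ (1 / 2 : ℝ) = T := by
      rw [← Real.rpow_add (by linarith)]; norm_num
    nlinarith
  have hlogge : ∀ᶠ T : ℝ in atTop, 2 / η ≤ Real.log T := Real.tendsto_log_atTop.eventually_ge_atTop _
  filter_upwards [tp_main (ι := Fin k → ℕ) μ w hR hμ (A := 2 * k) hη, sec_close, slow_bound hS hP hη, hwin,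
    ev_const (η := η) (K := 2 + l⁻¹ * (1 + M * C) + M + C2) hη,
    eventually_ge_atTop (1 : ℝ), hlogge, eventually_ge_atTop (4 * R + 4)] with T h1 h2 h3 h4 h5 hT1 hlogT hTR
  intro H hH hG hZ
  have hT0 : 0 < T := by linarith
  set N := ⌊T ^ 2⌋₊ with hN
  have hNT : (N : ℝ) ≤ T ^ 2 := Nat.floor_le (by positivity)
  set Y := T ^ η with hY
  have hY1 : 1 ≤ Y := Real.one_le_rpow hT1 hη.le
  have hlog : 0 ≤ Real.log T := Real.log_nonneg hT1
  set S := (ix k N).filter fun n => Y < ∏ i, ((n i : ℝ) + 1) with hSdef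
  -- decomposition
  have hdec : ∀ (x : ℝ) (z : ℂ), |x| ≤ T ^ (2 * η) → 0 ≤ z.re → ‖z‖ ≤ R →
      ‖tp S (cc k T) (ll k) (x + -(I * z)) - (P.leadingCoeff)⁻¹ *
        P.eval (riemannZeta (1 / 2 + ((T + x : ℝ) : ℂ) * I + z))‖ ≤ l⁻¹ * (C * (1 + H)) + Y ^ k := by
    intro x z hx hz1 hz2
    have hs : 1 / 2 + (T : ℂ) * I + I * ((x : ℂ) + -(I * z)) = 1 / 2 + ((T + x : ℝ) : ℂ) * I + z := by
      push_cast
      linear_combination (-z) * I_sq
    set s : ℂ := 1 / 2 + ((T + x : ℝ) : ℂ) * I + z with hsdef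
    have hsre : s.re = 1 / 2 + z.re := by rw [hsdef]; simp
    have hsim : s.im = T + x + z.im := by rw [hsdef]; simp
    have hzre := (le_abs_self z.re).trans (Complex.abs_re_le_norm z)
    have hzim := Complex.abs_im_le_norm z
    have him : |s.im - T| ≤ T ^ (2 * η) + R := by
      rw [hsim]
      have : T + x + z.im - T = x + z.im := by ring
      rw [this]
      exact (abs_add_le _ _).trans (add_le_add hx (hzim.trans hz2))
    have e1 := hC (riemannZeta s) (sec N s) (h2 s (by rw [hsre]; linarith) (by rw [hsre]; linarith) (him.trans h4))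
    rw [← hs, sec_pow, hs, tp_filter (ix k N) (cc k T) (ll k) _ (fun n => Y < ∏ i, ((n i : ℝ) + 1)), ← hSdef] at e1
    have e2 := low_bound k N T ((x : ℂ) + -(I * z)) (by simp; exact hz1) Y hY1
    set LW := tp ((ix k N).filter fun n => ¬ Y < ∏ i, ((n i : ℝ) + 1)) (cc k T) (ll k) ((x : ℂ) + -(I * z))
    have e3 : C * (1 + ‖riemannZeta s‖ ^ (k - 1)) ≤ C * (1 + H) := by
      have := hZ s (by rw [hsre]; linarith) him
      gcongr
    have hlc : P.leadingCoeff ≠ 0 := Polynomial.leadingCoeff_ne_zero.2 hPne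
    have e4 : tp S (cc k T) (ll k) (x + -(I * z)) - (P.leadingCoeff)⁻¹ * P.eval (riemannZeta s) =
        -((P.leadingCoeff)⁻¹ * (P.eval (riemannZeta s) - P.leadingCoeff *
          (tp S (cc k T) (ll k) (x + -(I * z)) + LW))) - LW := by
      field_simp; ring
    rw [e4]
    refine (norm_sub_le _ _).trans (add_le_add ?_ e2)
    rw [norm_neg, norm_mul, norm_inv]
    exact mul_le_mul_of_nonneg_left (e1.trans e3) (by positivity)
  set H' := l⁻¹ * H + M * (l⁻¹ * (C * (1 + H)) + Y ^ k) with hH'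
  have hH'0 : 0 ≤ H' := by positivity
  have hkey := h1 S (cc k T) (ll k) (η * Real.log T) (2 * k * Real.log T) H'
    (by rw [div_le_iff₀ hη] at hlogT; linarith) (by nlinarith) (by nlinarith)
    (by
      intro n hn
      rw [hSdef, Finset.mem_filter] at hn
      rw [ll_eq]
      constructor
      · rw [← Real.log_rpow hT0]
        exact Real.log_le_log (by positivity) hn.2.le
      · have e1 : ∏ i, ((n i : ℝ) + 1) ≤ (T ^ 2) ^ k := by
          calc ∏ i, ((n i : ℝ) + 1) ≤ ∏ _i : Fin k, T ^ 2 := by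
                refine Finset.prod_le_prod (fun i _ => by positivity) fun i _ => ?_
                have := hn.1
                unfold ix at this
                rw [Fintype.mem_piFinset] at this
                have h6 := Finset.mem_range.1 (this i)
                have h7 : ((n i : ℝ) + 1) ≤ N := by exact_mod_cast h6
                linarith
            _ = _ := by simp
        calc Real.log (∏ i, ((n i : ℝ) + 1)) ≤ Real.log ((T ^ 2) ^ k) :=
              Real.log_le_log (Finset.prod_pos fun i _ => by positivity) e1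
          _ = _ := by rw [Real.log_pow, Real.log_pow]; push_cast; ring)
    (by
      unfold nb
      calc _ ≤ ∑ n ∈ S, (1 : ℝ) := Finset.sum_le_sum fun n _ => cc_norm k T n
        _ = (S.card : ℝ) := by simp
        _ ≤ ((ix k N).card : ℝ) := by exact_mod_cast Finset.card_filter_le _ _
        _ = (N : ℝ) ^ k := by unfold ix; simp
        _ ≤ (T ^ 2) ^ k := pow_le_pow_left₀ (Nat.cast_nonneg _) hNT k
        _ = T ^ ((2 * k : ℝ)) := by
          rw [← pow_mul, ← Real.rpow_natCast]; push_cast; ring_nf)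
    h3 hH'0
    (by
      intro j x hx
      rw [mean_tp S _ _ (hμ j) fun n _ => ll_nonneg k n]
      have hTx : R < T + x := by
        have := abs_le.1 (hx.trans (by linarith : T ^ (2 * η) ≤ T / 2))
        linarith
      have hcont1 : Continuous fun z : ℂ => tp S (cc k T) (ll k) ((x : ℂ) + -(I * z)) :=
        (tp_cont S _ _).comp (by fun_prop)
      have hcont2 : ContinuousOn (fun z : ℂ => (P.leadingCoeff)⁻¹ *
          P.eval (riemannZeta (1 / 2 + ((T + x : ℝ) : ℂ) * I + z))) (KR R) :=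
        continuousOn_const.mul (P.continuous.comp_continuousOn (zeta_contOn hTx))
      have e1 : ∫ z, w j z * tp S (cc k T) (ll k) ((x : ℂ) + -(I * z)) ∂(μ j) =
          (P.leadingCoeff)⁻¹ * wm (μ j) (w j) P (T + x) +
          ∫ z, w j z * (tp S (cc k T) (ll k) ((x : ℂ) + -(I * z)) - (P.leadingCoeff)⁻¹ *
            P.eval (riemannZeta (1 / 2 + ((T + x : ℝ) : ℂ) * I + z))) ∂(μ j) := by
        unfold wm
        rw [← integral_const_mul, ← integral_add]
        · refine integral_congr_ae (Filter.Eventually.of_forall fun v => ?_)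
          simp only
          ring
        · have := (hμ j).int_cont hcont2
          refine this.congr (Filter.Eventually.of_forall fun v => ?_)
          simp only
          ring
        · exact (hμ j).int_cont (hcont1.continuousOn.sub hcont2)
      rw [e1]
      refine (norm_add_le _ _).trans ?_
      rw [hH']
      refine add_le_add ?_ ?_
      · rw [norm_mul, norm_inv]
        exact mul_le_mul_of_nonneg_left (hG j x hx) (by positivity)
      · have e2 : ‖∫ z, w j z * (tp S (cc k T) (ll k) ((x : ℂ) + -(I * z)) - (P.leadingCoeff)⁻¹ *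
            P.eval (riemannZeta (1 / 2 + ((T + x : ℝ) : ℂ) * I + z))) ∂(μ j)‖ ≤
            ∫ z, ‖w j z‖ * (l⁻¹ * (C * (1 + H)) + Y ^ k) ∂(μ j) := by
          refine norm_integral_le_of_norm_le ((hμ j).int.norm.mul_const _) ?_
          filter_upwards [(hμ j).supp] with z hz
          rw [norm_mul]
          exact mul_le_mul_of_nonneg_left (hdec x z hx hz.1 hz.2) (norm_nonneg _)
        refine e2.trans ?_
        rw [integral_mul_const]
        exact mul_le_mul_of_nonneg_right (hMj j) (by positivity))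
  -- final estimate
  have e0 : ∑ n ∈ S, cc k T n = tp S (cc k T) (ll k) 0 := by
    unfold tp; simp
  have hs0 : 1 / 2 + (T : ℂ) * I + I * 0 = 1 / 2 + (T : ℂ) * I := by ring
  have hre0 : (1 / 2 + (T : ℂ) * I).re = 1 / 2 := by simp
  have him0 : (1 / 2 + (T : ℂ) * I).im = T := by simp
  have e1 := hC2 (zl T) (sec N (1 / 2 + (T : ℂ) * I)) (by
    have := h2 (1 / 2 + (T : ℂ) * I) (by rw [hre0]) (by rw [hre0]; linarith)
      (by rw [him0, sub_self, abs_zero]; linarith)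
    exact this)
  rw [Polynomial.leadingCoeff_X_pow, Polynomial.natDegree_X_pow, Polynomial.eval_pow, Polynomial.eval_X,
    one_mul, ← hs0, sec_pow, tp_filter (ix k N) (cc k T) (ll k) 0 (fun n => Y < ∏ i, ((n i : ℝ) + 1)), ← hSdef] at e1
  have e2 := low_bound k N T 0 (by simp) Y hY1
  set LW := tp ((ix k N).filter fun n => ¬ Y < ∏ i, ((n i : ℝ) + 1)) (cc k T) (ll k) 0
  have e3 : ‖zl T‖ ^ (k - 1) ≤ H := by
    exact hZ (1 / 2 + (T : ℂ) * I) (by rw [hre0]) (by rw [him0, sub_self, abs_zero]; positivity)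
  have e4 : ‖zl T‖ ^ k ≤ Y * (1 + H') + Y ^ k + C2 * (1 + H) := by
    calc ‖zl T‖ ^ k = ‖(zl T ^ k - (tp S (cc k T) (ll k) 0 + LW)) + (∑ n ∈ S, cc k T n + LW)‖ := by
          rw [← norm_pow, e0]; congr 1; ring
      _ ≤ C2 * (1 + H) + (Y * (1 + H') + Y ^ k) := by
          refine (norm_add_le _ _).trans (add_le_add (e1.trans ?_) ((norm_add_le _ _).trans (add_le_add hkey e2)))
          gcongr
      _ = _ := by ring
  refine e4.trans ?_
  have hYk1 : 1 ≤ Y ^ k := one_le_pow₀ hY1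
  have hYk : Y ^ k * Y * Y = T ^ ((k + 2) * η) := by
    rw [hY, ← Real.rpow_natCast, ← Real.rpow_mul hT0.le, ← Real.rpow_add hT0, ← Real.rpow_add hT0]
    congr 1; ring
  rw [← hYk]
  have hli : 0 ≤ l⁻¹ := by positivity
  have f1 : 1 + H' ≤ Y ^ k * (1 + H) * (1 + l⁻¹ * (1 + M * C) + M) := by
    rw [hH']
    have g0 : 1 ≤ Y ^ k * (1 + H) := one_le_mul_of_one_le_of_one_le hYk1 (by linarith)
    have g1 : l⁻¹ * H ≤ l⁻¹ * (Y ^ k * (1 + H)) := by
      gcongr; nlinarith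
    have g2 : M * (l⁻¹ * (C * (1 + H))) ≤ M * (l⁻¹ * (C * (Y ^ k * (1 + H)))) := by
      gcongr; nlinarith
    have g3 : M * Y ^ k ≤ M * (Y ^ k * (1 + H)) := by
      gcongr; nlinarith
    calc 1 + (l⁻¹ * H + M * (l⁻¹ * (C * (1 + H)) + Y ^ k)) =
          1 + l⁻¹ * H + M * (l⁻¹ * (C * (1 + H))) + M * Y ^ k := by ring
      _ ≤ Y ^ k * (1 + H) + l⁻¹ * (Y ^ k * (1 + H)) + M * (l⁻¹ * (C * (Y ^ k * (1 + H)))) +
          M * (Y ^ k * (1 + H)) := by linarith
      _ = _ := by ring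
  have f2 : Y ^ k ≤ Y ^ k * Y * (1 + H) := by
    have : Y ^ k * 1 ≤ Y ^ k * (Y * (1 + H)) := by
      refine mul_le_mul_of_nonneg_left ?_ (by positivity)
      exact one_le_mul_of_one_le_of_one_le hY1 (by linarith)
    linarith
  have f3 : C2 * (1 + H) ≤ C2 * (Y ^ k * Y * (1 + H)) := by
    refine mul_le_mul_of_nonneg_left ?_ hC20
    have : 1 ≤ Y ^ k * Y := one_le_mul_of_one_le_of_one_le hYk1 hY1
    nlinarith
  calc Y * (1 + H') + Y ^ k + C2 * (1 + H)
      ≤ Y * (Y ^ k * (1 + H) * (1 + l⁻¹ * (1 + M * C) + M)) + Y ^ k * Y * (1 + H) + C2 * (Y ^ k * Y * (1 + H)) := by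
        gcongr
    _ = (Y ^ k * Y * (1 + H)) * (2 + l⁻¹ * (1 + M * C) + M + C2) := by ring
    _ ≤ (Y ^ k * Y * (1 + H)) * Y := by gcongr
    _ = _ := by ring

end Pool.Agent.H60.WM
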