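import Pool.Agent.H60.WM.Iter

/-! The inequality for trigonometric polynomials. -/

set_option autoImplicit false

open Complex MeasureTheory Finset Filter Topology

namespace Pool.Agent.H60.WM

variable {ι : Type*}

lemma norm_char (a b : ℝ) : ‖cexp (-(I * a * b))‖ = 1 := by
  have : -(I * a * b) = ((-(a * b) : ℝ) : ℂ) * I := by push_cast; ring
  rw [this, norm_exp_ofReal_mul_I]

lemma tp_norm (S : Finset ι) (c : ι → ℂ) (lam : ι → ℝ) (x : ℝ) : ‖tp S c lam x‖ ≤ nb S c := by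
  unfold tp nb
  refine (norm_sum_le _ _).trans (Finset.sum_le_sum fun k _ => ?_)
  rw [norm_mul, norm_char, mul_one]

lemma NN_le (S : Finset ι) (c : ι → ℂ) (lam : ι → ℝ) {α H X B : ℝ} (hα : 0 < α) (hX : 0 ≤ X)
    (hB : nb S c ≤ B) (h : ∀ x : ℝ, |x| ≤ X → ‖tp S c lam x‖ ≤ H) :
    NN S c lam α ≤ √(Real.pi / α) * (H ^ 2 + B ^ 2 * Real.exp (-(α * X ^ 2))) := by
  unfold NN
  have h0 : 0 ≤ nb S c := nb_nonneg S c
  have hH : 0 ≤ H := (norm_nonneg _).trans (h 0 (by simpa using hX))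
  have hi : Integrable (fun x : ℝ => Real.exp (-α * x ^ 2)) := integrable_exp_neg_mul_sq hα
  have h1 : ∫ x : ℝ, ‖gs S c (fun k => (lam k : ℂ)) α x‖ ^ 2 ≤
      ∫ x : ℝ, (H ^ 2 + B ^ 2 * Real.exp (-(α * X ^ 2))) * Real.exp (-α * x ^ 2) := by
    refine integral_mono_of_nonneg (Filter.Eventually.of_forall fun x => by positivity)
      (hi.const_mul _) (Filter.Eventually.of_forall fun x => ?_)
    simp only
    rw [gs_tp, norm_mul, mul_pow, norm_real, Real.norm_eq_abs, abs_of_pos (Real.exp_pos _)]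
    have e : Real.exp (-(α * x ^ 2)) ^ 2 = Real.exp (-(α * x ^ 2)) * Real.exp (-α * x ^ 2) := by
      rw [sq]; congr 2; ring
    rw [e]
    have hp1 : 0 < Real.exp (-(α * x ^ 2)) := Real.exp_pos _
    have hp2 : 0 < Real.exp (-α * x ^ 2) := Real.exp_pos _
    have hp3 : 0 < Real.exp (-(α * X ^ 2)) := Real.exp_pos _
    rw [← mul_assoc]
    refine mul_le_mul_of_nonneg_right ?_ hp2.le
    by_cases hx : |x| ≤ X
    · have h2 := pow_le_pow_left₀ (norm_nonneg _) (h x hx) 2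
      have h3 : Real.exp (-(α * x ^ 2)) ≤ 1 := by
        rw [Real.exp_le_one_iff]; nlinarith [mul_nonneg hα.le (sq_nonneg x)]
      calc ‖tp S c lam x‖ ^ 2 * Real.exp (-(α * x ^ 2)) ≤ H ^ 2 * 1 := by gcongr
        _ ≤ _ := by nlinarith [mul_nonneg (sq_nonneg B) hp3.le]
    · push Not at hx
      have h2 := pow_le_pow_left₀ (norm_nonneg _) ((tp_norm S c lam x).trans hB) 2
      have h3 : Real.exp (-(α * x ^ 2)) ≤ Real.exp (-(α * X ^ 2)) := by
        apply Real.exp_le_exp.2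
        have : X ^ 2 ≤ x ^ 2 := by
          rw [← sq_abs x]; exact pow_le_pow_left₀ hX hx.le 2
        nlinarith
      calc ‖tp S c lam x‖ ^ 2 * Real.exp (-(α * x ^ 2)) ≤ B ^ 2 * Real.exp (-(α * X ^ 2)) := by gcongr
        _ ≤ _ := by nlinarith [sq_nonneg H]
  refine h1.trans (le_of_eq ?_)
  rw [integral_const_mul, integral_gaussian]
  ring

theorem tp_bound (S : Finset ι) (c : ι → ℂ) (lam : ι → ℝ) {a b : ℝ} (ha : 2 ≤ a) (hab : a ≤ b)
    (hlam : ∀ k ∈ S, a ≤ lam k ∧ lam k ≤ b)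
    {α R : ℝ} (hα : 0 < α) (hR0 : 0 ≤ R) (hR : α * R ^ 2 ≤ 1) (hR' : α * R ≤ 1) {m : ℕ}
    (μ : Fin m → Measure ℂ) (w : Fin m → ℂ → ℂ)
    (hμ : ∀ j, Good (μ j) (w j) R) {δ : ℝ} (hδ : 0 < δ)
    (hlow : ∀ ξ : ℝ, a - 1 ≤ ξ → ξ ≤ b + 1 → δ ^ 2 ≤ ∑ j, ‖tr (μ j) (w j) ξ‖ ^ 2)
    {θ : ℝ} (hθ : (162 * R ^ 2 * (∑ j, tm (μ j) (w j) ^ 2) / δ ^ 2) * α ≤ θ) (hθ2 : θ ≤ 1 / 2)
    (r : ℕ) {X H : ℝ} (hX : 0 ≤ X)
    (h : ∀ j, ∀ x : ℝ, |x| ≤ X → ‖tp S (fun k => c k * tr (μ j) (w j) (lam k)) lam x‖ ≤ H) :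
    ‖∑ k ∈ S, c k‖ ^ 2 ≤ (b - a + 2) * (2 ^ r * √(Real.pi / α) *
      (2 * (2 * (nb S c ^ 2 * Real.exp (-(1 / (4 * α)))) + 2 / δ ^ 2 * (m * H ^ 2 +
        nb S c ^ 2 * (∑ j, tm (μ j) (w j) ^ 2) * Real.exp (-(α / 4 ^ r * X ^ 2)))) + θ ^ r * nb S c ^ 2)) +
      4 * nb S c ^ 2 * Real.exp (-(1 / (4 * α))) := by
  set MM := ∑ j, tm (μ j) (w j) ^ 2 with hMM
  have hMM0 : 0 ≤ MM := Finset.sum_nonneg fun j _ => by positivity
  set B := nb S c with hB
  have hB0 : 0 ≤ B := nb_nonneg S c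
  have hθ0 : 0 ≤ θ := le_trans (by positivity) hθ
  set K := 2 ^ r * √(Real.pi / α) with hK
  have hK0 : 0 ≤ K := by positivity
  set e1 := Real.exp (-(1 / (4 * α))) with he1
  set e2 := Real.exp (-(α / 4 ^ r * X ^ 2)) with he2
  have he10 : 0 < e1 := Real.exp_pos _
  have he20 : 0 < e2 := Real.exp_pos _
  set E := K * (2 * (B ^ 2 * e1) + 2 / δ ^ 2 * (m * H ^ 2 + B ^ 2 * MM * e2)) with hE
  have hE0 : 0 ≤ E := by positivity
  have hαi : ∀ i : ℕ, i ≤ r → α / 4 ^ r ≤ α / 4 ^ i ∧ α / 4 ^ i ≤ α ∧ 0 < α / 4 ^ i := by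
    intro i hi
    have h4i : (1 : ℝ) ≤ 4 ^ i := one_le_pow₀ (by norm_num)
    have h4r : (4 : ℝ) ^ i ≤ 4 ^ r := pow_le_pow_right₀ (by norm_num) hi
    refine ⟨?_, div_le_self hα.le h4i, by positivity⟩
    exact div_le_div_of_nonneg_left hα.le (by positivity) h4r
  have hsq : ∀ i : ℕ, i ≤ r → √(Real.pi / (α / 4 ^ i)) ≤ K := by
    intro i hi
    have h4r : (4 : ℝ) ^ i ≤ 4 ^ r := pow_le_pow_right₀ (by norm_num) hi
    have h1 : Real.pi / (α / 4 ^ i) ≤ 4 ^ r * (Real.pi / α) := by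
      have : Real.pi / (α / 4 ^ i) = 4 ^ i * (Real.pi / α) := by field_simp
      rw [this]
      exact mul_le_mul_of_nonneg_right h4r (by positivity)
    calc √(Real.pi / (α / 4 ^ i)) ≤ √(4 ^ r * (Real.pi / α)) := Real.sqrt_le_sqrt h1
      _ = K := by
        rw [Real.sqrt_mul (by positivity), hK]
        congr 1
        have : (4 : ℝ) ^ r = (2 ^ r) ^ 2 := by rw [← pow_mul, mul_comm, pow_mul]; norm_num
        rw [this, Real.sqrt_sq (by positivity)]
  have htiny : ∀ i : ℕ, i ≤ r → tiny B (α / 4 ^ i) ≤ K * (B ^ 2 * e1) := by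
    intro i hi
    obtain ⟨ha1, ha2, ha3⟩ := hαi i hi
    have h1 : √(Real.pi * (4 * (α / 4 ^ i))) / (2 * (α / 4 ^ i)) = √(Real.pi / (α / 4 ^ i)) := by
      set β := α / 4 ^ i with hβ
      have h2 : Real.pi * (4 * β) = (2 * β) ^ 2 * (Real.pi / β) := by field_simp; ring
      rw [h2, Real.sqrt_mul (by positivity), Real.sqrt_sq (by positivity)]
      field_simp
    unfold tiny
    rw [h1]
    have h2 : Real.exp (-(1 / (4 * (α / 4 ^ i)))) ≤ e1 := by
      apply Real.exp_le_exp.2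
      apply neg_le_neg
      exact div_le_div_of_nonneg_left zero_le_one (by positivity) (by linarith)
    calc B ^ 2 * √(Real.pi / (α / 4 ^ i)) * Real.exp (-(1 / (4 * (α / 4 ^ i)))) ≤ B ^ 2 * K * e1 := by
          gcongr
          exact hsq i hi
      _ = _ := by ring
  have hstep : ∀ i < r, NN S c lam (α / 4 ^ i) ≤ E + θ * NN S c lam (α / 4 ^ (i + 1)) := by
    intro i hi
    obtain ⟨ha1, ha2, ha3⟩ := hαi i hi.le
    have hs := step S c lam ha hlam ha3 (by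
      calc α / 4 ^ i * R ^ 2 ≤ α * R ^ 2 := by gcongr
        _ ≤ 1 := hR) (by
      calc α / 4 ^ i * R ≤ α * R := by gcongr
        _ ≤ 1 := hR') μ w hμ hδ hlow
    have hquarter : α / 4 ^ i / 4 = α / 4 ^ (i + 1) := by rw [pow_succ]; field_simp
    rw [hquarter, ← hB, ← hMM] at hs
    have h1 : ∀ j, NN S (fun k => c k * tr (μ j) (w j) (lam k)) lam (α / 4 ^ i) ≤
        K * (H ^ 2 + B ^ 2 * tm (μ j) (w j) ^ 2 * e2) := by
      intro j
      have h2 : nb S (fun k => c k * tr (μ j) (w j) (lam k)) ≤ B * tm (μ j) (w j) := by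
        rw [hB]
        unfold nb
        rw [Finset.sum_mul]
        refine Finset.sum_le_sum fun k hk => ?_
        rw [norm_mul]
        exact mul_le_mul_of_nonneg_left (tr_norm (hμ j) (by linarith [(hlam k hk).1])) (norm_nonneg _)
      refine (NN_le S _ lam ha3 hX h2 (h j)).trans ?_
      have h3 : Real.exp (-(α / 4 ^ i * X ^ 2)) ≤ e2 := by
        apply Real.exp_le_exp.2
        apply neg_le_neg
        exact mul_le_mul_of_nonneg_right ha1 (by positivity)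
      rw [mul_pow]
      refine mul_le_mul (hsq i hi.le) ?_ (by positivity) hK0
      exact add_le_add le_rfl (mul_le_mul_of_nonneg_left h3 (by positivity))
    have h2 : ∑ j, NN S (fun k => c k * tr (μ j) (w j) (lam k)) lam (α / 4 ^ i) ≤
        K * (m * H ^ 2 + B ^ 2 * MM * e2) := by
      refine (Finset.sum_le_sum fun j _ => h1 j).trans (le_of_eq ?_)
      rw [← Finset.mul_sum, Finset.sum_add_distrib]
      congr 1
      rw [Finset.sum_const, Finset.card_univ, Fintype.card_fin, nsmul_eq_mul, ← Finset.sum_mul,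
        ← Finset.mul_sum]
    have h3 : 2 / δ ^ 2 * ∑ j, NN S (fun k => c k * tr (μ j) (w j) (lam k)) lam (α / 4 ^ i)
        ≤ 2 / δ ^ 2 * (K * (m * H ^ 2 + B ^ 2 * MM * e2)) := by gcongr
    have h4 := htiny i hi.le
    have h5 := htiny (i + 1) hi
    have hNp := NN_nonneg S c lam (α / 4 ^ (i + 1))
    have htp := tiny_nonneg B (hαi (i + 1) hi).2.2
    have h6 : (162 * R ^ 2 * MM / δ ^ 2) * (α / 4 ^ i) ≤ θ :=
      (mul_le_mul_of_nonneg_left ha2 (by positivity)).trans hθ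
    have h7 : (162 * R ^ 2 * MM / δ ^ 2) * (α / 4 ^ i) * (NN S c lam (α / 4 ^ (i + 1)) + tiny B (α / 4 ^ (i + 1))) ≤
        θ * NN S c lam (α / 4 ^ (i + 1)) + K * (B ^ 2 * e1) := by
      have h8 : (162 * R ^ 2 * MM / δ ^ 2) * (α / 4 ^ i) * (NN S c lam (α / 4 ^ (i + 1)) + tiny B (α / 4 ^ (i + 1))) ≤
          θ * (NN S c lam (α / 4 ^ (i + 1)) + tiny B (α / 4 ^ (i + 1))) :=
        mul_le_mul_of_nonneg_right h6 (by linarith)
      have h9 : θ * tiny B (α / 4 ^ (i + 1)) ≤ 1 * tiny B (α / 4 ^ (i + 1)) :=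
        mul_le_mul_of_nonneg_right (by linarith) htp
      linarith
    rw [hE]
    linarith
  have hit := iter_aux (N := fun i => NN S c lam (α / 4 ^ i)) hE0 hθ0 hθ2 r hstep
  simp only [pow_zero, div_one] at hit
  have hNr : NN S c lam (α / 4 ^ r) ≤ K * B ^ 2 := by
    obtain ⟨-, -, ha3⟩ := hαi r le_rfl
    have h1 := NN_le S c lam (α := α / 4 ^ r) (H := B) (X := 0) (B := B) ha3 le_rfl hB.le
      (fun x _ => tp_norm S c lam x)
    unfold NN
    have hi : Integrable (fun x : ℝ => Real.exp (-(α / 4 ^ r) * x ^ 2)) := integrable_exp_neg_mul_sq ha3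
    have h1 : ∫ x : ℝ, ‖gs S c (fun k => (lam k : ℂ)) (α / 4 ^ r) x‖ ^ 2 ≤
        ∫ x : ℝ, B ^ 2 * Real.exp (-(α / 4 ^ r) * x ^ 2) := by
      refine integral_mono_of_nonneg (Filter.Eventually.of_forall fun x => by positivity)
        (hi.const_mul _) (Filter.Eventually.of_forall fun x => ?_)
      simp only
      rw [gs_tp, norm_mul, mul_pow, norm_real, Real.norm_eq_abs, abs_of_pos (Real.exp_pos _)]
      have e : Real.exp (-(α / 4 ^ r * x ^ 2)) ^ 2 = Real.exp (-(α / 4 ^ r * x ^ 2)) * Real.exp (-(α / 4 ^ r) * x ^ 2) := by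
        rw [sq]; congr 2; ring
      rw [e, ← mul_assoc]
      refine mul_le_mul_of_nonneg_right ?_ (Real.exp_pos _).le
      have h2 := pow_le_pow_left₀ (norm_nonneg _) (tp_norm S c lam x) 2
      have h3 : Real.exp (-(α / 4 ^ r * x ^ 2)) ≤ 1 := by
        rw [Real.exp_le_one_iff]; nlinarith [mul_nonneg ha3.le (sq_nonneg x)]
      calc ‖tp S c lam x‖ ^ 2 * Real.exp (-(α / 4 ^ r * x ^ 2)) ≤ B ^ 2 * 1 := by gcongr
        _ = B ^ 2 := mul_one _
    refine h1.trans ?_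
    rw [integral_const_mul, integral_gaussian, mul_comm]
    exact mul_le_mul_of_nonneg_right (hsq r le_rfl) (by positivity)
  have hN0 : NN S c lam α ≤ 2 * E + θ ^ r * (K * B ^ 2) := by
    have hp : 0 ≤ θ ^ r := by positivity
    have h1 := mul_le_mul_of_nonneg_left hNr hp
    have h2 : 0 ≤ E * θ ^ r := mul_nonneg hE0 hp
    linarith
  refine (value S c lam hab hlam hα).trans (add_le_add ?_ le_rfl)
  refine mul_le_mul_of_nonneg_left (hN0.trans (le_of_eq ?_)) (by linarith)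
  rw [hE]; ring

end Pool.Agent.H60.WM
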