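import Pool.Graph.R_seed8.R747.TL.B
import Pool.Graph.R_seed8.W188.Ray.A4

/-! Bounds on the line give bounds to the right of the line. -/

set_option autoImplicit false

open Complex Filter Topology Set
open Pool.Agent.R747.TL

namespace Pool.Agent.H60.WM

lemma zdiff {s : ℂ} (hs : 0 < s.im) : DifferentiableAt ℂ riemannZeta s := by
  apply differentiableAt_riemannZeta
  intro h
  rw [h] at hs
  simp at hs

theorem right_bound {a T0 : ℝ} (ha : 0 ≤ a) (H : ∀ t : ℝ, T0 ≤ t → ‖zl t‖ ≤ t ^ a) :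
    ∃ C T1 : ℝ, 1 ≤ C ∧ ∀ T : ℝ, T1 ≤ T → ∀ x : ℝ, 1 / 2 ≤ x →
      ‖riemannZeta (x + (T : ℂ) * I)‖ ≤ C * T ^ a := by
  -- growth
  have hgr : ∀ᶠ T : ℝ in atTop, 6 * (2 * T + 2) * Real.exp (3 - (T / 2) ^ 2) ≤ 1 := by
    have h1 : Tendsto (fun T : ℝ => (T ^ 1 * Real.exp (-T)) * (6 * 4 * Real.exp 3)) atTop
        (𝓝 (0 * (6 * 4 * Real.exp 3))) :=
      (Real.tendsto_pow_mul_exp_neg_atTop_nhds_zero 1).mul_const _
    rw [zero_mul] at h1
    filter_upwards [h1.eventually_le_const (one_pos : (0:ℝ) < 1), eventually_ge_atTop (4:ℝ)] with T hT hT4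
    refine le_trans ?_ hT
    have e1 : Real.exp (3 - (T / 2) ^ 2) ≤ Real.exp 3 * Real.exp (-T) := by
      rw [← Real.exp_add]
      apply Real.exp_le_exp.2
      nlinarith
    have h2 : 2 * T + 2 ≤ 4 * T := by linarith
    calc 6 * (2 * T + 2) * Real.exp (3 - (T / 2) ^ 2)
        ≤ 6 * (4 * T) * (Real.exp 3 * Real.exp (-T)) := by
          apply mul_le_mul (by linarith) e1 (Real.exp_pos _).le (by positivity)
      _ = _ := by ring
  obtain ⟨T1, hT1⟩ := hgr.exists_forall_of_atTop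
  set C : ℝ := 2 ^ a + 2 * Real.exp 3 + 2 with hC
  have h2a : 0 < (2 : ℝ) ^ a := by positivity
  have he3 := Real.exp_pos 3
  refine ⟨C, max T1 (max 8 (2 * T0)), by rw [hC]; linarith, ?_⟩
  intro T hT x hx1
  have hTT1 : T1 ≤ T := (le_max_left _ _).trans hT
  have hT8 : 8 ≤ T := ((le_max_left _ _).trans (le_max_right _ _)).trans hT
  have hTh : 2 * T0 ≤ T := ((le_max_right _ _).trans (le_max_right _ _)).trans hT
  have hT0 : 0 < T := by linarith
  have hpowT : 1 ≤ T ^ a := Real.one_le_rpow (by linarith) ha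
  rcases le_or_gt 2 x with hx2 | hx2
  · have c1 := Pool.Agent.W188.Ray.norm_zeta_le_two (s := (x : ℂ) + (T : ℂ) * I) (by simp; exact hx2)
    refine c1.trans ?_
    have : (2 : ℝ) ≤ C := by rw [hC]; linarith
    nlinarith
  -- the function
  set f : ℂ → ℂ := fun s => riemannZeta s * cexp ((s - (1 / 2 + (T : ℂ) * I)) ^ 2) with hf
  have hnorm : ∀ s : ℂ, ‖f s‖ = ‖riemannZeta s‖ * Real.exp ((s.re - 1 / 2) ^ 2 - (s.im - T) ^ 2) := by
    intro s
    simp only [hf]
    rw [norm_mul, Complex.norm_exp]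
    congr 2
    rw [sq, mul_re]
    simp
    ring
  set U : Set ℂ := Ioo (1 / 2 : ℝ) 2 ×ℂ Ioo (T / 2) (3 * T / 2) with hU
  have hcl : closure U = Icc (1 / 2 : ℝ) 2 ×ℂ Icc (T / 2) (3 * T / 2) := by
    rw [hU, Complex.closure_reProdIm, closure_Ioo (by norm_num), closure_Ioo (by linarith)]
  have hfr : ∀ z ∈ frontier U, (1 / 2 ≤ z.re ∧ z.re ≤ 2 ∧ T / 2 ≤ z.im ∧ z.im ≤ 3 * T / 2) ∧
      (z.re = 1 / 2 ∨ z.re = 2 ∨ z.im = T / 2 ∨ z.im = 3 * T / 2) := by
    intro z hz
    have hUo : IsOpen U := isOpen_Ioo.reProdIm isOpen_Ioo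
    rw [frontier, hcl, hUo.interior_eq] at hz
    obtain ⟨⟨hz1, hz2⟩, hz3⟩ := hz
    have a1 : z.re ∈ Icc (1 / 2 : ℝ) 2 := hz1
    have a2 : z.im ∈ Icc (T / 2) (3 * T / 2) := hz2
    refine ⟨⟨a1.1, a1.2, a2.1, a2.2⟩, ?_⟩
    by_contra hcon
    push Not at hcon
    apply hz3
    exact ⟨⟨lt_of_le_of_ne a1.1 (Ne.symm hcon.1), lt_of_le_of_ne a1.2 hcon.2.1⟩,
      ⟨lt_of_le_of_ne a2.1 (Ne.symm hcon.2.2.1), lt_of_le_of_ne a2.2 hcon.2.2.2⟩⟩
  have hbdd : Bornology.IsBounded U := by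
    apply Bornology.IsBounded.reProdIm (Metric.isBounded_Ioo _ _) (Metric.isBounded_Ioo _ _)
  have hd : DiffContOnCl ℂ f U := by
    apply DifferentiableOn.diffContOnCl
    intro z hz
    rw [hcl] at hz
    have a2 : z.im ∈ Icc (T / 2) (3 * T / 2) := hz.2
    have b2 : 0 < z.im := by linarith [a2.1]
    apply DifferentiableAt.differentiableWithinAt
    simp only [hf]
    apply DifferentiableAt.mul
    · exact zdiff b2
    · fun_prop
  have hboundary : ∀ z ∈ frontier U, ‖f z‖ ≤ C * T ^ a := by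
    intro z hz
    obtain ⟨⟨a1, a2, a3, a4⟩, hcase⟩ := hfr z hz
    rw [hnorm]
    have hex : (z.re - 1 / 2) ^ 2 ≤ 3 := by nlinarith
    rcases hcase with hc | hc | hc
    · -- the line
      have e : z = 1 / 2 + (z.im : ℂ) * I := by
        apply Complex.ext <;> simp [hc]
      have h1 := H z.im (by linarith)
      have e1 : riemannZeta z = zl z.im := by
        unfold zl
        rw [← e]
      rw [e1, hc]
      have h2 : Real.exp ((1 / 2 - 1 / 2) ^ 2 - (z.im - T) ^ 2) ≤ 1 := by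
        rw [Real.exp_le_one_iff]; nlinarith [sq_nonneg (z.im - T)]
      have h3 : z.im ^ a ≤ 2 ^ a * T ^ a := by
        rw [← Real.mul_rpow (by norm_num) hT0.le]
        apply Real.rpow_le_rpow (by linarith) (by linarith) ha
      calc ‖zl z.im‖ * Real.exp ((1 / 2 - 1 / 2) ^ 2 - (z.im - T) ^ 2)
          ≤ (2 ^ a * T ^ a) * 1 := by
            apply mul_le_mul (h1.trans h3) h2 (Real.exp_pos _).le (by positivity)
        _ ≤ C * T ^ a := by
            rw [hC]
            have : 0 ≤ (2 * Real.exp 3 + 2) * T ^ a := by positivity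
            nlinarith
    · -- the right side
      have h1 : ‖riemannZeta z‖ ≤ 2 := Pool.Agent.W188.Ray.norm_zeta_le_two (s := z) (by rw [hc])
      have h2 : Real.exp ((z.re - 1 / 2) ^ 2 - (z.im - T) ^ 2) ≤ Real.exp 3 := by
        apply Real.exp_le_exp.2
        nlinarith [sq_nonneg (z.im - T)]
      calc _ ≤ 2 * Real.exp 3 := mul_le_mul h1 h2 (Real.exp_pos _).le (by norm_num)
        _ ≤ C * 1 := by
          rw [hC]
          linarith
        _ ≤ C * T ^ a := by gcongr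
    · -- top and bottom
      have h1 : ‖riemannZeta z‖ ≤ 6 * (2 * T + 2) := by
        have c1 := Pool.Agent.H388LH.zeta_growth (s := z) (by linarith) (by linarith)
        have c3 := Pool.Agent.W188.Ray.norm_le_re_im (s := z) (a := 2) (b := 2 * T) (by linarith) a2
          (by linarith) (by linarith)
        linarith
      have hsq : (z.im - T) ^ 2 = (T / 2) ^ 2 := by
        rcases hc with hc | hc <;> rw [hc] <;> ring
      have h2 : Real.exp ((z.re - 1 / 2) ^ 2 - (z.im - T) ^ 2) ≤ Real.exp (3 - (T / 2) ^ 2) := by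
        apply Real.exp_le_exp.2
        rw [hsq]; linarith
      calc _ ≤ 6 * (2 * T + 2) * Real.exp (3 - (T / 2) ^ 2) :=
            mul_le_mul h1 h2 (Real.exp_pos _).le (by positivity)
        _ ≤ 1 := hT1 T hTT1
        _ ≤ C * 1 := by
          rw [hC]
          linarith
        _ ≤ C * T ^ a := by gcongr
  have hmax := Complex.norm_le_of_forall_mem_frontier_norm_le hbdd hd hboundary
    (z := (x : ℂ) + (T : ℂ) * I) (by
      rw [hcl]
      refine ⟨?_, ?_⟩
      · show ((x : ℂ) + (T : ℂ) * I).re ∈ Icc (1 / 2 : ℝ) 2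
        simp only [add_re, ofReal_re, mul_re, I_re, mul_zero, ofReal_im, I_im, mul_one, sub_self,
          add_zero]
        exact ⟨hx1, hx2.le⟩
      · show ((x : ℂ) + (T : ℂ) * I).im ∈ Icc (T / 2) (3 * T / 2)
        simp only [add_im, ofReal_im, mul_im, ofReal_re, I_im, mul_one, I_re, mul_zero, add_zero,
          zero_add]
        exact ⟨by linarith, by linarith⟩)
  rw [hnorm] at hmax
  have h3 : 1 ≤ Real.exp ((((x : ℂ) + (T : ℂ) * I).re - 1 / 2) ^ 2 - (((x : ℂ) + (T : ℂ) * I).im - T) ^ 2) := by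
    apply Real.one_le_exp
    simp
    positivity
  calc ‖riemannZeta (x + (T : ℂ) * I)‖
      = ‖riemannZeta (x + (T : ℂ) * I)‖ * 1 := by ring
    _ ≤ _ := mul_le_mul_of_nonneg_left h3 (norm_nonneg _)
    _ ≤ _ := hmax

end Pool.Agent.H60.WM
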