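import Pool.Agent.H60.WM.Key

/-! One step of the iteration. -/

set_option autoImplicit false

open Complex MeasureTheory Finset

namespace Pool.Agent.H60.WM

variable {ι : Type*}

lemma gs_tp (S : Finset ι) (c : ι → ℂ) (lam : ι → ℝ) (α x : ℝ) :
    gs S c (fun k => (lam k : ℂ)) α x = tp S c lam x * (Real.exp (-(α * x ^ 2)) : ℂ) := by
  unfold gs tp
  rw [Finset.sum_mul]
  refine Finset.sum_congr rfl fun k _ => ?_
  rw [mul_assoc (c k), ofReal_exp, ← Complex.exp_add]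
  congr 2
  push_cast; ring

/-- the complex shift of a sum of Gaussians -/
lemma gs_shift (S : Finset ι) (c : ι → ℂ) (lam : ι → ℝ) (α x : ℝ) (v : ℂ) :
    gs S (fun k => c k * cexp (-(I * lam k * v) - α * v ^ 2)) (fun k => (lam k : ℂ) - 2 * I * α * v) α x =
      tp S c lam (x + v) * cexp (-(α * (x + v) ^ 2)) := by
  unfold gs tp
  rw [Finset.sum_mul]
  refine Finset.sum_congr rfl fun k _ => ?_
  rw [mul_assoc (c k), mul_assoc (c k), ← Complex.exp_add, ← Complex.exp_add]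
  congr 2
  have := I_sq
  linear_combination (2 * (α : ℂ) * v * x) * this

lemma gt_shift (S : Finset ι) (c : ι → ℂ) (lam : ι → ℝ) {α : ℝ} (hα : 0 < α) (v : ℂ) (ξ : ℝ) :
    gt S (fun k => c k * cexp (-(I * lam k * v) - α * v ^ 2)) (fun k => (lam k : ℂ) - 2 * I * α * v) α ξ =
      cexp (-(I * ξ * v)) * gt S c (fun k => (lam k : ℂ)) α ξ := by
  unfold gt
  rw [Finset.mul_sum]
  refine Finset.sum_congr rfl fun k _ => ?_
  rw [mul_assoc, ← Complex.exp_add, mul_left_comm, ← Complex.exp_add]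
  congr 2
  have h1 : (α : ℂ) ≠ 0 := by exact_mod_cast hα.ne'
  have := I_sq
  field_simp
  linear_combination (-4 * (α : ℂ) ^ 2 * v ^ 2) * this

lemma gs_one (S : Finset ι) (c : ι → ℂ) (lam : ι → ℝ) (α x : ℝ) (v : ℂ) :
    gs S (fun k => c k * cexp (-(I * lam k * v))) (fun k => (lam k : ℂ)) α x =
      tp S c lam (x + v) * cexp (-(α * (x : ℂ) ^ 2)) := by
  unfold gs tp
  rw [Finset.sum_mul]
  refine Finset.sum_congr rfl fun k _ => ?_
  rw [mul_assoc (c k), mul_assoc (c k), ← Complex.exp_add, ← Complex.exp_add]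
  congr 2
  ring

lemma planch_sub (S : Finset ι) (c z c' z' : ι → ℂ) {α : ℝ} (hα : 0 < α) :
    Integrable (fun ξ : ℝ => ‖gt S c z α ξ - gt S c' z' α ξ‖ ^ 2) ∧
    ∫ ξ : ℝ, ‖gt S c z α ξ - gt S c' z' α ξ‖ ^ 2 = 2 * α * ∫ x : ℝ, ‖gs S c z α x - gs S c' z' α x‖ ^ 2 := by
  have e1 : ∀ ξ : ℝ, gt (S.disjSum S) (Sum.elim c (fun k => -c' k)) (Sum.elim z z') α ξ =
      gt S c z α ξ - gt S c' z' α ξ := by
    intro ξ
    unfold gt
    rw [Finset.sum_disjSum, sub_eq_add_neg, ← Finset.sum_neg_distrib]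
    congr 1
    refine Finset.sum_congr rfl fun k _ => ?_
    simp
  have e2 : ∀ ξ : ℝ, gs (S.disjSum S) (Sum.elim c (fun k => -c' k)) (Sum.elim z z') α ξ =
      gs S c z α ξ - gs S c' z' α ξ := by
    intro ξ
    unfold gs
    rw [Finset.sum_disjSum, sub_eq_add_neg, ← Finset.sum_neg_distrib]
    congr 1
    refine Finset.sum_congr rfl fun k _ => ?_
    simp
  have h := planch (S.disjSum S) (Sum.elim c (fun k => -c' k)) (Sum.elim z z') hα
  have h2 := (gt_sq (S.disjSum S) (Sum.elim c (fun k => -c' k)) (Sum.elim z z') hα).1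
  simp only [e1, e2] at h h2
  exact ⟨h2, h⟩

/-- `∑ ‖c_k‖` -/
noncomputable def nb (S : Finset ι) (c : ι → ℂ) : ℝ := ∑ k ∈ S, ‖c k‖

/-- local mean square -/
noncomputable def NN (S : Finset ι) (c : ι → ℂ) (lam : ι → ℝ) (α : ℝ) : ℝ :=
  ∫ x : ℝ, ‖gs S c (fun k => (lam k : ℂ)) α x‖ ^ 2

lemma NN_nonneg (S : Finset ι) (c : ι → ℂ) (lam : ι → ℝ) (α : ℝ) : 0 ≤ NN S c lam α :=
  integral_nonneg fun _ => by positivity

lemma nb_nonneg (S : Finset ι) (c : ι → ℂ) : 0 ≤ nb S c := Finset.sum_nonneg fun _ _ => norm_nonneg _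

/-- a very small quantity -/
noncomputable def tiny (B α : ℝ) : ℝ := B ^ 2 * (√(Real.pi * (4 * α)) / (2 * α)) * Real.exp (-(1 / (4 * α)))

lemma tiny_nonneg (B : ℝ) {α : ℝ} (hα : 0 < α) : 0 ≤ tiny B α := by unfold tiny; positivity

/-- dominating function -/
noncomputable def dom (S : Finset ι) (c : ι → ℂ) (lam : ι → ℝ) (α ξ : ℝ) : ℝ :=
  ∑ k ∈ S, ‖c k‖ * Real.exp (-(lam k - ξ) ^ 2 / (4 * α))

lemma norm_gauss (a ξ α : ℝ) : ‖cexp (-((a : ℂ) - ξ) ^ 2 / (4 * α))‖ = Real.exp (-(a - ξ) ^ 2 / (4 * α)) := by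
  have : -((a : ℂ) - ξ) ^ 2 / (4 * α) = ((-(a - ξ) ^ 2 / (4 * α) : ℝ) : ℂ) := by push_cast; ring
  rw [this, ← ofReal_exp, norm_real, Real.norm_eq_abs, abs_of_pos (Real.exp_pos _)]

lemma gt_le_dom (S : Finset ι) (c : ι → ℂ) (lam : ι → ℝ) (α ξ : ℝ) :
    ‖gt S c (fun k => (lam k : ℂ)) α ξ‖ ≤ dom S c lam α ξ := by
  unfold gt dom
  refine (norm_sum_le _ _).trans (Finset.sum_le_sum fun k _ => ?_)
  rw [norm_mul, norm_gauss]

lemma dom_nonneg (S : Finset ι) (c : ι → ℂ) (lam : ι → ℝ) (α ξ : ℝ) : 0 ≤ dom S c lam α ξ :=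
  Finset.sum_nonneg fun k _ => by positivity

lemma dom_le (S : Finset ι) (c : ι → ℂ) (lam : ι → ℝ) {α : ℝ} (hα : 0 < α) (ξ : ℝ) :
    dom S c lam α ξ ≤ nb S c := by
  unfold dom nb
  refine Finset.sum_le_sum fun k _ => ?_
  have : Real.exp (-(lam k - ξ) ^ 2 / (4 * α)) ≤ 1 := by
    rw [Real.exp_le_one_iff, neg_div]
    have : 0 ≤ (lam k - ξ) ^ 2 / (4 * α) := by positivity
    linarith
  calc _ ≤ ‖c k‖ * 1 := mul_le_mul_of_nonneg_left this (norm_nonneg _)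
    _ = _ := mul_one _

lemma dom_sq_le (S : Finset ι) (c : ι → ℂ) (lam : ι → ℝ) {α : ℝ} (ξ : ℝ) :
    dom S c lam α ξ ^ 2 ≤ (∑ k ∈ S, ‖c k‖) * ∑ k ∈ S, ‖c k‖ * Real.exp (-(lam k - ξ) ^ 2 / (4 * α)) ^ 2 := by
  unfold dom
  have h := Finset.sum_mul_sq_le_sq_mul_sq S (fun k => √(‖c k‖)) (fun k => √(‖c k‖) * Real.exp (-(lam k - ξ) ^ 2 / (4 * α)))
  calc _ = (∑ k ∈ S, √(‖c k‖) * (√(‖c k‖) * Real.exp (-(lam k - ξ) ^ 2 / (4 * α)))) ^ 2 := by
        congr 1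
        refine Finset.sum_congr rfl fun k _ => ?_
        rw [← mul_assoc, Real.mul_self_sqrt (norm_nonneg _)]
    _ ≤ _ := h
    _ = _ := by
        congr 1
        · refine Finset.sum_congr rfl fun k _ => ?_
          rw [Real.sq_sqrt (norm_nonneg _)]
        · refine Finset.sum_congr rfl fun k _ => ?_
          rw [mul_pow, Real.sq_sqrt (norm_nonneg _)]

lemma gauss_int {a α : ℝ} (hα : 0 < α) : Integrable (fun ξ : ℝ => Real.exp (-(a - ξ) ^ 2 / (4 * α))) ∧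
    ∫ ξ : ℝ, Real.exp (-(a - ξ) ^ 2 / (4 * α)) = √(Real.pi * (4 * α)) := by
  have e : (fun ξ : ℝ => Real.exp (-(a - ξ) ^ 2 / (4 * α))) =
      fun ξ : ℝ => (fun y : ℝ => Real.exp (-(1 / (4 * α)) * y ^ 2)) (ξ - a) := by
    funext ξ; simp only; congr 1; ring
  have h1 : Integrable (fun y : ℝ => Real.exp (-(1 / (4 * α)) * y ^ 2)) :=
    integrable_exp_neg_mul_sq (by positivity)
  rw [e]
  refine ⟨h1.comp_sub_right a, ?_⟩
  rw [integral_sub_right_eq_self (fun y : ℝ => Real.exp (-(1 / (4 * α)) * y ^ 2)) a, integral_gaussian]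
  congr 1
  field_simp

/-- complex shifts to the right of the line do not increase the local mean square, up to a tiny error -/
lemma shift_le (S : Finset ι) (c : ι → ℂ) (lam : ι → ℝ) {α y : ℝ} (hα : 0 < α) (hy : 0 ≤ y)
    (hαy : α * y ≤ 1 / 4) (hlam : ∀ k ∈ S, 1 ≤ lam k) :
    Integrable (fun x : ℝ => ‖gs S (fun k => c k * cexp (-(I * lam k * (-(I * y))) - α * (-(I * y)) ^ 2))
      (fun k => (lam k : ℂ) - 2 * I * α * (-(I * y))) α x‖ ^ 2) ∧
    ∫ x : ℝ, ‖gs S (fun k => c k * cexp (-(I * lam k * (-(I * y))) - α * (-(I * y)) ^ 2))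
      (fun k => (lam k : ℂ) - 2 * I * α * (-(I * y))) α x‖ ^ 2 ≤ NN S c lam α + tiny (nb S c) α := by
  have h0 := gs_sq S (fun k => c k * cexp (-(I * lam k * (-(I * y))) - α * (-(I * y)) ^ 2))
      (fun k => (lam k : ℂ) - 2 * I * α * (-(I * y))) hα
  refine ⟨h0.1, ?_⟩
  have hp := planch S (fun k => c k * cexp (-(I * lam k * (-(I * y))) - α * (-(I * y)) ^ 2))
      (fun k => (lam k : ℂ) - 2 * I * α * (-(I * y))) hα
  have hp2 := planch S c (fun k => (lam k : ℂ)) hα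
  have hi0 := (gt_sq S c (fun k => (lam k : ℂ)) hα).1
  have hi2 : Integrable (fun ξ : ℝ => ∑ k ∈ S, ‖c k‖ * Real.exp (-(lam k - ξ) ^ 2 / (4 * α))) :=
    integrable_finsetSum _ fun k _ => (gauss_int hα).1.const_mul _
  have hpt : ∀ ξ : ℝ, ‖gt S (fun k => c k * cexp (-(I * lam k * (-(I * y))) - α * (-(I * y)) ^ 2))
      (fun k => (lam k : ℂ) - 2 * I * α * (-(I * y))) α ξ‖ ^ 2 ≤
      ‖gt S c (fun k => (lam k : ℂ)) α ξ‖ ^ 2 + Real.exp (-(1 / (4 * α))) * nb S c *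
        ∑ k ∈ S, ‖c k‖ * Real.exp (-(lam k - ξ) ^ 2 / (4 * α)) := by
    intro ξ
    rw [gt_shift S c lam hα, norm_mul, mul_pow]
    have e1 : ‖cexp (-(I * ξ * (-(I * y))))‖ = Real.exp (-(ξ * y)) := by
      have : -(I * ξ * (-(I * y))) = ((-(ξ * y) : ℝ) : ℂ) := by
        push_cast
        linear_combination ((ξ : ℂ) * y) * I_sq
      rw [this, ← ofReal_exp, norm_real, Real.norm_eq_abs, abs_of_pos (Real.exp_pos _)]
    rw [e1]
    have hnn : 0 ≤ Real.exp (-(1 / (4 * α))) * nb S c *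
        ∑ k ∈ S, ‖c k‖ * Real.exp (-(lam k - ξ) ^ 2 / (4 * α)) := by
      have h1 := nb_nonneg S c
      have h2 : 0 ≤ ∑ k ∈ S, ‖c k‖ * Real.exp (-(lam k - ξ) ^ 2 / (4 * α)) :=
        Finset.sum_nonneg fun k _ => by positivity
      positivity
    rcases le_or_gt 0 ξ with hξ | hξ
    · have h1 : Real.exp (-(ξ * y)) ≤ 1 := by
        rw [Real.exp_le_one_iff]; nlinarith
      have h2 : Real.exp (-(ξ * y)) ^ 2 ≤ 1 := pow_le_one₀ (Real.exp_pos _).le h1
      have h3 : 0 ≤ ‖gt S c (fun k => (lam k : ℂ)) α ξ‖ ^ 2 := by positivity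
      nlinarith
    · have h2 : ‖gt S c (fun k => (lam k : ℂ)) α ξ‖ ^ 2 ≤ dom S c lam α ξ ^ 2 :=
        pow_le_pow_left₀ (norm_nonneg _) (gt_le_dom S c lam α ξ) 2
      have h3 := dom_sq_le S c lam (α := α) ξ
      have h4 : Real.exp (-(ξ * y)) ^ 2 * ∑ k ∈ S, ‖c k‖ * Real.exp (-(lam k - ξ) ^ 2 / (4 * α)) ^ 2 ≤
          Real.exp (-(1 / (4 * α))) * ∑ k ∈ S, ‖c k‖ * Real.exp (-(lam k - ξ) ^ 2 / (4 * α)) := by
        rw [Finset.mul_sum, Finset.mul_sum]
        refine Finset.sum_le_sum fun k hk => ?_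
        have h5 : Real.exp (-(ξ * y)) ^ 2 * Real.exp (-(lam k - ξ) ^ 2 / (4 * α)) ≤ Real.exp (-(1 / (4 * α))) := by
          rw [← Real.exp_nat_mul, ← Real.exp_add]
          apply Real.exp_le_exp.2
          have h6 := hlam k hk
          have h7 : 1 + 2 * (-ξ) ≤ (lam k - ξ) ^ 2 := by nlinarith
          have h8 : (1 + 2 * (-ξ)) / (4 * α) ≤ (lam k - ξ) ^ 2 / (4 * α) :=
            div_le_div_of_nonneg_right h7 (by positivity)
          have h9 : 2 * (-ξ * y) ≤ (2 * (-ξ)) / (4 * α) := by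
            rw [le_div_iff₀ (by positivity)]
            nlinarith
          have h10 : (1 + 2 * (-ξ)) / (4 * α) = 1 / (4 * α) + (2 * (-ξ)) / (4 * α) := by rw [add_div]
          have h11 : -(lam k - ξ) ^ 2 / (4 * α) = -((lam k - ξ) ^ 2 / (4 * α)) := by rw [neg_div]
          rw [h11]
          push_cast
          linarith
        have h6 := Real.exp_pos (-(lam k - ξ) ^ 2 / (4 * α))
        calc Real.exp (-(ξ * y)) ^ 2 * (‖c k‖ * Real.exp (-(lam k - ξ) ^ 2 / (4 * α)) ^ 2)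
            = ‖c k‖ * ((Real.exp (-(ξ * y)) ^ 2 * Real.exp (-(lam k - ξ) ^ 2 / (4 * α))) *
                Real.exp (-(lam k - ξ) ^ 2 / (4 * α))) := by ring
          _ ≤ ‖c k‖ * (Real.exp (-(1 / (4 * α))) * Real.exp (-(lam k - ξ) ^ 2 / (4 * α))) := by gcongr
          _ = _ := by ring
      have h5 : Real.exp (-(ξ * y)) ^ 2 * ((∑ k ∈ S, ‖c k‖) *
          ∑ k ∈ S, ‖c k‖ * Real.exp (-(lam k - ξ) ^ 2 / (4 * α)) ^ 2) ≤
          Real.exp (-(1 / (4 * α))) * nb S c * ∑ k ∈ S, ‖c k‖ * Real.exp (-(lam k - ξ) ^ 2 / (4 * α)) := by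
        have := mul_le_mul_of_nonneg_left h4 (nb_nonneg S c)
        unfold nb at this ⊢
        linarith
      have h6 : 0 ≤ ‖gt S c (fun k => (lam k : ℂ)) α ξ‖ ^ 2 := by positivity
      have h7 : Real.exp (-(ξ * y)) ^ 2 * ‖gt S c (fun k => (lam k : ℂ)) α ξ‖ ^ 2 ≤
          Real.exp (-(ξ * y)) ^ 2 * ((∑ k ∈ S, ‖c k‖) *
          ∑ k ∈ S, ‖c k‖ * Real.exp (-(lam k - ξ) ^ 2 / (4 * α)) ^ 2) :=
        mul_le_mul_of_nonneg_left (h2.trans h3) (by positivity)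
      linarith
  have hI := integral_mono_of_nonneg (Filter.Eventually.of_forall fun ξ => by positivity)
    (hi0.add (hi2.const_mul (Real.exp (-(1 / (4 * α))) * nb S c))) (Filter.Eventually.of_forall hpt)
  simp only [Pi.add_apply] at hI
  rw [integral_add hi0 (hi2.const_mul _), integral_const_mul, hp, hp2] at hI
  have hsum : ∫ ξ : ℝ, ∑ k ∈ S, ‖c k‖ * Real.exp (-(lam k - ξ) ^ 2 / (4 * α)) = nb S c * √(Real.pi * (4 * α)) := by
    rw [integral_finsetSum]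
    · unfold nb
      rw [Finset.sum_mul]
      refine Finset.sum_congr rfl fun k _ => ?_
      rw [integral_const_mul, (gauss_int hα).2]
    · exact fun k _ => (gauss_int hα).1.const_mul _
  rw [hsum] at hI
  have h2α : 0 < 2 * α := by positivity
  have e : 2 * α * (NN S c lam α + tiny (nb S c) α) = 2 * α * NN S c lam α +
      Real.exp (-(1 / (4 * α))) * nb S c * (nb S c * √(Real.pi * (4 * α))) := by
    unfold tiny; field_simp
  have hI2 : 2 * α * (∫ x : ℝ, ‖gs S (fun k => c k * cexp (-(I * lam k * (-(I * y))) - α * (-(I * y)) ^ 2))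
      (fun k => (lam k : ℂ) - 2 * I * α * (-(I * y))) α x‖ ^ 2) ≤ 2 * α * (NN S c lam α + tiny (nb S c) α) := by
    rw [e]; unfold NN; exact hI
  exact le_of_mul_le_mul_left hI2 h2α

/-- the bound of `‖D_v‖²` -/
lemma Dv_bound (S : Finset ι) (c : ι → ℂ) (lam : ι → ℝ) {α R : ℝ} {v : ℂ} (hα : 0 < α)
    (hR : α * R ^ 2 ≤ 1) (hR' : α * R ≤ 1) (hv : ‖v‖ ≤ R) (hvi : v.im ≤ 0) (hlam : ∀ k ∈ S, 1 ≤ lam k) :
    ∫ x : ℝ, ‖gs S (fun k => c k * cexp (-(I * lam k * v))) (fun k => (lam k : ℂ)) α x -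
      gs S (fun k => c k * cexp (-(I * lam k * v) - α * v ^ 2)) (fun k => (lam k : ℂ) - 2 * I * α * v) α x‖ ^ 2
      ≤ 81 * α * R ^ 2 * (NN S c lam (α / 4) + tiny (nb S c) (α / 4)) := by
  have hn0 := norm_nonneg v
  have hR0 : 0 ≤ R := hn0.trans hv
  have hv2 : ‖v‖ ^ 2 ≤ R ^ 2 := pow_le_pow_left₀ hn0 hv 2
  obtain ⟨y, hy⟩ : ∃ y : ℝ, y = -v.im := ⟨_, rfl⟩
  have hy0 : 0 ≤ y := by rw [hy]; linarith
  have hyR : y ≤ R := by
    have := Complex.abs_im_le_norm v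
    rw [hy]
    linarith [neg_abs_le v.im]
  have hsh := shift_le S c lam (α := α / 4) (y := y) (by positivity) hy0 (by nlinarith) hlam
  rw [← integral_add_right_eq_self (fun x : ℝ => ‖gs S (fun k => c k * cexp (-(I * lam k * v))) (fun k => (lam k : ℂ)) α x -
      gs S (fun k => c k * cexp (-(I * lam k * v) - α * v ^ 2)) (fun k => (lam k : ℂ) - 2 * I * α * v) α x‖ ^ 2)
      (-v.re)]
  refine le_trans ?_ (mul_le_mul_of_nonneg_left hsh.2 (by positivity : 0 ≤ 81 * α * R ^ 2))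
  rw [← integral_const_mul]
  refine integral_mono_of_nonneg (Filter.Eventually.of_forall fun x => by positivity)
    (hsh.1.const_mul _) (Filter.Eventually.of_forall fun X => ?_)
  simp only
  have hvy : ((X - v.re : ℝ) : ℂ) + v = (X : ℂ) + -(I * y) := by
    apply Complex.ext
    · simp
    · simp [hy]
  have e' : X + -v.re = X - v.re := by ring
  rw [e', gs_one, gs_shift, gs_shift, hvy, ← mul_sub, norm_mul, mul_pow, norm_mul, mul_pow]
  have h1 := gauss_diff (α := α) (X := X) (v := v) hα.le (by nlinarith)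
  rw [hvy] at h1
  have h2 : Real.exp (-(α * X ^ 2 / 2)) ≤ ‖cexp (-(((α / 4 : ℝ) : ℂ) * ((X : ℂ) + -(I * y)) ^ 2))‖ ^ 2 := by
    rw [Complex.norm_exp, ← Real.exp_nat_mul]
    apply Real.exp_le_exp.2
    have e1 : -(((α / 4 : ℝ) : ℂ) * ((X : ℂ) + -(I * y)) ^ 2) =
        ((-(α / 4 * (X ^ 2 - y ^ 2)) : ℝ) : ℂ) + ((α / 2 * X * y : ℝ) : ℂ) * I := by
      push_cast
      linear_combination (-(α : ℂ) / 4 * (y : ℂ) ^ 2) * I_sq
    rw [e1, add_re, ofReal_re, mul_re, I_re, ofReal_im, I_im]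
    push_cast
    nlinarith [mul_nonneg hα.le (sq_nonneg y)]
  calc ‖tp S c lam ((X : ℂ) + -(I * y))‖ ^ 2 * ‖cexp (-(α * ((X - v.re : ℝ) : ℂ) ^ 2)) -
        cexp (-(α * ((X : ℂ) + -(I * y)) ^ 2))‖ ^ 2
      ≤ ‖tp S c lam ((X : ℂ) + -(I * y))‖ ^ 2 * (81 * α * ‖v‖ ^ 2 * Real.exp (-(α * X ^ 2 / 2))) := by gcongr
    _ ≤ ‖tp S c lam ((X : ℂ) + -(I * y))‖ ^ 2 * (81 * α * R ^ 2 *
        ‖cexp (-(((α / 4 : ℝ) : ℂ) * ((X : ℂ) + -(I * y)) ^ 2))‖ ^ 2) := by gcongr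
    _ = _ := by ring

/-- measures: finite, carried by the part of a disc to the right of the imaginary axis -/
structure Good (μ : Measure ℂ) (w : ℂ → ℂ) (R : ℝ) : Prop where
  fin : IsFiniteMeasure μ
  int : Integrable w μ
  supp : ∀ᵐ z ∂μ, 0 ≤ z.re ∧ ‖z‖ ≤ R

/-- total mass -/
noncomputable def tm (μ : Measure ℂ) (w : ℂ → ℂ) : ℝ := ∫ z, ‖w z‖ ∂μ

lemma tm_nonneg (μ : Measure ℂ) (w : ℂ → ℂ) : 0 ≤ tm μ w := integral_nonneg fun _ => norm_nonneg _

lemma Good.int_mul {μ : Measure ℂ} {w : ℂ → ℂ} {R : ℝ} (h : Good μ w R) {f : ℂ → ℂ} (hf : AEStronglyMeasurable f μ)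
    {C : ℝ} (hC : ∀ z : ℂ, 0 ≤ z.re → ‖z‖ ≤ R → ‖f z‖ ≤ C) : Integrable (fun u => w u * f u) μ := by
  refine (h.int.norm.mul_const C).mono' (h.int.aestronglyMeasurable.mul hf) ?_
  filter_upwards [h.supp] with u hu
  rw [norm_mul]
  exact mul_le_mul_of_nonneg_left (hC u hu.1 hu.2) (norm_nonneg _)

lemma norm_lap (ξ : ℝ) (z : ℂ) : ‖cexp (-(ξ * z))‖ = Real.exp (-(ξ * z.re)) := by
  rw [Complex.norm_exp]; congr 1; simp

lemma norm_lap_le {ξ : ℝ} {z : ℂ} (hξ : 0 ≤ ξ) (hz : 0 ≤ z.re) : ‖cexp (-(ξ * z))‖ ≤ 1 := by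
  rw [norm_lap, Real.exp_le_one_iff]; nlinarith

lemma Good.int_char {μ : Measure ℂ} {w : ℂ → ℂ} {R : ℝ} (h : Good μ w R) {ξ : ℝ} (hξ : 0 ≤ ξ) :
    Integrable (fun z => w z * cexp (-(ξ * z))) μ :=
  h.int_mul (Continuous.aestronglyMeasurable (by fun_prop)) (C := 1) fun z hz _ => norm_lap_le hξ hz

lemma tr_norm {μ : Measure ℂ} {w : ℂ → ℂ} {R : ℝ} (h : Good μ w R) {ξ : ℝ} (hξ : 0 ≤ ξ) :
    ‖tr μ w ξ‖ ≤ tm μ w := by
  unfold tr tm
  refine norm_integral_le_of_norm_le h.int.norm ?_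
  filter_upwards [h.supp] with z hz
  rw [norm_mul]
  calc _ ≤ ‖w z‖ * 1 := mul_le_mul_of_nonneg_left (norm_lap_le hξ hz.1) (norm_nonneg _)
    _ = _ := mul_one _

/-- the difference function -/
noncomputable def Q (S : Finset ι) (c : ι → ℂ) (lam : ι → ℝ) (α : ℝ) (z : ℂ) (ξ : ℝ) : ℂ :=
  gt S (fun k => c k * cexp (-(I * lam k * (-(I * z))))) (fun k => (lam k : ℂ)) α ξ -
  gt S (fun k => c k * cexp (-(I * lam k * (-(I * z))) - α * (-(I * z)) ^ 2))
    (fun k => (lam k : ℂ) - 2 * I * α * (-(I * z))) α ξ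

lemma I_cancel (a z : ℂ) : -(I * a * (-(I * z))) = -(a * z) := by
  linear_combination (a * z) * I_sq

lemma Q_le (S : Finset ι) (c : ι → ℂ) (lam : ι → ℝ) {α : ℝ} (hα : 0 < α) {z : ℂ} (hz : 0 ≤ z.re) {ξ : ℝ}
    (hξ : 0 ≤ ξ) (hlam : ∀ k ∈ S, 1 ≤ lam k) :
    ‖Q S c lam α z ξ‖ ≤ 2 * nb S c := by
  unfold Q
  rw [gt_shift S c lam hα _ ξ]
  have h1 := gt_le_dom S (fun k => c k * cexp (-(I * lam k * (-(I * z))))) lam α ξ
  have h2 : dom S (fun k => c k * cexp (-(I * lam k * (-(I * z))))) lam α ξ ≤ dom S c lam α ξ := by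
    unfold dom
    refine Finset.sum_le_sum fun k hk => ?_
    refine mul_le_mul_of_nonneg_right ?_ (Real.exp_pos _).le
    rw [norm_mul, I_cancel]
    have : ‖cexp (-((lam k : ℂ) * z))‖ ≤ 1 := norm_lap_le (by linarith [hlam k hk]) hz
    calc _ ≤ ‖c k‖ * 1 := mul_le_mul_of_nonneg_left this (norm_nonneg _)
      _ = _ := mul_one _
  have h3 := gt_le_dom S c lam α ξ
  have h4 := dom_le S c lam hα ξ
  have h5 : ‖cexp (-(I * ξ * (-(I * z))))‖ ≤ 1 := by
    rw [I_cancel]; exact norm_lap_le hξ hz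
  calc _ ≤ _ + _ := norm_sub_le _ _
    _ ≤ dom S c lam α ξ + 1 * dom S c lam α ξ := by
        rw [norm_mul]
        exact add_le_add (h1.trans h2) (mul_le_mul h5 h3 (norm_nonneg _) zero_le_one)
    _ ≤ _ := by linarith

lemma Q_cont (S : Finset ι) (c : ι → ℂ) (lam : ι → ℝ) (α : ℝ) :
    Continuous (fun p : ℂ × ℝ => Q S c lam α p.1 p.2) := by
  unfold Q gt; fun_prop

lemma ge_cont (S : Finset ι) (c : ι → ℂ) (lam : ι → ℝ) (α ξ : ℝ) :
    Continuous (fun z : ℂ => gt S (fun k => c k * cexp (-(I * lam k * (-(I * z))))) (fun k => (lam k : ℂ)) α ξ) := by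
  unfold gt; fun_prop

/-- the commutator -/
theorem comm (S : Finset ι) (c : ι → ℂ) (lam : ι → ℝ) {α R a b : ℝ} (hα : 0 < α)
    (hR : α * R ^ 2 ≤ 1) (hR' : α * R ≤ 1) (ha : 0 ≤ a) (hlam : ∀ k ∈ S, 1 ≤ lam k)
    {μ : Measure ℂ} {w : ℂ → ℂ} (hμ : Good μ w R) :
    ∫ ξ in Set.Icc a b, ‖tr μ w ξ * gt S c (fun k => (lam k : ℂ)) α ξ‖ ^ 2 ≤
      4 * α * NN S (fun k => c k * tr μ w (lam k)) lam α +
      4 * α * (tm μ w ^ 2 * (81 * α * R ^ 2 * (NN S c lam (α / 4) + tiny (nb S c) (α / 4)))) := by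
  have := hμ.fin
  set J := Set.Icc a b with hJ
  have hJm : MeasurableSet J := measurableSet_Icc
  have hJ0 : ∀ ξ ∈ J, 0 ≤ ξ := fun ξ hξ => ha.trans hξ.1
  have hfin : IsFiniteMeasure (volume.restrict J) := by
    constructor
    rw [Measure.restrict_apply_univ, hJ, Real.volume_Icc]
    exact ENNReal.ofReal_lt_top
  have hQv : ∀ ξ : ℝ, Continuous (fun z : ℂ => Q S c lam α z ξ) := fun ξ => by
    unfold Q gt; fun_prop
  have hdiff : ∀ ξ ∈ J, tr μ w ξ * gt S c (fun k => (lam k : ℂ)) α ξ =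
      gt S (fun k => c k * tr μ w (lam k)) (fun k => (lam k : ℂ)) α ξ -
      ∫ z, w z * Q S c lam α z ξ ∂μ := by
    intro ξ hξ
    have hξ0 := hJ0 ξ hξ
    have h1 : ∫ z, w z * Q S c lam α z ξ ∂μ =
        (∫ z, w z * gt S (fun k => c k * cexp (-(I * lam k * (-(I * z))))) (fun k => (lam k : ℂ)) α ξ ∂μ) -
        ∫ z, w z * (cexp (-(ξ * z)) * gt S c (fun k => (lam k : ℂ)) α ξ) ∂μ := by
      rw [← integral_sub]
      · refine integral_congr_ae (Filter.Eventually.of_forall fun z => ?_)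
        simp only
        unfold Q
        rw [gt_shift S c lam hα _ ξ, I_cancel (ξ : ℂ) z]; ring
      · refine hμ.int_mul (C := nb S c) (ge_cont S c lam α ξ).aestronglyMeasurable fun z hz _ => ?_
        refine (gt_le_dom S (fun k => c k * cexp (-(I * lam k * (-(I * z))))) lam α ξ).trans ?_
        refine (dom_le S _ lam hα ξ).trans ?_
        unfold nb
        refine Finset.sum_le_sum fun k hk => ?_
        rw [norm_mul, I_cancel]
        have : ‖cexp (-((lam k : ℂ) * z))‖ ≤ 1 := norm_lap_le (by linarith [hlam k hk]) hz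
        calc _ ≤ ‖c k‖ * 1 := mul_le_mul_of_nonneg_left this (norm_nonneg _)
          _ = _ := mul_one _
      · refine hμ.int_mul (C := ‖gt S c (fun k => (lam k : ℂ)) α ξ‖)
          (Continuous.aestronglyMeasurable (by fun_prop)) fun z hz _ => ?_
        rw [norm_mul]
        calc _ ≤ 1 * ‖gt S c (fun k => (lam k : ℂ)) α ξ‖ :=
              mul_le_mul_of_nonneg_right (norm_lap_le hξ0 hz) (norm_nonneg _)
          _ = _ := one_mul _
    have hterm : ∀ (k : ι) (z : ℂ), w z * (c k * cexp (-(I * lam k * (-(I * z)))) *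
        cexp (-((lam k : ℂ) - ξ) ^ 2 / (4 * α))) =
            (w z * cexp (-(lam k * z))) * (c k * cexp (-((lam k : ℂ) - ξ) ^ 2 / (4 * α))) := by
      intro k z
      rw [I_cancel]; ring
    have h2 : ∫ z, w z * gt S (fun k => c k * cexp (-(I * lam k * (-(I * z))))) (fun k => (lam k : ℂ)) α ξ ∂μ =
        gt S (fun k => c k * tr μ w (lam k)) (fun k => (lam k : ℂ)) α ξ := by
      unfold gt
      simp_rw [Finset.mul_sum, hterm]
      rw [integral_finsetSum]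
      · refine Finset.sum_congr rfl fun k _ => ?_
        rw [integral_mul_const]
        unfold tr
        ring
      · intro k hk
        exact (hμ.int_char (by linarith [hlam k hk])).mul_const _
    have h3 : ∫ z, w z * (cexp (-(ξ * z)) * gt S c (fun k => (lam k : ℂ)) α ξ) ∂μ =
        tr μ w ξ * gt S c (fun k => (lam k : ℂ)) α ξ := by
      have : ∀ z : ℂ, w z * (cexp (-(ξ * z)) * gt S c (fun k => (lam k : ℂ)) α ξ) =
          (w z * cexp (-(ξ * z))) * gt S c (fun k => (lam k : ℂ)) α ξ := by intro z; ring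
      simp_rw [this]
      rw [integral_mul_const]
      rfl
    rw [h1, h2, h3]; ring
  -- integrability on the product
  have hprod : Integrable (fun p : ℂ × ℝ => ‖w p.1‖ * ‖Q S c lam α p.1 p.2‖ ^ 2) (μ.prod (volume.restrict J)) := by
    have h1 : Integrable (fun p : ℂ × ℝ => ‖w p.1‖ * (2 * nb S c) ^ 2) (μ.prod (volume.restrict J)) :=
      hμ.int.norm.mul_prod (integrable_const ((2 * nb S c) ^ 2))
    refine h1.mono' ?_ ?_
    · exact (hμ.int.aestronglyMeasurable.comp_fst.norm).mul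
        (((Q_cont S c lam α).norm.pow 2).aestronglyMeasurable)
    · have hae : ∀ᵐ p : ℂ × ℝ ∂(μ.prod (volume.restrict J)), (0 ≤ p.1.re ∧ ‖p.1‖ ≤ R) ∧ p.2 ∈ J := by
        have h2 : ∀ᵐ p : ℂ × ℝ ∂(μ.prod (volume.restrict J)), (0 ≤ p.1.re ∧ ‖p.1‖ ≤ R) :=
          Measure.quasiMeasurePreserving_fst.ae hμ.supp
        have h3 : ∀ᵐ p : ℂ × ℝ ∂(μ.prod (volume.restrict J)), p.2 ∈ J :=
          Measure.quasiMeasurePreserving_snd.ae (ae_restrict_mem hJm)
        filter_upwards [h2, h3] with p hp1 hp2 using ⟨hp1, hp2⟩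
      filter_upwards [hae] with p hp
      rw [Real.norm_eq_abs, abs_of_nonneg (by positivity)]
      exact mul_le_mul_of_nonneg_left (pow_le_pow_left₀ (norm_nonneg _)
        (Q_le S c lam hα hp.1.1 (hJ0 _ hp.2) hlam) 2) (norm_nonneg _)
  have hpt : ∀ ξ ∈ J, ‖∫ z, w z * Q S c lam α z ξ ∂μ‖ ^ 2 ≤ tm μ w * ∫ z, ‖w z‖ * ‖Q S c lam α z ξ‖ ^ 2 ∂μ := by
    intro ξ hξ
    refine cs_int μ hμ.int ?_
    refine (hμ.int.norm.mul_const ((2 * nb S c) ^ 2)).mono' ?_ ?_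
    · exact hμ.int.aestronglyMeasurable.norm.mul ((hQv ξ).norm.pow 2).aestronglyMeasurable
    · filter_upwards [hμ.supp] with z hz
      rw [Real.norm_eq_abs, abs_of_nonneg (by positivity)]
      exact mul_le_mul_of_nonneg_left (pow_le_pow_left₀ (norm_nonneg _)
        (Q_le S c lam hα hz.1 (hJ0 ξ hξ) hlam) 2) (norm_nonneg _)
  have hswap : ∫ ξ in J, ∫ z, ‖w z‖ * ‖Q S c lam α z ξ‖ ^ 2 ∂μ =
      ∫ z, (∫ ξ in J, ‖w z‖ * ‖Q S c lam α z ξ‖ ^ 2) ∂μ := by
    exact (integral_integral_swap (f := fun z ξ => ‖w z‖ * ‖Q S c lam α z ξ‖ ^ 2) hprod).symm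
  have hinner : ∫ z, (∫ ξ in J, ‖w z‖ * ‖Q S c lam α z ξ‖ ^ 2) ∂μ ≤
      tm μ w * (2 * α * (81 * α * R ^ 2 * (NN S c lam (α / 4) + tiny (nb S c) (α / 4)))) := by
    unfold tm
    rw [← integral_mul_const]
    refine integral_mono_ae hprod.integral_prod_left (hμ.int.norm.mul_const _) ?_
    filter_upwards [hμ.supp] with z hz
    rw [integral_const_mul]
    refine mul_le_mul_of_nonneg_left ?_ (norm_nonneg _)
    have hps := planch_sub S (fun k => c k * cexp (-(I * lam k * (-(I * z))))) (fun k => (lam k : ℂ))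
      (fun k => c k * cexp (-(I * lam k * (-(I * z))) - α * (-(I * z)) ^ 2))
      (fun k => (lam k : ℂ) - 2 * I * α * (-(I * z))) hα
    calc ∫ ξ in J, ‖Q S c lam α z ξ‖ ^ 2 ≤ ∫ ξ : ℝ, ‖Q S c lam α z ξ‖ ^ 2 := by
          refine setIntegral_le_integral ?_ (Filter.Eventually.of_forall fun ξ => by positivity)
          unfold Q; exact hps.1
      _ ≤ _ := by
          unfold Q
          rw [hps.2]
          refine mul_le_mul_of_nonneg_left ?_ (by positivity)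
          refine Dv_bound S c lam hα hR hR' (v := -(I * z)) ?_ ?_ hlam
          · rw [norm_neg, norm_mul, Complex.norm_I, one_mul]; exact hz.2
          · simp; exact hz.1
  have hint1 := (gt_sq S (fun k => c k * tr μ w (lam k)) (fun k => (lam k : ℂ)) hα).1
  have hint2 : Integrable (fun ξ : ℝ => ∫ z, ‖w z‖ * ‖Q S c lam α z ξ‖ ^ 2 ∂μ) (volume.restrict J) :=
    hprod.integral_prod_right
  have hint1' := hint1.integrableOn (s := J)
  calc ∫ ξ in J, ‖tr μ w ξ * gt S c (fun k => (lam k : ℂ)) α ξ‖ ^ 2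
      ≤ ∫ ξ in J, (2 * ‖gt S (fun k => c k * tr μ w (lam k)) (fun k => (lam k : ℂ)) α ξ‖ ^ 2 +
        2 * (tm μ w * ∫ z, ‖w z‖ * ‖Q S c lam α z ξ‖ ^ 2 ∂μ)) := by
        refine integral_mono_of_nonneg (Filter.Eventually.of_forall fun _ => by positivity)
          ((hint1'.const_mul 2).add ((hint2.const_mul _).const_mul 2)) ?_
        filter_upwards [ae_restrict_mem hJm] with ξ hξ
        rw [hdiff ξ hξ]
        have h1 := hpt ξ hξ
        have h2 := norm_sub_le (gt S (fun k => c k * tr μ w (lam k)) (fun k => (lam k : ℂ)) α ξ)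
          (∫ z, w z * Q S c lam α z ξ ∂μ)
        have h3 := pow_le_pow_left₀ (norm_nonneg _) h2 2
        nlinarith [sq_nonneg (‖gt S (fun k => c k * tr μ w (lam k)) (fun k => (lam k : ℂ)) α ξ‖ -
          ‖∫ z, w z * Q S c lam α z ξ ∂μ‖)]
    _ = 2 * (∫ ξ in J, ‖gt S (fun k => c k * tr μ w (lam k)) (fun k => (lam k : ℂ)) α ξ‖ ^ 2) +
        2 * (tm μ w * ∫ ξ in J, ∫ z, ‖w z‖ * ‖Q S c lam α z ξ‖ ^ 2 ∂μ) := by
        rw [integral_add (hint1'.const_mul 2) ((hint2.const_mul _).const_mul 2), integral_const_mul,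
          integral_const_mul, integral_const_mul]
    _ ≤ 2 * (2 * α * NN S (fun k => c k * tr μ w (lam k)) lam α) +
        2 * (tm μ w * (tm μ w * (2 * α * (81 * α * R ^ 2 * (NN S c lam (α / 4) + tiny (nb S c) (α / 4)))))) := by
        have h0 : ∫ ξ in J, ‖gt S (fun k => c k * tr μ w (lam k)) (fun k => (lam k : ℂ)) α ξ‖ ^ 2 ≤
            2 * α * NN S (fun k => c k * tr μ w (lam k)) lam α := by
          unfold NN
          rw [← planch S _ _ hα]
          exact setIntegral_le_integral hint1 (Filter.Eventually.of_forall fun ξ => by positivity)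
        rw [hswap]
        have := mul_le_mul_of_nonneg_left hinner (tm_nonneg μ w)
        linarith
    _ = _ := by ring

end Pool.Agent.H60.WM
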