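import Pool.Agent.H60.WM.Asym
import Pool.Agent.H60.WM.RB
import Pool.Graph.R_pool_sql_team_seeded_ab47071d.TH804.SS6

/-! Application to the zeta function. -/

set_option autoImplicit false

open Complex MeasureTheory Finset Filter Topology
open Pool.Agent.R747.TL Pool.Agent.TH804.SS

namespace Pool.Agent.H60.WM

lemma sec_close : ∀ᶠ T : ℝ in atTop, ∀ s : ℂ, 1 / 2 ≤ s.re → s.re ≤ T / 4 → |s.im - T| ≤ T / 2 →
    ‖riemannZeta s - sec ⌊T ^ 2⌋₊ s‖ ≤ 10 := by
  filter_upwards [eventually_ge_atTop (4 : ℝ)] with T hT s hs1 hs2 hx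
  have hx' := abs_le.1 hx
  set N := ⌊T ^ 2⌋₊ with hN
  have hsne : s ≠ 1 := by
    intro h; have := congrArg Complex.im h; rw [one_im] at this; linarith
  have hN1 : 1 ≤ N := by
    rw [hN, Nat.one_le_floor_iff]; nlinarith
  have hNle : (N : ℝ) ≤ T ^ 2 := Nat.floor_le (by positivity)
  have hNge : T ^ 2 / 4 ≤ (N : ℝ) := by
    have := Nat.lt_floor_add_one (T ^ 2)
    rw [← hN] at this
    nlinarith
  have hN0 : (0 : ℝ) < N := by exact_mod_cast hN1
  have hN1' : (1 : ℝ) ≤ N := by exact_mod_cast hN1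
  have h := em N hN1 (s := s) hs1 hsne
  have hnorm : ‖s‖ ≤ 2 * T := by
    have := Complex.norm_le_abs_re_add_abs_im s
    rw [abs_of_pos (by linarith : 0 < s.re), abs_of_pos (by linarith : 0 < s.im)] at this
    linarith
  have hNh : (N : ℝ) ^ (-(1 / 2) : ℝ) ≤ 2 / T := by
    rw [Real.rpow_neg hN0.le, ← Real.sqrt_eq_rpow]
    have h1 : T / 2 ≤ √(N : ℝ) := by
      apply Real.le_sqrt_of_sq_le; nlinarith
    calc (√(N : ℝ))⁻¹ ≤ (T / 2)⁻¹ := inv_anti₀ (by linarith) h1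
      _ = 2 / T := by rw [inv_div]
  have h2 : 2 * ‖s‖ * (N : ℝ) ^ (-(1 / 2) : ℝ) ≤ 8 := by
    calc 2 * ‖s‖ * (N : ℝ) ^ (-(1 / 2) : ℝ) ≤ 2 * (2 * T) * (2 / T) := by gcongr
      _ = 8 := by field_simp; norm_num
  have h3 : ‖(N : ℂ) ^ (1 - s) / (s - 1)‖ ≤ 2 := by
    rw [norm_div]
    have e1 : ‖(N : ℂ) ^ (1 - s)‖ ≤ √(N : ℝ) := by
      have : (N : ℂ) = ((N : ℝ) : ℂ) := by push_cast; rfl
      rw [this, Complex.norm_cpow_eq_rpow_re_of_pos hN0, Real.sqrt_eq_rpow]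
      apply Real.rpow_le_rpow_of_exponent_le hN1'
      rw [sub_re, one_re]; linarith
    have e2 : T / 2 ≤ ‖s - 1‖ := by
      have := Complex.abs_im_le_norm (s - 1)
      rw [sub_im, one_im, sub_zero, abs_of_pos (by linarith : 0 < s.im)] at this
      linarith
    have e3 : √(N : ℝ) ≤ T := by
      rw [Real.sqrt_le_left (by linarith)]; exact hNle
    rw [div_le_iff₀ (by linarith)]
    linarith
  calc ‖riemannZeta s - sec N s‖ = ‖(riemannZeta s - sec N s - (N : ℂ) ^ (1 - s) / (s - 1)) +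
        (N : ℂ) ^ (1 - s) / (s - 1)‖ := by congr 1; ring
    _ ≤ 8 + 2 := (norm_add_le _ _).trans (add_le_add (h.trans h2) h3)
    _ = 10 := by norm_num

/-- coefficients of the power of a section -/
noncomputable def cc (k : ℕ) (T : ℝ) (n : Fin k → ℕ) : ℂ := ∏ i, ((n i : ℂ) + 1) ^ (-(1 / 2 + (T : ℂ) * I))

/-- frequencies of the power of a section -/
noncomputable def ll (k : ℕ) (n : Fin k → ℕ) : ℝ := ∑ i, Real.log ((n i : ℝ) + 1)

/-- index set -/
def ix (k N : ℕ) : Finset (Fin k → ℕ) := Fintype.piFinset fun _ => Finset.range N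

lemma ll_eq (k : ℕ) (n : Fin k → ℕ) : ll k n = Real.log (∏ i, ((n i : ℝ) + 1)) := by
  rw [Real.log_prod fun i _ => by positivity]; rfl

lemma ll_nonneg (k : ℕ) (n : Fin k → ℕ) : 0 ≤ ll k n :=
  Finset.sum_nonneg fun i _ => Real.log_nonneg (by linarith [(n i).cast_nonneg (α := ℝ)])

lemma cc_norm (k : ℕ) (T : ℝ) (n : Fin k → ℕ) : ‖cc k T n‖ ≤ 1 := by
  unfold cc
  rw [norm_prod]
  refine Finset.prod_le_one (fun _ _ => norm_nonneg _) fun i _ => ?_
  rw [term_norm]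
  apply Real.rpow_le_one_of_one_le_of_nonpos (by linarith [(n i).cast_nonneg (α := ℝ)])
  simp

lemma sec_pow (k N : ℕ) (T : ℝ) (v : ℂ) :
    (sec N (1 / 2 + (T : ℂ) * I + I * v)) ^ k = tp (ix k N) (cc k T) (ll k) v := by
  have h1 : (sec N (1 / 2 + (T : ℂ) * I + I * v)) ^ k =
      ∏ _i : Fin k, sec N (1 / 2 + (T : ℂ) * I + I * v) := by
    rw [Finset.prod_const, Finset.card_univ, Fintype.card_fin]
  rw [h1]
  unfold sec tp ix
  rw [Finset.prod_univ_sum]
  refine Finset.sum_congr rfl fun p _ => ?_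
  unfold cc ll
  have h2 : cexp (-(I * ((∑ i, Real.log ((p i : ℝ) + 1) : ℝ) : ℂ) * v)) =
      ∏ i, cexp (-(I * (Real.log ((p i : ℝ) + 1) : ℂ) * v)) := by
    rw [← Complex.exp_sum]
    congr 1
    push_cast
    rw [Finset.mul_sum, Finset.sum_mul, Finset.sum_neg_distrib]
  rw [h2, ← Finset.prod_mul_distrib]
  refine Finset.prod_congr rfl fun i _ => ?_
  have h0 : ((p i : ℂ) + 1) ≠ 0 := n1_ne _
  have e : -(1 / 2 + (T : ℂ) * I + I * v) = -(1 / 2 + (T : ℂ) * I) + -(I * v) := by ring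
  rw [e, Complex.cpow_add _ _ h0]
  congr 1
  rw [Complex.cpow_def_of_ne_zero h0]
  congr 1
  have : Complex.log ((p i : ℂ) + 1) = ((Real.log ((p i : ℝ) + 1) : ℝ) : ℂ) := by
    rw [Complex.ofReal_log (by positivity)]; push_cast; rfl
  rw [this]; ring

lemma tp_filter {ι : Type*} (S : Finset ι) (c : ι → ℂ) (lam : ι → ℝ) (x : ℂ) (p : ι → Prop) [DecidablePred p] :
    tp S c lam x = tp (S.filter p) c lam x + tp (S.filter fun i => ¬ p i) c lam x := by
  unfold tp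
  exact (Finset.sum_filter_add_sum_filter_not S p _).symm

lemma tp_norm_im {ι : Type*} (S : Finset ι) (c : ι → ℂ) (lam : ι → ℝ) (v : ℂ) (hv : v.im ≤ 0)
    (hl : ∀ k ∈ S, 0 ≤ lam k) : ‖tp S c lam v‖ ≤ nb S c := by
  unfold tp nb
  refine (norm_sum_le _ _).trans (Finset.sum_le_sum fun k hk => ?_)
  rw [norm_mul]
  have : ‖cexp (-(I * lam k * v))‖ ≤ 1 := by
    rw [Complex.norm_exp, Real.exp_le_one_iff]
    have e : (-(I * lam k * v)).re = lam k * v.im := by simp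
    rw [e]
    nlinarith [hl k hk]
  calc _ ≤ ‖c k‖ * 1 := mul_le_mul_of_nonneg_left this (norm_nonneg _)
    _ = _ := mul_one _

lemma low_bound (k N : ℕ) (T : ℝ) (v : ℂ) (hv : v.im ≤ 0) (Y : ℝ) (hY : 1 ≤ Y) :
    ‖tp ((ix k N).filter fun n => ¬ Y < ∏ i, ((n i : ℝ) + 1)) (cc k T) (ll k) v‖ ≤ Y ^ k := by
  refine (tp_norm_im _ _ _ _ hv fun n _ => ll_nonneg k n).trans ?_
  unfold nb
  calc _ ≤ ∑ n ∈ ((ix k N).filter fun n => ¬ Y < ∏ i, ((n i : ℝ) + 1)), (1 : ℝ) :=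
        Finset.sum_le_sum fun n _ => cc_norm k T n
    _ = (((ix k N).filter fun n => ¬ Y < ∏ i, ((n i : ℝ) + 1)).card : ℝ) := by simp
    _ ≤ ((ix k ⌊Y⌋₊).card : ℝ) := by
        have : ((ix k N).filter fun n => ¬ Y < ∏ i, ((n i : ℝ) + 1)) ⊆ ix k ⌊Y⌋₊ := by
          intro n hn
          rw [Finset.mem_filter, not_lt] at hn
          unfold ix
          rw [Fintype.mem_piFinset]
          intro i
          rw [Finset.mem_range, ← Nat.succ_le_iff, Nat.le_floor_iff (by linarith)]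
          have h1 : ((n i : ℝ) + 1) ≤ ∏ i, ((n i : ℝ) + 1) := by
            have h0 : n i + 1 ≤ ∏ i, (n i + 1) :=
              Finset.single_le_prod' (f := fun i => n i + 1) (fun j _ => by omega) (Finset.mem_univ i)
            exact_mod_cast h0
          push_cast
          linarith [hn.2]
        exact_mod_cast Finset.card_le_card this
    _ = (⌊Y⌋₊ : ℝ) ^ k := by unfold ix; simp
    _ ≤ Y ^ k := pow_le_pow_left₀ (Nat.cast_nonneg _) (Nat.floor_le (by linarith)) k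

end Pool.Agent.H60.WM
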